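import Mathlib

set_option autoImplicit false
set_option linter.unusedSectionVars false

/-! Almost invariant finite sets of cosets. -/

namespace Pool.Agent.Q91.LB

universe u

section
variable {G : Type u} [Group G] (K : Subgroup G)

/-- `F` is a nonempty `(S, δ)`-invariant finite set of cosets -/
def Fol (S : Finset G) (δ : ℝ) (F : Finset (G ⧸ K)) : Prop :=
  F.Nonempty ∧ (({x | x ∈ F ∧ ∃ s ∈ S, s • x ∉ F} : Set (G ⧸ K)).ncard : ℝ) ≤ δ * F.card

theorem Fol.mono {S S' : Finset G} {δ δ' : ℝ} {F : Finset (G ⧸ K)} (h : Fol K S' δ' F)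
    (hS : S ⊆ S') (hδ : δ' ≤ δ) : Fol K S δ F := by
  refine ⟨h.1, ?_⟩
  have h1 : (({x | x ∈ F ∧ ∃ s ∈ S, s • x ∉ F} : Set (G ⧸ K)).ncard : ℝ)
      ≤ (({x | x ∈ F ∧ ∃ s ∈ S', s • x ∉ F} : Set (G ⧸ K)).ncard : ℝ) := by
    have h2 : ({x | x ∈ F ∧ ∃ s ∈ S, s • x ∉ F} : Set (G ⧸ K)).ncard
        ≤ ({x | x ∈ F ∧ ∃ s ∈ S', s • x ∉ F} : Set (G ⧸ K)).ncard := by
      apply Set.ncard_le_ncard
      · rintro x ⟨hx, s, hs, hsx⟩
        exact ⟨hx, s, hS hs, hsx⟩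
      · exact (Finset.finite_toSet F).subset fun x hx => hx.1
    exact_mod_cast h2
  have h3 : (0 : ℝ) ≤ F.card := by positivity
  calc _ ≤ _ := h1
    _ ≤ δ' * F.card := h.2
    _ ≤ δ * F.card := by gcongr

theorem Fol.of_invariant {S : Finset G} {δ : ℝ} (hδ : 0 ≤ δ) {F : Finset (G ⧸ K)}
    (hF : F.Nonempty) (h : ∀ s ∈ S, ∀ y ∈ F, s • y ∈ F) : Fol K S δ F := by
  refine ⟨hF, ?_⟩
  have h1 : ({x | x ∈ F ∧ ∃ s ∈ S, s • x ∉ F} : Set (G ⧸ K)) = ∅ := by
    ext x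
    simp only [Set.mem_setOf_eq, Set.mem_empty_iff_false, iff_false, not_and, not_exists]
    intro hx s hs hsx
    exact hsx (h s hs x hx)
  rw [h1, Set.ncard_empty]
  have h3 : (0 : ℝ) ≤ F.card := by positivity
  push_cast
  positivity

theorem Fol.invariant {S : Finset G} {δ : ℝ} {F : Finset (G ⧸ K)} (h : Fol K S δ F)
    (hδ : δ * F.card < 1) : ∀ s ∈ S, ∀ y ∈ F, s • y ∈ F := by
  have h1 : ({x | x ∈ F ∧ ∃ s ∈ S, s • x ∉ F} : Set (G ⧸ K)).ncard = 0 := by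
    have h2 := lt_of_le_of_lt h.2 hδ
    have h3 : ({x | x ∈ F ∧ ∃ s ∈ S, s • x ∉ F} : Set (G ⧸ K)).ncard < 1 := by exact_mod_cast h2
    omega
  rw [Set.ncard_eq_zero ((Finset.finite_toSet F).subset fun x hx => hx.1)] at h1
  intro s hs y hy
  by_contra hcon
  have h2 : y ∈ ({x | x ∈ F ∧ ∃ s ∈ S, s • x ∉ F} : Set (G ⧸ K)) := ⟨hy, s, hs, hcon⟩
  rw [h1] at h2
  exact h2

/-- If there are infinitely many cosets there are arbitrarily large almost invariant sets. -/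
theorem large (hK : ∀ (S : Finset G) (δ : ℝ), 0 < δ → ∃ F, Fol K S δ F) (hinf : Infinite (G ⧸ K))
    (S : Finset G) (δ : ℝ) (hδ : 0 < δ) (N : ℕ) : ∃ F, Fol K S δ F ∧ N ≤ F.card := by
  classical
  by_contra hcon
  push Not at hcon
  let Q : Finset G → Set (G ⧸ K) := fun S' =>
    {x | ∃ F : Finset (G ⧸ K), x ∈ F ∧ F.card < N ∧ ∀ s ∈ S', ∀ y ∈ F, s • y ∈ F}
  have hanti : ∀ S' S'' : Finset G, S' ⊆ S'' → Q S'' ⊆ Q S' := by
    rintro S' S'' h x ⟨F, hx, hc, hi⟩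
    exact ⟨F, hx, hc, fun s hs => hi s (h hs)⟩
  have hne : ∀ S' : Finset G, S ⊆ S' → (Q S').Nonempty := by
    intro S' hS'
    set δ' : ℝ := min δ (1 / (N + 1)) with hδ'
    have hδ'0 : 0 < δ' := lt_min hδ (by positivity)
    obtain ⟨F, hF⟩ := hK S' δ' hδ'0
    have hc := hcon F (hF.mono K hS' (min_le_left _ _))
    have h1 : δ' * F.card < 1 := by
      have h2 : (F.card : ℝ) < N := by exact_mod_cast hc
      have h3 : δ' ≤ 1 / (N + 1) := min_le_right _ _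
      have h4 : (0 : ℝ) ≤ F.card := by positivity
      calc δ' * F.card ≤ 1 / (N + 1) * F.card := by gcongr
        _ < 1 := by
          rw [div_mul_eq_mul_div, one_mul, div_lt_one (by positivity)]
          linarith
    obtain ⟨x, hx⟩ := hF.1
    exact ⟨x, F, hx, hc, hF.invariant K h1⟩
  have hfin : (Q S).Finite := by
    by_contra hinf'
    obtain ⟨T, hT, hTc⟩ := (show (Q S).Infinite from hinf').exists_subset_card_eq (N + 1)
    have h1 : ∀ x : G ⧸ K, ∃ F : Finset (G ⧸ K), x ∈ T → x ∈ F ∧ ∀ s ∈ S, ∀ y ∈ F, s • y ∈ F := by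
      intro x
      by_cases hx : x ∈ T
      · obtain ⟨F, h2, _, h3⟩ := hT hx
        exact ⟨F, fun _ => ⟨h2, h3⟩⟩
      · exact ⟨∅, fun h => absurd h hx⟩
    choose Fx hFx using h1
    set U := T.biUnion Fx with hU
    have hTU : T ⊆ U := fun x hx => Finset.mem_biUnion.2 ⟨x, hx, (hFx x hx).1⟩
    have h2 : ∀ s ∈ S, ∀ y ∈ U, s • y ∈ U := by
      intro s hs y hy
      obtain ⟨x, hx, hyx⟩ := Finset.mem_biUnion.1 hy
      exact Finset.mem_biUnion.2 ⟨x, hx, (hFx x hx).2 s hs y hyx⟩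
    have hUn : U.Nonempty := by
      have : 0 < T.card := by omega
      obtain ⟨x, hx⟩ := Finset.card_pos.1 this
      exact ⟨x, hTU hx⟩
    have h3 := hcon U (Fol.of_invariant K hδ.le hUn h2)
    have h4 := Finset.card_le_card hTU
    omega
  -- a common point
  obtain ⟨x0, hx0⟩ : ∃ x0, ∀ S' : Finset G, S ⊆ S' → x0 ∈ Q S' := by
    by_contra hcon2
    push Not at hcon2
    choose Sx hSx1 hSx2 using hcon2
    set S1 : Finset G := S ∪ hfin.toFinset.biUnion Sx with hS1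
    obtain ⟨x, hx⟩ := hne S1 Finset.subset_union_left
    have hxQ : x ∈ Q S := hanti S S1 Finset.subset_union_left hx
    apply hSx2 x
    apply hanti (Sx x) S1 _ hx
    intro g hg
    refine Finset.mem_union_right _ (Finset.mem_biUnion.2 ⟨x, ?_, hg⟩)
    exact hfin.mem_toFinset.2 hxQ
  obtain ⟨T, hTc⟩ := Infinite.exists_subset_card_eq (G ⧸ K) N
  choose g hg using fun y : G ⧸ K => MulAction.exists_smul_eq G x0 y
  obtain ⟨F, hxF, hc, hi⟩ := hx0 (S ∪ T.image g) Finset.subset_union_left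
  have h1 : T ⊆ F := by
    intro y hy
    rw [← hg y]
    exact hi _ (Finset.mem_union_right _ (Finset.mem_image_of_mem g hy)) _ hxF
  have h2 := Finset.card_le_card h1
  omega

end

end Pool.Agent.Q91.LB
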