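import Pool.Agent.Q91.LB.Res

set_option autoImplicit false
set_option linter.unusedSectionVars false

/-! Matrices over the group algebra, kernels and images on finitely many cosets of a subgroup. -/

namespace Pool.Agent.Q91.LB

open Pool.Agent.W649.ZL Filter Topology
open scoped InnerProductSpace InnerProduct ENNReal

universe u v w z

section
variable {G : Type u} [Group G] {I : Type v} {J : Type w} [Fintype I] [Fintype J] [DecidableEq I]

/-- the operator given by a matrix over the group algebra -/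
noncomputable def opM (A : I → J → (G →₀ ℂ)) : EE G J →L[ℂ] EE G I :=
  ∑ i, ∑ j, ∑ s ∈ (A i j).support, A i j s • elem s i j

theorem clm_sum_apply {ι : Type*} (s : Finset ι) (T : ι → EE G J →L[ℂ] EE G I) (f : EE G J)
    (x : G × I) : (∑ i ∈ s, T i) f x = ∑ i ∈ s, T i f x := by
  rw [sum_apply, sum_apply_EE]

theorem opM_apply (A : I → J → (G →₀ ℂ)) (f : EE G J) (x : G × I) :
    opM A f x = ∑ j, ∑ s ∈ (A x.2 j).support, A x.2 j s * f (s⁻¹ * x.1, j) := by
  unfold opM
  rw [clm_sum_apply, Finset.sum_eq_single x.2]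
  · rw [clm_sum_apply]
    refine Finset.sum_congr rfl fun j _ => ?_
    rw [clm_sum_apply]
    refine Finset.sum_congr rfl fun s _ => ?_
    change A x.2 j s * (elem s x.2 j f) x = _
    rw [elem_apply, if_pos rfl]
  · intro i _ hi
    rw [clm_sum_apply]
    refine Finset.sum_eq_zero fun j _ => ?_
    rw [clm_sum_apply]
    refine Finset.sum_eq_zero fun s _ => ?_
    change A i j s * (elem s i j f) x = 0
    rw [elem_apply, if_neg (Ne.symm hi), mul_zero]
  · intro h; exact absurd (Finset.mem_univ _) h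

theorem opM_eqv (A : I → J → (G →₀ ℂ)) : Eqv (opM A) := by
  intro k f
  ext x
  rw [opM_apply, tr_apply, opM_apply]
  refine Finset.sum_congr rfl fun j _ => Finset.sum_congr rfl fun s _ => ?_
  rw [tr_apply]
  change A x.2 j s * f (s⁻¹ * x.1 * k, j) = A x.2 j s * f (s⁻¹ * (x.1 * k), j)
  rw [mul_assoc]

variable (K : Subgroup G) (F : Finset (G ⧸ K)) (r : G ⧸ K → G) [DecidableEq (G ⧸ K)]

/-- the images of the cosets in `F` -/
def imF (S : Finset G) : Finset (G ⧸ K) := (S ×ˢ F).image fun p => p.1 • p.2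

theorem mem_imF {S : Finset G} {s : G} {x : G ⧸ K} (hs : s ∈ S) (hx : x ∈ F) :
    s • x ∈ imF K F S :=
  Finset.mem_image.2 ⟨(s, x), Finset.mem_product.2 ⟨hs, hx⟩, rfl⟩

/-- the boundary -/
def bd (S : Finset G) : Finset (imF K F S) :=
  Finset.univ.filter fun y => ∃ s ∈ S, s⁻¹ • (y : G ⧸ K) ∉ F

theorem opM_zero (A : I → J → (G →₀ ℂ)) (S : Finset G) (hS : ∀ i j, (A i j).support ⊆ S)
    (f : EE G J) (hf : ∀ x : G × J, (x.1 : G ⧸ K) ∉ F → f x = 0) (x : G × I)
    (hx : (x.1 : G ⧸ K) ∉ imF K F S) : opM A f x = 0 := by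
  rw [opM_apply]
  refine Finset.sum_eq_zero fun j _ => Finset.sum_eq_zero fun s hs => ?_
  rw [hf, mul_zero]
  intro h
  apply hx
  have h3 := mem_imF K F (hS _ _ hs) h
  have h4 : s • ((s⁻¹ * x.1 : G) : G ⧸ K) = (x.1 : G ⧸ K) := by
    change ((s * (s⁻¹ * x.1) : G) : G ⧸ K) = _
    rw [mul_inv_cancel_left]
  change s • ((s⁻¹ * x.1 : G) : G ⧸ K) ∈ imF K F S at h3
  rwa [h4] at h3

/-- the operator restricted to the functions on the cosets in `F` -/
noncomputable def TT (hr : ∀ x, (r x : G ⧸ K) = x) (A : I → J → (G →₀ ℂ)) (F' : Finset (G ⧸ K)) :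
    EE K (F × J) →L[ℂ] EE K (F' × I) :=
  (Rf K F' r hr).comp ((opM A).comp (exF K F r hr))

theorem TT_apply (hr : ∀ x, (r x : G ⧸ K) = x) (A : I → J → (G →₀ ℂ)) (F' : Finset (G ⧸ K))
    (v : EE K (F × J)) : TT K F r hr A F' v = Rf K F' r hr (opM A (exF K F r hr v)) := rfl

theorem TT_eqv (hr : ∀ x, (r x : G ⧸ K) = x) (A : I → J → (G →₀ ℂ)) (F' : Finset (G ⧸ K)) :
    Eqv (TT K F r hr A F') := by
  intro k f
  rw [TT_apply, TT_apply, exF_tr, opM_eqv, Rf_tr]

/-- **Lower bound.** -/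
theorem lower (hr : ∀ x, (r x : G ⧸ K) = x) (A : I → J → (G →₀ ℂ)) (S : Finset G)
    (hS : ∀ i j, (A i j).support ⊆ S) (H N : Submodule ℂ (EE G J))
    (hHc : IsClosed (H : Set (EE G J))) (hHi : W649.ZL.Inv H) (hHk : ∀ f ∈ H, opM A f = 0)
    (hNc : IsClosed (N : Set (EE G J))) (hNk : ∀ f ∈ N, opM A f = 0)
    (hNH : ∀ f ∈ N, ∀ h ∈ H, ⟪f, h⟫_ℂ = 0) :
    F.card * vd H - (Fintype.card I : ℝ) * (bd K F S).card
      ≤ vd (pb K F r hr (LinearMap.ker (opM A : EE G J →ₗ[ℂ] EE G I))) - vd (pb K F r hr N) := by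
  set R : EE G J →L[ℂ] EE K (F × J) := Rf K F r hr with hR
  let W : Submodule ℂ (EE K (F × J)) := H.map (R : EE G J →ₗ[ℂ] EE K (F × J))
  let U := W.topologicalClosure
  have hUc : IsClosed (U : Set (EE K (F × J))) := W.isClosed_topologicalClosure
  have hWi : W649.ZL.Inv W := by
    rintro k _ ⟨f, hf, rfl⟩
    exact ⟨tr (k : G) f, hHi k f hf, Rf_tr K F r hr k f⟩
  have hUi : W649.ZL.Inv U := hWi.topologicalClosure
  have h1 : F.card * vd H ≤ vd U := vd_Rf_ge K F r hr H hHc hHi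
  set T := TT K F r hr A (imF K F S) with hT
  have h2 := rank_nullity T (TT_eqv K F r hr A _) hUi hUc
  set V := pb K F r hr (LinearMap.ker (opM A : EE G J →ₗ[ℂ] EE G I)) with hV
  have hkc : IsClosed (LinearMap.ker (opM A : EE G J →ₗ[ℂ] EE G I) : Set (EE G J)) :=
    (opM A).isClosed_ker
  have hVc : IsClosed (V : Set (EE K (F × J))) := pb_closed K F r hr _ hkc
  have hPc : IsClosed (pb K F r hr N : Set (EE K (F × J))) := pb_closed K F r hr N hNc
  have hPV : pb K F r hr N ≤ V := pb_mono K F r hr fun f hf => hNk f hf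
  have h3 := vd_sub hPc hVc hPV
  -- the first part
  have h4 : vd (U ⊓ LinearMap.ker (T : EE K (F × J) →ₗ[ℂ] EE K (imF K F S × I)))
      ≤ vd (V ⊓ (pb K F r hr N)ᗮ) := by
    apply vd_mono
    rintro v ⟨hvU, hvT⟩
    refine ⟨?_, ?_⟩
    · change opM A (exF K F r hr v) = 0
      have hv0 : Rf K (imF K F S) r hr (opM A (exF K F r hr v)) = 0 := hvT
      have hsupp := opM_zero K F A S hS (exF K F r hr v) (fun x hx => exF_zero K F r hr v x hx)
      rw [← exF_Rf K (imF K F S) r hr _ hsupp, hv0, map_zero]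
    · have hsub : (W : Set (EE K (F × J))) ⊆ ((pb K F r hr N)ᗮ : Submodule ℂ (EE K (F × J))) := by
        rintro _ ⟨h, hh, rfl⟩
        rw [SetLike.mem_coe, Submodule.mem_orthogonal]
        intro n hn
        change ⟪n, Rf K F r hr h⟫_ℂ = 0
        rw [← inner_exF]
        exact hNH _ hn h hh
      have hcl := closure_minimal hsub (Submodule.isClosed_orthogonal (pb K F r hr N))
      apply hcl
      rw [← Submodule.topologicalClosure_coe]
      exact hvU
  -- the second part
  have h5 : vd (U.map (T : EE K (F × J) →ₗ[ℂ] EE K (imF K F S × I)))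
      ≤ (Fintype.card I : ℝ) * (bd K F S).card := by
    have e : vd (cosub K (bd K F S ×ˢ (Finset.univ : Finset I)))
        = (Fintype.card I : ℝ) * (bd K F S).card := by
      rw [vd_cosub, Finset.card_product, Finset.card_univ]
      push_cast
      ring
    rw [← e]
    apply vd_mono
    rintro _ ⟨f, hf, rfl⟩
    have hcl : IsClosed {f : EE K (F × J) |
        T f ∈ cosub K (bd K F S ×ˢ (Finset.univ : Finset I))} :=
      (cosub_closed (G := K) (bd K F S ×ˢ (Finset.univ : Finset I))).preimage T.continuous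
    have hsub : closure (W : Set (EE K (F × J)))
        ⊆ {f : EE K (F × J) | T f ∈ cosub K (bd K F S ×ˢ (Finset.univ : Finset I))} := by
      refine closure_minimal ?_ hcl
      rintro _ ⟨h, hh, rfl⟩
      rintro k ⟨y, i⟩ hy
      change Rf K (imF K F S) r hr (opM A (exF K F r hr (Rf K F r hr h))) (k, (y, i)) = 0
      rw [Rf_apply, opM_apply]
      have h6 : ∀ s ∈ S, s⁻¹ • (y : G ⧸ K) ∈ F := by
        intro s hs
        by_contra hcon
        exact hy (Finset.mem_product.2 ⟨Finset.mem_filter.2 ⟨Finset.mem_univ _, s, hs, hcon⟩,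
          Finset.mem_univ _⟩)
      have h7 := congrArg (fun g : EE G I => g (pt K (imF K F S) r (k, (y, i)))) (hHk h hh)
      change opM A h (pt K (imF K F S) r (k, (y, i))) = 0 at h7
      rw [opM_apply] at h7
      rw [← h7]
      refine Finset.sum_congr rfl fun j _ => Finset.sum_congr rfl fun s hs => ?_
      congr 1
      apply exF_Rf_apply
      have h8 := h6 s (hS _ _ hs)
      have h9 : ((s⁻¹ * (pt K (imF K F S) r (k, (y, i)) : G × I).1 : G) : G ⧸ K)
          = s⁻¹ • (y : G ⧸ K) := by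
        change s⁻¹ • (((pt K (imF K F S) r (k, (y, i)) : G × I).1 : G) : G ⧸ K) = _
        rw [coe_pt K (imF K F S) r hr]
      change ((s⁻¹ * (pt K (imF K F S) r (k, (y, i)) : G × I).1 : G) : G ⧸ K) ∈ F
      rw [h9]
      exact h8
    have hf' : f ∈ closure (W : Set (EE K (F × J))) := by
      rw [← Submodule.topologicalClosure_coe]; exact hf
    exact hsub hf'
  linarith

end

section
variable {G : Type u} [Group G] {I : Type v} {J : Type w} {P : Type z} [Fintype I] [Fintype J]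
  [Fintype P] [DecidableEq I] [DecidableEq J]
variable (K : Subgroup G) (F : Finset (G ⧸ K)) (r : G ⧸ K → G) [DecidableEq (G ⧸ K)]

/-- harmonic chains -/
noncomputable def harm (A : I → J → (G →₀ ℂ)) (B : J → P → (G →₀ ℂ)) : Submodule ℂ (EE G J) :=
  LinearMap.ker (opM A : EE G J →ₗ[ℂ] EE G I) ⊓
    (LinearMap.range (opM B : EE G P →ₗ[ℂ] EE G J))ᗮ

theorem harm_closed (A : I → J → (G →₀ ℂ)) (B : J → P → (G →₀ ℂ)) :
    IsClosed (harm A B : Set (EE G J)) := by
  unfold harm
  rw [Submodule.coe_inf]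
  exact (opM A).isClosed_ker.inter (Submodule.isClosed_orthogonal _)

theorem harm_inv (A : I → J → (G →₀ ℂ)) (B : J → P → (G →₀ ℂ)) : W649.ZL.Inv (harm A B) := by
  apply inv_inf (inv_ker (opM A) (opM_eqv A))
  intro k f hf
  rw [Submodule.mem_orthogonal] at hf ⊢
  rintro _ ⟨h, rfl⟩
  change ⟪opM B h, tr k f⟫_ℂ = 0
  have e : opM B h = tr k (opM B (tr k⁻¹ h)) := by
    rw [← opM_eqv, tr_tr, mul_inv_cancel, tr_one]
  rw [e, inner_tr]
  exact hf _ ⟨_, rfl⟩

theorem vd_harm (A : I → J → (G →₀ ℂ)) (B : J → P → (G →₀ ℂ))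
    (hAB : ∀ f : EE G P, opM A (opM B f) = 0) :
    vd (harm A B) = vd (LinearMap.ker (opM A : EE G J →ₗ[ℂ] EE G I))
      - vd (LinearMap.range (opM B : EE G P →ₗ[ℂ] EE G J)) := by
  have hkc : IsClosed (LinearMap.ker (opM A : EE G J →ₗ[ℂ] EE G I) : Set (EE G J)) :=
    (opM A).isClosed_ker
  have hle : LinearMap.range (opM B : EE G P →ₗ[ℂ] EE G J)
      ≤ LinearMap.ker (opM A : EE G J →ₗ[ℂ] EE G I) := by
    rintro _ ⟨h, rfl⟩
    exact hAB h
  have hle2 : (LinearMap.range (opM B : EE G P →ₗ[ℂ] EE G J)).topologicalClosure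
      ≤ LinearMap.ker (opM A : EE G J →ₗ[ℂ] EE G I) :=
    Submodule.topologicalClosure_minimal _ hle hkc
  have h := vd_sub (Submodule.isClosed_topologicalClosure _) hkc hle2
  rw [Submodule.orthogonal_closure, vd_closure] at h
  exact h

/-- the inner part of `F` -/
def inn (S : Finset G) : Finset (G ⧸ K) := F.filter fun x => ∀ s ∈ S, s • x ∈ F

theorem inn_sub (S : Finset G) : inn K F S ⊆ F := Finset.filter_subset _ _

theorem imF_inn (S : Finset G) : imF K (inn K F S) S ⊆ F := by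
  intro y hy
  obtain ⟨⟨s, x⟩, h3, rfl⟩ := Finset.mem_image.1 hy
  obtain ⟨hs, hx⟩ := Finset.mem_product.1 h3
  exact (Finset.mem_filter.1 hx).2 s hs

/-- **Upper bound.** -/
theorem upper (hr : ∀ x, (r x : G ⧸ K) = x) (A : I → J → (G →₀ ℂ)) (B : J → P → (G →₀ ℂ))
    (hAB : ∀ f : EE G P, opM A (opM B f) = 0) (S : Finset G)
    (hS : ∀ j p, (B j p).support ⊆ S) (N : Submodule ℂ (EE G J))
    (hN : ∀ f : EE G P, (∀ x : G × P, (x.1 : G ⧸ K) ∉ inn K F S → f x = 0) → opM B f ∈ N) :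
    vd (pb K F r hr (LinearMap.ker (opM A : EE G J →ₗ[ℂ] EE G I))) - vd (pb K F r hr N)
      ≤ F.card * vd (harm A B) + (Fintype.card J : ℝ) * (F.card - (inn K F S).card) := by
  have hkc : IsClosed (LinearMap.ker (opM A : EE G J →ₗ[ℂ] EE G I) : Set (EE G J)) :=
    (opM A).isClosed_ker
  have h1 := vd_pb_le K F r hr (LinearMap.ker (opM A : EE G J →ₗ[ℂ] EE G I)) hkc
    (inv_ker (opM A) (opM_eqv A))
  set F0 := inn K F S with hF0
  have hsub : F0 ⊆ F := inn_sub K F S
  have himF : imF K F0 S ⊆ F := imF_inn K F S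
  set T := TT K F0 r hr B F with hT
  have hTop : ∀ v : EE K (F0 × P), exF K F r hr (T v) = opM B (exF K F0 r hr v) := by
    intro v
    apply exF_Rf
    intro x hx
    exact opM_zero K F0 B S hS _ (fun x hx => exF_zero K F0 r hr v x hx) x
      (fun h => hx (himF h))
  have h2 := ker_add_range T (TT_eqv K F0 r hr B F)
  have h3 : vd (LinearMap.range (T : EE K (F0 × P) →ₗ[ℂ] EE K (F × J))) ≤ vd (pb K F r hr N) := by
    apply vd_mono
    rintro _ ⟨v, rfl⟩
    change exF K F r hr (T v) ∈ N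
    rw [hTop]
    exact hN _ fun x hx => exF_zero K F0 r hr v x hx
  have h4 : vd (LinearMap.ker (T : EE K (F0 × P) →ₗ[ℂ] EE K (F × J)))
      ≤ F0.card * vd (LinearMap.ker (opM B : EE G P →ₗ[ℂ] EE G J)) := by
    refine le_trans ?_ (vd_pb_le K F0 r hr _ (opM B).isClosed_ker (inv_ker (opM B) (opM_eqv B)))
    apply vd_mono
    intro v hv
    change opM B (exF K F0 r hr v) = 0
    have hv0 : T v = 0 := hv
    rw [← hTop, hv0, map_zero]
  have h5 := ker_add_range (opM B) (opM_eqv B)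
  have h6 := vd_harm A B hAB
  have h7 : vd (LinearMap.range (opM B : EE G P →ₗ[ℂ] EE G J)) ≤ Fintype.card J := vd_le_card _
  have h8 : (F0.card : ℝ) ≤ F.card := by exact_mod_cast Finset.card_le_card hsub
  rw [Fintype.card_prod, Fintype.card_coe] at h2
  push_cast at h2
  nlinarith

end

end Pool.Agent.Q91.LB
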