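import Pool.Agent.Q91.LB.Defs
import Pool.Agent.Q91.LB.Op
import Pool.Agent.Q91.LB.Fol

set_option autoImplicit false
set_option linter.unusedSectionVars false

/-! L²-Betti numbers of finite complexes and of their coverings. -/

open scoped InnerProductSpace ENNReal

universe u

namespace Pool.Agent.Q91.LB.Bet

open Pool.Agent.Q91.LB

section
variable {G : Type u} [Group G] {m n p : ℕ}

theorem delta_eq (x : G × Fin n) : delta x = W649.ZL.dl x := by
  classical
  ext y
  unfold delta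
  by_cases hy : y = x
  · subst hy
    rw [W649.ZL.dl_apply_self]
    exact lp.single_apply_self (E := fun _ : G × Fin n => ℂ) 2 y 1
  · rw [W649.ZL.dl_apply_ne _ _ hy]
    exact lp.single_apply_ne (E := fun _ : G × Fin n => ℂ) 2 x 1 hy

theorem app_eq (A : Fin m → Fin n → (G →₀ ℂ)) (f : Chain G n) (x : G × Fin m) :
    app A (vals f) x = opM A f x := (opM_apply A f x).symm

theorem dot_eq (f g : Chain G n) : dot (vals f) (vals g) = ⟪f, g⟫_ℂ := by
  rw [lp.inner_eq_tsum]
  rfl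

theorem cycles_eq (A : Fin m → Fin n → (G →₀ ℂ)) :
    cycles A = (LinearMap.ker (opM A : W649.ZL.EE G (Fin n) →ₗ[ℂ] W649.ZL.EE G (Fin m)) :
      Set (W649.ZL.EE G (Fin n))) := by
  ext f
  constructor
  · intro h
    change opM A f = 0
    ext x
    rw [← app_eq]
    exact congrFun h x
  · intro h
    have h' : opM A f = 0 := h
    change app A (vals f) = 0
    funext x
    rw [app_eq, h']
    rfl

theorem boundaries_eq (B : Fin n → Fin p → (G →₀ ℂ)) (D : Set G) :
    boundaries B D = {b | ∃ h : Chain G p, (∀ x : G × Fin p, x.1 ∉ D → h x = 0) ∧ b = opM B h} := by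
  ext b
  constructor
  · rintro ⟨h, h1, h2⟩
    refine ⟨h, h1, ?_⟩
    ext x
    have h3 := congrFun h2 x
    rw [app_eq] at h3
    exact h3
  · rintro ⟨h, h1, rfl⟩
    exact ⟨h, h1, funext fun x => (app_eq B h x).symm⟩

theorem harmonic_eq (A : Fin m → Fin n → (G →₀ ℂ)) (B : Fin n → Fin p → (G →₀ ℂ)) :
    harmonic A B = (harm A B : Set (W649.ZL.EE G (Fin n))) := by
  ext f
  unfold harmonic
  rw [cycles_eq, boundaries_eq]
  constructor
  · rintro ⟨h1, h2⟩
    refine ⟨h1, ?_⟩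
    rw [SetLike.mem_coe, Submodule.mem_orthogonal]
    rintro _ ⟨h, rfl⟩
    have h3 := h2 (opM B h) ⟨h, fun x hx => absurd (Set.mem_univ _) hx, rfl⟩
    rw [dot_eq] at h3
    exact h3
  · rintro ⟨h1, h2⟩
    refine ⟨h1, ?_⟩
    rintro _ ⟨h, _, rfl⟩
    rw [SetLike.mem_coe, Submodule.mem_orthogonal] at h2
    rw [dot_eq]
    exact h2 _ ⟨h, rfl⟩

theorem betti_eq (A : Fin m → Fin n → (G →₀ ℂ)) (B : Fin n → Fin p → (G →₀ ℂ)) :
    betti A B = W649.ZL.vd (harm A B) := by
  rw [W649.ZL.vd_eq_infDist _ (harm_closed A B)]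
  unfold betti
  rw [harmonic_eq]
  simp only [delta_eq]

variable (K : Subgroup G)

/-- the submodule of cycles supported on `F` -/
noncomputable def ZF (A : Fin m → Fin n → (G →₀ ℂ)) (F : Finset (G ⧸ K)) :
    Submodule ℂ (W649.ZL.EE G (Fin n)) where
  carrier := cyclesOn K A F
  add_mem' := by
    rintro f g ⟨hf, hf'⟩ ⟨hg, hg'⟩
    rw [cycles_eq] at hf hg
    refine ⟨?_, fun x hx => ?_⟩
    · rw [cycles_eq]; exact Submodule.add_mem _ hf hg
    · have h1 : f x = 0 := hf' x hx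
      have h2 : g x = 0 := hg' x hx
      change f x + g x = 0
      rw [h1, h2, add_zero]
  zero_mem' := by
    refine ⟨?_, fun x _ => rfl⟩
    rw [cycles_eq]; exact Submodule.zero_mem _
  smul_mem' := by
    rintro c f ⟨hf, hf'⟩
    rw [cycles_eq] at hf
    refine ⟨?_, fun x hx => ?_⟩
    · rw [cycles_eq]; exact Submodule.smul_mem _ c hf
    · have h1 : f x = 0 := hf' x hx
      change c * f x = 0
      rw [h1, mul_zero]

theorem ZF_closed (A : Fin m → Fin n → (G →₀ ℂ)) (F : Finset (G ⧸ K)) :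
    IsClosed (ZF K A F : Set (W649.ZL.EE G (Fin n))) := by
  change IsClosed (cyclesOn K A F)
  have h1 : cyclesOn K A F = (LinearMap.ker (opM A : W649.ZL.EE G (Fin n) →ₗ[ℂ]
      W649.ZL.EE G (Fin m)) : Set (W649.ZL.EE G (Fin n))) ∩
      ⋂ (x : G × Fin n) (_ : x.1 ∉ cosetsIn K F), {f : W649.ZL.EE G (Fin n) | f x = 0} := by
    ext f
    unfold cyclesOn
    rw [cycles_eq]
    simp only [Set.mem_setOf_eq, Set.mem_inter_iff, Set.mem_iInter]
    rfl
  rw [h1]
  refine (opM A).isClosed_ker.inter ?_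
  exact isClosed_iInter fun x => isClosed_iInter fun _ => W649.ZL.apply_isClosed x

/-- the submodule of boundaries of chains supported on `F'` -/
noncomputable def BF (B : Fin n → Fin p → (G →₀ ℂ)) (F : Finset (G ⧸ K)) :
    Submodule ℂ (W649.ZL.EE G (Fin n)) where
  carrier := boundaries B (cosetsIn K F)
  add_mem' := by
    intro f g hf hg
    rw [boundaries_eq] at hf hg ⊢
    obtain ⟨h, h1, rfl⟩ := hf
    obtain ⟨h', h1', rfl⟩ := hg
    refine ⟨h + h', fun x hx => ?_, by rw [map_add]⟩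
    change h x + h' x = 0
    rw [h1 x hx, h1' x hx, add_zero]
  zero_mem' := by
    rw [boundaries_eq]
    exact ⟨0, fun x _ => rfl, by rw [map_zero]⟩
  smul_mem' := by
    intro c f hf
    rw [boundaries_eq] at hf ⊢
    obtain ⟨h, h1, rfl⟩ := hf
    refine ⟨c • h, fun x hx => ?_, by rw [map_smul]⟩
    change c * h x = 0
    rw [h1 x hx, mul_zero]

/-- the submodule of null cycles -/
noncomputable def NF (A : Fin m → Fin n → (G →₀ ℂ)) (B : Fin n → Fin p → (G →₀ ℂ))
    (F F' : Finset (G ⧸ K)) : Submodule ℂ (W649.ZL.EE G (Fin n)) :=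
  ZF K A F ⊓ (BF K B F').topologicalClosure

theorem NF_coe (A : Fin m → Fin n → (G →₀ ℂ)) (B : Fin n → Fin p → (G →₀ ℂ))
    (F F' : Finset (G ⧸ K)) :
    (NF K A B F F' : Set (W649.ZL.EE G (Fin n))) = nullOn K A B F F' := rfl

theorem NF_closed (A : Fin m → Fin n → (G →₀ ℂ)) (B : Fin n → Fin p → (G →₀ ℂ))
    (F F' : Finset (G ⧸ K)) : IsClosed (NF K A B F F' : Set (W649.ZL.EE G (Fin n))) :=
  (ZF_closed K A F).inter (Submodule.isClosed_topologicalClosure _)

variable [DecidableEq (G ⧸ K)]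

theorem dimK_cycles (r : G ⧸ K → G) (hr : ∀ x, (r x : G ⧸ K) = x) (A : Fin m → Fin n → (G →₀ ℂ))
    (F : Finset (G ⧸ K)) : dimK K r F (cyclesOn K A F)
      = W649.ZL.vd (pb K F r hr (LinearMap.ker (opM A : W649.ZL.EE G (Fin n) →ₗ[ℂ]
        W649.ZL.EE G (Fin m)))) := by
  have h1 : pb K F r hr (LinearMap.ker (opM A : W649.ZL.EE G (Fin n) →ₗ[ℂ]
        W649.ZL.EE G (Fin m))) = pb K F r hr (ZF K A F) := by
    ext v
    rw [mem_pb, mem_pb]
    constructor
    · intro h
      refine ⟨?_, fun x hx => exF_zero K F r hr v x hx⟩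
      rw [cycles_eq]; exact h
    · rintro ⟨h, _⟩
      rw [cycles_eq] at h; exact h
  rw [h1, vd_pb K F r hr _ (ZF_closed K A F) (fun f hf => hf.2)]
  unfold dimK
  simp only [delta_eq]
  rfl

theorem dimK_null (r : G ⧸ K → G) (hr : ∀ x, (r x : G ⧸ K) = x) (A : Fin m → Fin n → (G →₀ ℂ))
    (B : Fin n → Fin p → (G →₀ ℂ)) (F F' : Finset (G ⧸ K)) : dimK K r F (nullOn K A B F F')
      = W649.ZL.vd (pb K F r hr (NF K A B F F')) := by
  rw [vd_pb K F r hr _ (NF_closed K A B F F') (fun f hf => hf.1.2)]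
  unfold dimK
  simp only [delta_eq]
  rfl

open Classical in
/-- the union of the supports -/
noncomputable def suppM (A : Fin m → Fin n → (G →₀ ℂ)) : Finset G :=
  Finset.univ.biUnion fun i => Finset.univ.biUnion fun j => (A i j).support

theorem mem_suppM (A : Fin m → Fin n → (G →₀ ℂ)) (s : G) :
    s ∈ suppM A ↔ s ∈ supp A := by
  unfold suppM supp
  simp

theorem sub_suppM (A : Fin m → Fin n → (G →₀ ℂ)) (i : Fin m) (j : Fin n) :
    (A i j).support ⊆ suppM A :=
  fun s hs => (mem_suppM A s).2 ⟨i, j, Finsupp.mem_support_iff.1 hs⟩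

theorem outer_eq (A : Fin m → Fin n → (G →₀ ℂ)) (F : Finset (G ⧸ K)) :
    (outer K A F).ncard = (bd K F (suppM A)).card := by
  have h1 : outer K A F = Subtype.val '' (bd K F (suppM A) : Set (imF K F (suppM A))) := by
    ext y
    constructor
    · rintro ⟨⟨s, hs, hsF⟩, s', hs', hsF'⟩
      have h3 := mem_imF K F ((mem_suppM A s).2 hs) hsF
      unfold move at h3
      rw [smul_inv_smul] at h3
      exact ⟨⟨y, h3⟩, Finset.mem_coe.2 (Finset.mem_filter.2 ⟨Finset.mem_univ _, s',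
        (mem_suppM A s').2 hs', hsF'⟩), rfl⟩
    · rintro ⟨⟨y, hy⟩, h2, rfl⟩
      obtain ⟨s', hs', hsF'⟩ := (Finset.mem_filter.1 (Finset.mem_coe.1 h2)).2
      obtain ⟨⟨s, x⟩, h3, h4⟩ := Finset.mem_image.1 hy
      obtain ⟨hs, hx⟩ := Finset.mem_product.1 h3
      refine ⟨⟨s, (mem_suppM A s).1 hs, ?_⟩, s', (mem_suppM A s').1 hs', hsF'⟩
      change s⁻¹ • y ∈ F
      rw [← h4, inv_smul_smul]
      exact hx
  rw [h1, Set.ncard_image_of_injective _ Subtype.val_injective, Set.ncard_coe_finset]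

theorem inner_eq (B : Fin n → Fin p → (G →₀ ℂ)) (F : Finset (G ⧸ K)) :
    ((inner' K B F).ncard : ℝ) = F.card - (inn K F (suppM B)).card := by
  have h1 : inner' K B F = ((F \ inn K F (suppM B) : Finset (G ⧸ K)) : Set (G ⧸ K)) := by
    ext x
    rw [Finset.mem_coe, Finset.mem_sdiff]
    unfold inn
    rw [Finset.mem_filter]
    constructor
    · rintro ⟨hx, s, hs, hsx⟩
      exact ⟨hx, fun h => hsx (h.2 s ((mem_suppM B s).2 hs))⟩
    · rintro ⟨hx, h⟩
      have h2 : ¬ ∀ s ∈ suppM B, s • x ∈ F := fun h3 => h ⟨hx, h3⟩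
      push Not at h2
      obtain ⟨s, hs, hsx⟩ := h2
      exact ⟨hx, s, (mem_suppM B s).1 hs, hsx⟩
  have hsub : inn K F (suppM B) ⊆ F := Finset.filter_subset _ _
  rw [h1, Set.ncard_coe_finset, Finset.card_sdiff_of_subset hsub,
    Nat.cast_sub (Finset.card_le_card hsub)]

theorem lower_bound (r : G ⧸ K → G) (hr : ∀ x, (r x : G ⧸ K) = x) (A : Fin m → Fin n → (G →₀ ℂ))
    (B : Fin n → Fin p → (G →₀ ℂ)) (F F' : Finset (G ⧸ K)) :
    F.card * betti A B - m * (outer K A F).ncard ≤ imageDim K r A B F F' := by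
  unfold imageDim
  rw [dimK_cycles K r hr, dimK_null K r hr, betti_eq, outer_eq]
  have h := lower K F r hr A (suppM A) (sub_suppM A) (harm A B) (NF K A B F F')
    (harm_closed A B) (harm_inv A B) (fun f hf => hf.1) (NF_closed K A B F F') ?_ ?_
  · rw [Fintype.card_fin] at h
    exact h
  · rintro f ⟨⟨h1, _⟩, _⟩
    rw [cycles_eq] at h1
    exact h1
  · rintro f ⟨_, hf⟩ h hh
    have hcl : IsClosed {g : W649.ZL.EE G (Fin n) | ⟪g, h⟫_ℂ = 0} :=
      isClosed_eq (continuous_id.inner continuous_const) continuous_const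
    have hsub : (BF K B F' : Set (W649.ZL.EE G (Fin n))) ⊆ {g | ⟪g, h⟫_ℂ = 0} := by
      intro g hg
      change g ∈ boundaries B (cosetsIn K F') at hg
      rw [boundaries_eq] at hg
      obtain ⟨c, _, rfl⟩ := hg
      have h2 := hh.2
      rw [SetLike.mem_coe, Submodule.mem_orthogonal] at h2
      exact h2 _ ⟨c, rfl⟩
    exact closure_minimal hsub hcl hf

theorem upper_bound (r : G ⧸ K → G) (hr : ∀ x, (r x : G ⧸ K) = x) (A : Fin m → Fin n → (G →₀ ℂ))
    (B : Fin n → Fin p → (G →₀ ℂ)) (hAB : ∀ h : G × Fin p → ℂ, app A (app B h) = 0)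
    (F F' : Finset (G ⧸ K)) (hF : F ⊆ F') :
    imageDim K r A B F F' ≤ F.card * betti A B + n * (inner' K B F).ncard := by
  unfold imageDim
  rw [dimK_cycles K r hr, dimK_null K r hr, betti_eq, inner_eq]
  have hAB' : ∀ f : W649.ZL.EE G (Fin p), opM A (opM B f) = 0 := by
    intro f
    ext x
    have h1 : vals (opM B f) = app B (vals f) := by
      funext y
      exact (app_eq B f y).symm
    rw [← app_eq, h1, hAB]
    rfl
  have h := upper K F r hr A B hAB' (suppM B) (sub_suppM B) (NF K A B F F') ?_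
  · rw [Fintype.card_fin] at h
    exact h
  · intro f hf
    refine ⟨⟨?_, ?_⟩, ?_⟩
    · rw [cycles_eq]
      exact hAB' f
    · intro x hx
      exact opM_zero K _ B (suppM B) (sub_suppM B) f hf x (fun h => hx (imF_inn K F _ h))
    · apply subset_closure
      change opM B f ∈ boundaries B (cosetsIn K F')
      rw [boundaries_eq]
      exact ⟨f, fun x hx => hf x (fun h => hx (hF (inn_sub K F _ h))), rfl⟩

omit [DecidableEq (G ⧸ K)] in
theorem outer_small (A : Fin m → Fin n → (G →₀ ℂ)) : ∃ S : Finset G, ∀ (δ : ℝ)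
    (F : Finset (G ⧸ K)), Folner K S δ F →
      ((outer K A F).ncard : ℝ) ≤ (suppM A).card * (δ * F.card) := by
  classical
  refine ⟨(suppM A ×ˢ suppM A).image fun p => p.1⁻¹ * p.2, fun δ F hF => ?_⟩
  set S1 : Finset G := (suppM A ×ˢ suppM A).image fun p => p.1⁻¹ * p.2 with hS1
  set Q : Finset (G ⧸ K) := F.filter fun x => ∃ s ∈ S1, s • x ∉ F with hQ
  have hQn : ({x | x ∈ F ∧ ∃ s ∈ S1, s • x ∉ F} : Set (G ⧸ K)).ncard = Q.card := by
    rw [← Set.ncard_coe_finset]
    congr 1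
    ext x
    rw [Finset.mem_coe, hQ, Finset.mem_filter]
    rfl
  have hb : (({x | x ∈ F ∧ ∃ s ∈ S1, s • x ∉ F} : Set (G ⧸ K)).ncard : ℝ) ≤ δ * F.card := hF.2
  rw [hQn] at hb
  have h1 : outer K A F ⊆ ((suppM A ×ˢ Q).image fun p => p.1 • p.2 : Finset (G ⧸ K)) := by
    rintro y ⟨⟨s, hs, hsF⟩, s', hs', hsF'⟩
    rw [Finset.mem_coe, Finset.mem_image]
    refine ⟨(s, s⁻¹ • y), Finset.mem_product.2 ⟨(mem_suppM A s).2 hs, Finset.mem_filter.2 ⟨hsF,
      s'⁻¹ * s, Finset.mem_image.2 ⟨(s', s), Finset.mem_product.2 ⟨(mem_suppM A s').2 hs',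
        (mem_suppM A s).2 hs⟩, rfl⟩, ?_⟩⟩, smul_inv_smul s y⟩
    rw [mul_smul, smul_inv_smul]
    exact hsF'
  have h2 : (outer K A F).ncard ≤ (suppM A).card * Q.card := by
    refine (Set.ncard_le_ncard h1 (Finset.finite_toSet _)).trans ?_
    rw [Set.ncard_coe_finset]
    refine Finset.card_image_le.trans ?_
    rw [Finset.card_product]
  have h3 : ((outer K A F).ncard : ℝ) ≤ (suppM A).card * Q.card := by exact_mod_cast h2
  calc ((outer K A F).ncard : ℝ) ≤ (suppM A).card * Q.card := h3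
    _ ≤ _ := by gcongr

omit [DecidableEq (G ⧸ K)] in
theorem inner_small (B : Fin n → Fin p → (G →₀ ℂ)) (δ : ℝ) (F : Finset (G ⧸ K))
    (h : Folner K (suppM B) δ F) : ((inner' K B F).ncard : ℝ) ≤ δ * F.card := by
  have h1 : inner' K B F = {x | x ∈ F ∧ ∃ s ∈ suppM B, s • x ∉ F} := by
    ext x
    constructor
    · rintro ⟨hx, s, hs, hsx⟩
      exact ⟨hx, s, (mem_suppM B s).2 hs, hsx⟩
    · rintro ⟨hx, s, hs, hsx⟩
      exact ⟨hx, s, (mem_suppM B s).1 hs, hsx⟩
  rw [h1]
  exact h.2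

omit [DecidableEq (G ⧸ K)] in
theorem limit (r : G ⧸ K → G) (hr : ∀ x, (r x : G ⧸ K) = x) (A : Fin m → Fin n → (G →₀ ℂ))
    (B : Fin n → Fin p → (G →₀ ℂ)) (hAB : ∀ h : G × Fin p → ℂ, app A (app B h) = 0)
    (ε : ℝ) (hε : 0 < ε) : ∃ (S : Finset G) (δ : ℝ), 0 < δ ∧ ∀ F, Folner K S δ F →
      ∀ F', F ⊆ F' → |imageDim K r A B F F' / F.card - betti A B| ≤ ε := by
  classical
  obtain ⟨S1, hS1⟩ := outer_small K A
  set c : ℝ := m * (suppM A).card + n + 1 with hc
  have hc0 : 0 < c := by positivity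
  refine ⟨S1 ∪ suppM B, ε / c, by positivity, fun F hF F' hFF' => ?_⟩
  have hF1 : Folner K S1 (ε / c) F := Fol.mono K hF Finset.subset_union_left le_rfl
  have hF2 : Folner K (suppM B) (ε / c) F := Fol.mono K hF Finset.subset_union_right le_rfl
  have h1 := hS1 _ F hF1
  have h2 := inner_small K B _ F hF2
  have h3 := lower_bound K r hr A B F F'
  have h4 := upper_bound K r hr A B hAB F F' hFF'
  have hFc : (0 : ℝ) < F.card := by exact_mod_cast hF.1.card_pos
  have h5 : (m : ℝ) * (outer K A F).ncard ≤ ε * F.card := by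
    calc (m : ℝ) * (outer K A F).ncard ≤ m * ((suppM A).card * (ε / c * F.card)) := by gcongr
      _ = (m * (suppM A).card) / c * (ε * F.card) := by ring
      _ ≤ 1 * (ε * F.card) := by
          gcongr
          rw [div_le_one hc0, hc]
          have : (0 : ℝ) ≤ n := by positivity
          linarith
      _ = _ := one_mul _
  have h6 : (n : ℝ) * (inner' K B F).ncard ≤ ε * F.card := by
    calc (n : ℝ) * (inner' K B F).ncard ≤ n * (ε / c * F.card) := by gcongr
      _ = n / c * (ε * F.card) := by ring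
      _ ≤ 1 * (ε * F.card) := by
          gcongr
          rw [div_le_one hc0, hc]
          have : (0 : ℝ) ≤ m * (suppM A).card := by positivity
          linarith
      _ = _ := one_mul _
  rw [abs_le]
  constructor
  · rw [neg_le_sub_iff_le_add, ← sub_le_iff_le_add, le_div_iff₀ hFc]
    linarith
  · rw [sub_le_iff_le_add, div_le_iff₀ hFc]
    linarith

omit [DecidableEq (G ⧸ K)] in
theorem betti_nonneg (A : Fin m → Fin n → (G →₀ ℂ)) (B : Fin n → Fin p → (G →₀ ℂ)) :
    0 ≤ betti A B := by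
  rw [betti_eq]
  exact W649.ZL.vd_nonneg _

omit [DecidableEq (G ⧸ K)] in
theorem cover_ge (r : G ⧸ K → G) (hr : ∀ x, (r x : G ⧸ K) = x) (A : Fin m → Fin n → (G →₀ ℂ))
    (B : Fin n → Fin p → (G →₀ ℂ)) (F : Finset (G ⧸ K)) :
    ENNReal.ofReal (F.card * betti A B - m * (outer K A F).ncard) ≤ bettiCover K r A B := by
  classical
  unfold bettiCover
  refine le_trans ?_ (le_iSup _ F)
  refine le_iInf fun F' => ?_
  exact ENNReal.ofReal_le_ofReal (lower_bound K r hr A B F F')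

omit [DecidableEq (G ⧸ K)] in
theorem vanish (r : G ⧸ K → G) (hr : ∀ x, (r x : G ⧸ K) = x) (A : Fin m → Fin n → (G →₀ ℂ))
    (B : Fin n → Fin p → (G →₀ ℂ)) (hfin : bettiCover K r A B ≠ ⊤)
    (hK : ∀ (S : Finset G) (δ : ℝ) (ε : ℝ), 0 < δ → 0 < ε → ∃ F : Finset (G ⧸ K), Folner K S δ F ∧
      (bettiCover K r A B).toReal ≤ ε * F.card) : betti A B = 0 := by
  obtain ⟨S1, hS1⟩ := outer_small K A
  apply le_antisymm _ (betti_nonneg A B)
  apply le_of_forall_pos_le_add
  intro ε hε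
  set c : ℝ := m * (suppM A).card + 1 with hc
  have hc0 : 0 < c := by positivity
  obtain ⟨F, hF, hC⟩ := hK S1 (ε / 2 / c) (ε / 2) (by positivity) (by positivity)
  have h1 := hS1 _ F hF
  have h2 := cover_ge K r hr A B F
  have h3 : F.card * betti A B - m * (outer K A F).ncard ≤ (bettiCover K r A B).toReal := by
    exact (ENNReal.ofReal_le_iff_le_toReal hfin).1 h2
  have hFc : (0 : ℝ) < F.card := by exact_mod_cast hF.1.card_pos
  have h5 : (m : ℝ) * (outer K A F).ncard ≤ ε / 2 * F.card := by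
    calc (m : ℝ) * (outer K A F).ncard ≤ m * ((suppM A).card * (ε / 2 / c * F.card)) := by gcongr
      _ = (m * (suppM A).card) / c * (ε / 2 * F.card) := by ring
      _ ≤ 1 * (ε / 2 * F.card) := by
          gcongr
          rw [div_le_one hc0, hc]
          linarith
      _ = _ := one_mul _
  have h6 : F.card * betti A B ≤ F.card * ε := by linarith
  have h7 := le_of_mul_le_mul_left h6 hFc
  linarith

end

end Pool.Agent.Q91.LB.Bet
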