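import Pool.Agent.Q91.LB.Defc
import Pool.Agent.Q91.LB.Op
import Pool.Agent.Q91.TE.Trc

set_option autoImplicit false
set_option linter.unusedSectionVars false

/-! Homotopy domination of a complex over a subgroup. -/

namespace Pool.Agent.Q91.LB

open Pool.Agent.W649.ZL Filter Topology
open Pool.Agent.Q91.TE (toE toE_single toE_apply elem_dl)
open scoped InnerProductSpace InnerProduct ENNReal

universe u v w z

section
variable {G : Type u} [Group G]

/-- two continuous linear maps which agree on the basis vectors are equal -/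
theorem ext_dl {J : Type v} {E : Type*} [NormedAddCommGroup E] [NormedSpace ℂ E]
    (T S : EE G J →L[ℂ] E) (h : ∀ x, T (dl x) = S (dl x)) (f : EE G J) : T f = S f := by
  classical
  have h1 : HasSum (fun x => lp.single 2 x (f x)) f := lp.hasSum_single (by norm_num) f
  have e : ∀ x, (lp.single 2 x (f x) : EE G J) = f x • dl x := by
    intro x
    ext y
    by_cases hy : y = x
    · subst hy
      change (lp.single 2 y (f y) : EE G J) y = f y * (dl y : EE G J) y
      rw [dl_apply_self, mul_one]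
      exact lp.single_apply_self (E := fun _ : G × J => ℂ) 2 y (f y)
    · change (lp.single 2 x (f x) : EE G J) y = f x * (dl x : EE G J) y
      rw [dl_apply_ne _ _ hy, mul_zero]
      exact lp.single_apply_ne (E := fun _ : G × J => ℂ) 2 x (f x) hy
  have h2 := h1.mapL T
  have h3 := h1.mapL S
  have h4 : (fun x => T (lp.single 2 x (f x))) = fun x => S (lp.single 2 x (f x)) := by
    funext x
    rw [e, map_smul, map_smul, h]
  rw [h4] at h2
  exact h2.unique h3

theorem rt_single {J : Type v} (k : G) (x : G × J) (c : ℂ) :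
    rt k (Finsupp.single x c) = Finsupp.single (x.1 * k⁻¹, x.2) c := by
  unfold rt
  rw [Finsupp.lmapDomain_apply, Finsupp.mapDomain_single]

theorem rt_apply {J : Type v} (k : G) (v : FC G J) (x : G × J) :
    rt k v x = v (x.1 * k, x.2) := by
  unfold rt
  rw [Finsupp.lmapDomain_apply]
  have hi : Function.Injective (fun x : G × J => ((x.1 * k⁻¹, x.2) : G × J)) := by
    intro x y h
    have h1 := (Prod.mk.inj h).1
    have h2 := (Prod.mk.inj h).2
    exact Prod.ext (mul_right_cancel h1) h2
  have e : x = (fun x : G × J => ((x.1 * k⁻¹, x.2) : G × J)) (x.1 * k, x.2) := by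
    change x = (x.1 * k * k⁻¹, x.2)
    rw [mul_inv_cancel_right]
  conv_lhs => rw [e]
  rw [Finsupp.mapDomain_apply hi]

theorem rt_mul {J : Type v} (a b : G) (v : FC G J) : rt (a * b) v = rt a (rt b v) := by
  ext x
  rw [rt_apply, rt_apply, rt_apply, mul_assoc]

variable {I : Type v} {J : Type w} {P : Type z} [Fintype I] [Fintype J]
  [Fintype P] [DecidableEq I] [DecidableEq J]

theorem toE_fop (A : I → J → (G →₀ ℂ)) (v : FC G J) : toE (fop A v) = opM A (toE v) := by
  induction v using Finsupp.induction_linear with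
  | zero => simp
  | add f g hf hg => rw [map_add, map_add, map_add, map_add, hf, hg]
  | single x c =>
    unfold fop
    rw [Finsupp.linearCombination_single, map_smul, toE_single, map_smul]
    congr 1
    unfold opM
    rw [map_sum, sum_apply]
    refine Finset.sum_congr rfl fun i _ => ?_
    rw [sum_apply, map_sum, Finset.sum_eq_single x.2]
    · rw [sum_apply]
      refine Finset.sum_congr rfl fun s _ => ?_
      rw [toE_single]
      change _ = A i x.2 s • elem s i x.2 (dl x)
      rw [elem_dl, if_pos rfl]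
    · intro j _ hj
      rw [sum_apply]
      refine Finset.sum_eq_zero fun s _ => ?_
      change A i j s • elem s i j (dl x) = 0
      rw [elem_dl, if_neg (Ne.symm hj), smul_zero]
    · intro h; exact absurd (Finset.mem_univ _) h

/-- the matrix of an equivariant map of finite chains -/
noncomputable def matOf (φ : FC G J →ₗ[ℂ] FC G I) : I → J → (G →₀ ℂ) := fun i j =>
  (φ (Finsupp.single (1, j) 1)).comapDomain (fun k => ((k, i) : G × I))
    (fun _ _ _ _ h => (Prod.mk.inj h).1)

theorem matOf_toE (φ : FC G J →ₗ[ℂ] FC G I) (hφ : ∀ k v, φ (rt k v) = rt k (φ v)) (v : FC G J) :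
    opM (matOf φ) (toE v) = toE (φ v) := by
  induction v using Finsupp.induction_linear with
  | zero => simp
  | add f g hf hg => rw [map_add, map_add, map_add, map_add, hf, hg]
  | single x c =>
    have e1 : (Finsupp.single x c : FC G J) = c • rt x.1⁻¹ (Finsupp.single (1, x.2) 1) := by
      rw [rt_single, inv_inv, one_mul, Finsupp.smul_single, smul_eq_mul, mul_one]
    have e2 : toE (φ (Finsupp.single x c)) = c • toE (rt x.1⁻¹ (φ (Finsupp.single (1, x.2) 1))) := by
      rw [e1, map_smul, map_smul, hφ]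
    rw [e2, toE_single, map_smul]
    congr 1
    ext ⟨y, i⟩
    rw [opM_apply, toE_apply, rt_apply]
    change ∑ j, ∑ s ∈ (matOf φ i j).support, matOf φ i j s * (dl x : EE G J) (s⁻¹ * y, j)
      = φ (Finsupp.single (1, x.2) 1) (y * x.1⁻¹, i)
    rw [Finset.sum_eq_single x.2]
    · have h1 : ∀ s, matOf φ i x.2 s = φ (Finsupp.single (1, x.2) 1) (s, i) := fun s => by
        unfold matOf
        rw [Finsupp.comapDomain_apply]
      by_cases hs : y * x.1⁻¹ ∈ (matOf φ i x.2).support
      · rw [Finset.sum_eq_single (y * x.1⁻¹)]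
        · have h2 : (((y * x.1⁻¹)⁻¹ * y, x.2) : G × J) = x := by
            refine Prod.ext ?_ rfl
            change (y * x.1⁻¹)⁻¹ * y = x.1
            group
          rw [h2, dl_apply_self, mul_one, h1]
        · intro s _ hs
          rw [dl_apply_ne, mul_zero]
          intro h
          apply hs
          have h3 := congrArg Prod.fst h
          change s⁻¹ * y = x.1 at h3
          rw [← h3]
          group
        · intro h; exact absurd hs h
      · rw [← h1, Finsupp.notMem_support_iff.1 hs]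
        refine Finset.sum_eq_zero fun s hs' => ?_
        rw [dl_apply_ne, mul_zero]
        intro h
        apply hs
        have h3 := congrArg Prod.fst h
        change s⁻¹ * y = x.1 at h3
        have h4 : y * x.1⁻¹ = s := by
          rw [← h3]
          group
        rw [h4]
        exact hs'
    · intro j _ hj
      refine Finset.sum_eq_zero fun s _ => ?_
      rw [dl_apply_ne, mul_zero]
      intro h
      exact hj (congrArg Prod.snd h)
    · intro h; exact absurd (Finset.mem_univ _) h

end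


section
variable {G : Type u} [Group G] (K : Subgroup G) (F : Finset (G ⧸ K)) (r : G ⧸ K → G)
variable {J : Type w} [Fintype J] [DecidableEq J] [DecidableEq (G ⧸ K)]

theorem exF_dl' (hr : ∀ x, (r x : G ⧸ K) = x) (p : K × (F × J)) :
    exF K F r hr (dl p) = dl (pt K F r p) := by
  ext y
  by_cases hy : ∃ q, pt K F r q = y
  · obtain ⟨q, rfl⟩ := hy
    rw [exF_pt]
    by_cases hq : q = p
    · subst hq
      rw [dl_apply_self, dl_apply_self]
    · rw [dl_apply_ne _ _ hq, dl_apply_ne]
      exact fun h => hq (pt_injective K F r hr h)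
  · have h1 : (y.1 : G ⧸ K) ∉ F := not_range K F r hr y (fun ⟨q, hq⟩ => hy ⟨q, hq⟩)
    rw [exF_zero K F r hr _ y h1, dl_apply_ne]
    exact fun h => hy ⟨p, h.symm⟩

/-- extension of finite chains -/
noncomputable def extC : FC K (F × J) →ₗ[ℂ] FC G J := Finsupp.lmapDomain ℂ ℂ (pt K F r)

theorem extC_single (x : K × (F × J)) (c : ℂ) :
    extC K F r (Finsupp.single x c) = Finsupp.single (pt K F r x) c := by
  unfold extC
  rw [Finsupp.lmapDomain_apply, Finsupp.mapDomain_single]

theorem toE_extC (hr : ∀ x, (r x : G ⧸ K) = x) (v : FC K (F × J)) :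
    toE (extC K F r v) = exF K F r hr (toE v) := by
  classical
  induction v using Finsupp.induction_linear with
  | zero => simp
  | add f g hf hg => rw [map_add, map_add, map_add, map_add, hf, hg]
  | single x c => rw [extC_single, toE_single, toE_single, map_smul, exF_dl']

theorem extC_rt (k : K) (v : FC K (F × J)) :
    extC K F r (rt k v) = rt (k : G) (extC K F r v) := by
  induction v using Finsupp.induction_linear with
  | zero => simp
  | add f g hf hg => rw [map_add, map_add, map_add, map_add, hf, hg]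
  | single x c =>
    rw [rt_single, extC_single, extC_single, rt_single]
    congr 1
    unfold pt
    refine Prod.ext ?_ rfl
    change r x.2.1 * ((x.1 * k⁻¹ : K) : G) = r x.2.1 * (x.1 : G) * ((k : G))⁻¹
    rw [Subgroup.coe_mul, Subgroup.coe_inv, mul_assoc]

/-- restriction of finite chains -/
noncomputable def resC (hr : ∀ x, (r x : G ⧸ K) = x) : FC G J →ₗ[ℂ] FC K (F × J) :=
  Finsupp.lcomapDomain (pt K F r) (pt_injective K F r hr)

theorem resC_apply (hr : ∀ x, (r x : G ⧸ K) = x) (u : FC G J) (p : K × (F × J)) :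
    resC K F r hr u p = u (pt K F r p) := rfl

theorem toE_resC (hr : ∀ x, (r x : G ⧸ K) = x) (u : FC G J) :
    toE (resC K F r hr u) = Rf K F r hr (toE u) := by
  classical
  ext p
  rw [toE_apply, Rf_apply, toE_apply, resC_apply]

theorem resC_rt (hr : ∀ x, (r x : G ⧸ K) = x) (k : K) (u : FC G J) :
    resC K F r hr (rt (k : G) u) = rt k (resC K F r hr u) := by
  ext p
  rw [resC_apply, rt_apply, rt_apply, resC_apply]
  congr 1
  unfold pt
  refine Prod.ext ?_ rfl
  change r p.2.1 * (p.1 : G) * (k : G) = r p.2.1 * ((p.1 * k : K) : G)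
  rw [Subgroup.coe_mul, mul_assoc]

theorem toE_injective : Function.Injective (toE : FC G J → EE G J) := by
  intro u v h
  ext x
  rw [← toE_apply u x, ← toE_apply v x, h]

theorem extC_resC (hr : ∀ x, (r x : G ⧸ K) = x) (u : FC G J)
    (hu : ∀ x : G × J, (x.1 : G ⧸ K) ∉ F → u x = 0) : extC K F r (resC K F r hr u) = u := by
  apply toE_injective
  rw [toE_extC K F r hr, toE_resC]
  apply exF_Rf
  intro x hx
  rw [toE_apply]
  exact hu x hx

end

section
variable {G : Type u} [Group G] (K : Subgroup G) (r : G ⧸ K → G) [DecidableEq (G ⧸ K)]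
variable {I : Type v} {J : Type w} [Fintype I] [Fintype J] [DecidableEq I] [DecidableEq J]

/-- an equivariant map of finite chains, of finite rank over `K` on the left, extends to a bounded
operator whose values are supported on finitely many cosets -/
theorem clm_of (hr : ∀ x, (r x : G ⧸ K) = x) (φ : FC K I →ₗ[ℂ] FC G J)
    (hφ : ∀ (k : K) v, φ (rt k v) = rt (k : G) (φ v)) :
    ∃ (F0 : Finset (G ⧸ K)) (Φ : EE K I →L[ℂ] EE G J), (∀ v, Φ (toE v) = toE (φ v)) ∧
      ∀ w (x : G × J), (x.1 : G ⧸ K) ∉ F0 → Φ w x = 0 := by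
  set F0 : Finset (G ⧸ K) := Finset.univ.biUnion fun i : I =>
    (φ (Finsupp.single (1, i) 1)).support.image fun x => (x.1 : G ⧸ K) with hF0
  have hs : ∀ v (x : G × J), (x.1 : G ⧸ K) ∉ F0 → φ v x = 0 := by
    intro v
    induction v using Finsupp.induction_linear with
    | zero => intro x _; rw [map_zero]; rfl
    | add f g hf hg =>
      intro x hx
      rw [map_add, Finsupp.add_apply, hf x hx, hg x hx, add_zero]
    | single x c =>
      intro y hy
      have e1 : (Finsupp.single x c : FC K I) = c • rt x.1⁻¹ (Finsupp.single (1, x.2) 1) := by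
        rw [rt_single, inv_inv, one_mul, Finsupp.smul_single, smul_eq_mul, mul_one]
      rw [e1, map_smul, hφ, Finsupp.smul_apply, rt_apply]
      have h1 : φ (Finsupp.single (1, x.2) 1) (y.1 * ((x.1⁻¹ : K) : G), y.2) = 0 := by
        by_contra hne
        apply hy
        rw [hF0, Finset.mem_biUnion]
        refine ⟨x.2, Finset.mem_univ _, Finset.mem_image.2
          ⟨(y.1 * ((x.1⁻¹ : K) : G), y.2), Finsupp.mem_support_iff.2 hne, ?_⟩⟩
        exact QuotientGroup.mk_mul_of_mem _ (x.1⁻¹).2
      rw [h1, smul_zero]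
  set ψ : FC K I →ₗ[ℂ] FC K (F0 × J) := (resC K F0 r hr).comp φ with hψ
  have hψe : ∀ (k : K) v, ψ (rt k v) = rt k (ψ v) := by
    intro k v
    change resC K F0 r hr (φ (rt k v)) = rt k (resC K F0 r hr (φ v))
    rw [hφ, resC_rt]
  refine ⟨F0, (exF K F0 r hr).comp (opM (matOf ψ)), ?_, ?_⟩
  · intro v
    change exF K F0 r hr (opM (matOf ψ) (toE v)) = _
    rw [matOf_toE ψ hψe, ← toE_extC K F0 r hr]
    congr 1
    exact extC_resC K F0 r hr _ (hs v)
  · intro w x hx
    exact exF_zero K F0 r hr _ x hx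

end

section
variable {G : Type u} [Group G] (K : Subgroup G) (r : G ⧸ K → G) [DecidableEq (G ⧸ K)]
variable {I : Type v} {J : Type w} {P : Type z} [Fintype I] [Fintype J] [Fintype P]
  [DecidableEq I] [DecidableEq J] [DecidableEq P]

/-- **Domination.** -/
theorem dom (hr : ∀ x, (r x : G ⧸ K) = x) (A : I → J → (G →₀ ℂ)) (B : J → P → (G →₀ ℂ)) {q : ℕ}
    (f : FC G J →ₗ[ℂ] FC K (Fin q)) (hf : ∀ (k : K) v, f (rt (k : G) v) = rt k (f v))
    (g : FC K (Fin q) →ₗ[ℂ] FC G J) (hg : ∀ (k : K) v, g (rt k v) = rt (k : G) (g v))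
    (h : FC G J →ₗ[ℂ] FC G P) (hh : ∀ (k : K) v, h (rt (k : G) v) = rt (k : G) (h v))
    (h' : FC G I →ₗ[ℂ] FC G J) (hh' : ∀ (k : K) v, h' (rt (k : G) v) = rt (k : G) (h' v))
    (hom : ∀ v, g (f v) = v + fop B (h v) + h' (fop A v)) (F : Finset (G ⧸ K)) :
    ∃ F0 : Finset (G ⧸ K), ∀ N : Submodule ℂ (EE G J),
      (∀ w : EE G J, (∀ x : G × J, (x.1 : G ⧸ K) ∉ F → w x = 0) → opM A w = 0 →
        (∃ c : EE G P, (∀ x : G × P, (x.1 : G ⧸ K) ∉ F0 → c x = 0) ∧ w = opM B c) → w ∈ N) →
      vd (pb K F r hr (LinearMap.ker (opM A : EE G J →ₗ[ℂ] EE G I))) - vd (pb K F r hr N) ≤ q := by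
  classical
  set S : Finset G := Finset.univ.biUnion fun i => Finset.univ.biUnion fun j => (A i j).support
    with hSdef
  have hS : ∀ i j, (A i j).support ⊆ S := fun i j s hs => by
    rw [hSdef, Finset.mem_biUnion]
    exact ⟨i, Finset.mem_univ _, Finset.mem_biUnion.2 ⟨j, Finset.mem_univ _, hs⟩⟩
  set F1 : Finset (G ⧸ K) := imF K F S with hF1
  -- the four operators
  set φ1 : FC K (F × J) →ₗ[ℂ] FC K (Fin q) := f.comp (extC K F r) with hφ1
  have hφ1e : ∀ (k : K) v, φ1 (rt k v) = rt k (φ1 v) := by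
    intro k v
    change f (extC K F r (rt k v)) = rt k (f (extC K F r v))
    rw [extC_rt, hf]
  set Tf : EE K (F × J) →L[ℂ] EE K (Fin q) := opM (matOf φ1) with hTf
  have hTf1 : ∀ v, Tf (toE v) = toE (f (extC K F r v)) := fun v => matOf_toE φ1 hφ1e v
  obtain ⟨_, Tg, hTg, _⟩ := clm_of K r hr g hg
  obtain ⟨F0, Th, hTh, hTh0⟩ := clm_of K r hr (h.comp (extC K F r : FC K (F × J) →ₗ[ℂ] FC G J)) (by
    intro k v
    change h (extC K F r (rt k v)) = rt (k : G) (h (extC K F r v))
    rw [extC_rt, hh])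
  obtain ⟨_, T', hT', _⟩ := clm_of K r hr (h'.comp (extC K F1 r : FC K (F1 × I) →ₗ[ℂ] FC G I)) (by
    intro k v
    change h' (extC K F1 r (rt k v)) = rt (k : G) (h' (extC K F1 r v))
    rw [extC_rt, hh'])
  -- the identity
  have key : ∀ w : EE K (F × J), Tg (Tf w) = exF K F r hr w + opM B (Th w)
      + T' (Rf K F1 r hr (opM A (exF K F r hr w))) := by
    intro w
    refine ext_dl (Tg.comp Tf) (exF K F r hr + (opM B).comp Th
      + T'.comp ((Rf K F1 r hr).comp ((opM A).comp (exF K F r hr)))) ?_ w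
    intro x
    change Tg (Tf (dl x)) = exF K F r hr (dl x) + opM B (Th (dl x))
      + T' (Rf K F1 r hr (opM A (exF K F r hr (dl x))))
    have e : (dl x : EE K (F × J)) = toE (Finsupp.single x 1) := by
      rw [toE_single, one_smul]
    set v : FC K (F × J) := Finsupp.single x 1 with hv
    have h1 : opM A (exF K F r hr (toE v)) = toE (fop A (extC K F r v)) := by
      rw [← toE_extC K F r hr, toE_fop]
    have h2 : Rf K F1 r hr (toE (fop A (extC K F r v)))
        = toE (resC K F1 r hr (fop A (extC K F r v))) := (toE_resC K F1 r hr _).symm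
    have h3 : extC K F1 r (resC K F1 r hr (fop A (extC K F r v))) = fop A (extC K F r v) := by
      apply extC_resC
      intro y hy
      rw [← toE_apply, ← h1]
      exact opM_zero K F A S hS _ (fun x hx => exF_zero K F r hr _ x hx) y hy
    rw [e, hTf1, hTg, hTh, h1, h2, hT', ← toE_extC K F r hr]
    change toE (g (f (extC K F r v))) = toE (extC K F r v) + opM B (toE (h (extC K F r v)))
      + toE (h' (extC K F1 r (resC K F1 r hr (fop A (extC K F r v)))))
    rw [h3, hom, map_add, map_add, toE_fop]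
  refine ⟨F0, fun N hN => ?_⟩
  set U := pb K F r hr (LinearMap.ker (opM A : EE G J →ₗ[ℂ] EE G I)) with hU
  have hUc : IsClosed (U : Set (EE K (F × J))) := pb_closed K F r hr _ (opM A).isClosed_ker
  have hUi : W649.ZL.Inv U := pb_inv K F r hr _ fun k f hf => inv_ker (opM A) (opM_eqv A) k f hf
  have h1 := rank_nullity Tf (opM_eqv _) hUi hUc
  have h2 : vd (U.map (Tf : EE K (F × J) →ₗ[ℂ] EE K (Fin q))) ≤ q := by
    refine (vd_le_card _).trans ?_
    rw [Fintype.card_fin]
  have h3 : vd (U ⊓ LinearMap.ker (Tf : EE K (F × J) →ₗ[ℂ] EE K (Fin q)))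
      ≤ vd (pb K F r hr N) := by
    apply vd_mono
    rintro w ⟨hw, hw'⟩
    have hA : opM A (exF K F r hr w) = 0 := hw
    have hT : Tf w = 0 := hw'
    have h4 := key w
    rw [hA, hT, map_zero, map_zero, map_zero, add_zero] at h4
    change exF K F r hr w ∈ N
    refine hN _ (fun x hx => exF_zero K F r hr w x hx) hA ⟨-Th w, fun x hx => ?_, ?_⟩
    · change -(Th w x) = 0
      rw [hTh0 w x hx, neg_zero]
    · rw [map_neg]
      exact eq_neg_of_add_eq_zero_left h4.symm
  linarith

end


section
variable {G : Type u} [Group G] {I : Type v} {J : Type w} {P : Type z} [Fintype I] [Fintype J]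
  [DecidableEq I] [DecidableEq J]

theorem fop_single (A : I → J → (G →₀ ℂ)) (x : G × J) (c : ℂ) :
    fop A (Finsupp.single x c) =
      c • ∑ i, ∑ s ∈ (A i x.2).support, Finsupp.single (s * x.1, i) (A i x.2 s) := by
  unfold fop
  rw [Finsupp.linearCombination_single]

theorem fop_rt (A : I → J → (G →₀ ℂ)) (k : G) (v : FC G J) :
    fop A (rt k v) = rt k (fop A v) := by
  induction v using Finsupp.induction_linear with
  | zero => simp
  | add f g hf hg => rw [map_add, map_add, map_add, map_add, hf, hg]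
  | single x c =>
    rw [rt_single, fop_single, fop_single, map_smul, map_sum]
    congr 1
    refine Finset.sum_congr rfl fun i _ => ?_
    rw [map_sum]
    refine Finset.sum_congr rfl fun s _ => ?_
    rw [rt_single]
    congr 1
    refine Prod.ext ?_ rfl
    change s * (x.1 * k⁻¹) = s * x.1 * k⁻¹
    rw [mul_assoc]

end

section
variable {G : Type u} [Group G] (K : Subgroup G) (r : G ⧸ K → G)
variable {I : Type v} {J : Type w} {P : Type z}

/-- lifting of equivariant maps -/
theorem lift (hr : ∀ x, (r x : G ⧸ K) = x) (D : FC G P →ₗ[ℂ] FC G J)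
    (hD : ∀ (k : K) v, D (rt (k : G) v) = rt (k : G) (D v)) (φ : FC G I →ₗ[ℂ] FC G J)
    (hφ : ∀ (k : K) v, φ (rt (k : G) v) = rt (k : G) (φ v)) (hR : ∀ v, ∃ u, D u = φ v) :
    ∃ h : FC G I →ₗ[ℂ] FC G P, (∀ (k : K) v, h (rt (k : G) v) = rt (k : G) (h v)) ∧
      ∀ v, D (h v) = φ v := by
  choose pre hpre using fun x : G × I => hR (Finsupp.single x 1)
  set h : FC G I →ₗ[ℂ] FC G P := Finsupp.linearCombination ℂ fun x : G × I =>
    rt ((r (x.1 : G ⧸ K))⁻¹ * x.1)⁻¹ (pre (r (x.1 : G ⧸ K), x.2)) with hh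
  have h1 : ∀ (x : G × I) (c : ℂ), h (Finsupp.single x c)
      = c • rt ((r (x.1 : G ⧸ K))⁻¹ * x.1)⁻¹ (pre (r (x.1 : G ⧸ K), x.2)) := by
    intro x c
    rw [hh, Finsupp.linearCombination_single]
  refine ⟨h, ?_, ?_⟩
  · intro k v
    induction v using Finsupp.induction_linear with
    | zero => simp
    | add f g hf hg => rw [map_add, map_add, map_add, map_add, hf, hg]
    | single x c =>
      rw [rt_single, h1, h1, map_smul, ← rt_mul]
      have e1 : ((x.1 * ((k : G))⁻¹ : G) : G ⧸ K) = (x.1 : G ⧸ K) :=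
        QuotientGroup.mk_mul_of_mem _ (K.inv_mem k.2)
      change c • rt ((r ((x.1 * ((k : G))⁻¹ : G) : G ⧸ K))⁻¹ * (x.1 * ((k : G))⁻¹))⁻¹
        (pre (r ((x.1 * ((k : G))⁻¹ : G) : G ⧸ K), x.2)) = _
      rw [e1]
      congr 3
      group
  · intro v
    induction v using Finsupp.induction_linear with
    | zero => simp
    | add f g hf hg => rw [map_add, map_add, map_add, hf, hg]
    | single x c =>
      have e2 := mem_K K r hr x.1
      have e3 := hD (⟨(r (x.1 : G ⧸ K))⁻¹ * x.1, e2⟩⁻¹ : K) (pre (r (x.1 : G ⧸ K), x.2))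
      change D (rt ((r (x.1 : G ⧸ K))⁻¹ * x.1)⁻¹ (pre (r (x.1 : G ⧸ K), x.2)))
        = rt ((r (x.1 : G ⧸ K))⁻¹ * x.1)⁻¹ (D (pre (r (x.1 : G ⧸ K), x.2))) at e3
      have e4 := hφ (⟨(r (x.1 : G ⧸ K))⁻¹ * x.1, e2⟩⁻¹ : K)
        (Finsupp.single (r (x.1 : G ⧸ K), x.2) 1)
      change φ (rt ((r (x.1 : G ⧸ K))⁻¹ * x.1)⁻¹ (Finsupp.single (r (x.1 : G ⧸ K), x.2) 1))
        = rt ((r (x.1 : G ⧸ K))⁻¹ * x.1)⁻¹ (φ (Finsupp.single (r (x.1 : G ⧸ K), x.2) 1)) at e4
      rw [h1, map_smul, e3, hpre, ← e4, rt_single, inv_inv, mul_inv_cancel_left, ← map_smul]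
      congr 1
      rw [Finsupp.smul_single, smul_eq_mul, mul_one]

end

end Pool.Agent.Q91.LB
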