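import Pool.Agent.Q91.LB.Bet
import Pool.Agent.Q91.LB.Dom

set_option autoImplicit false
set_option linter.unusedSectionVars false

/-! Complexes of finitely generated free modules over the group algebra, their `L²`-Betti numbers,
and maps of finite chains which commute with the action of a subgroup only. The definitions of
`betti`, `bettiCover`, `CoAmenable` are in `Pool/Agent/Q91/LB/Bet.lean`. -/

open scoped ENNReal

universe u

namespace Pool.Agent.Q91.LB.Cpx

open Pool.Agent.Q91.LB Pool.Agent.Q91.LB.Bet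

section
variable {G : Type u} [Group G]

theorem bdry_app {m n : ℕ} (A : Fin m → Fin n → (G →₀ ℂ)) (v : Fc G n) (x : G × Fin m) :
    bdry A v x = app A v x := by
  have h1 : Pool.Agent.Q91.TE.toE (bdry A v) = opM A (Pool.Agent.Q91.TE.toE v) := toE_fop A v
  rw [← Pool.Agent.Q91.TE.toE_apply, h1, ← app_eq]
  unfold app vals
  simp only [Pool.Agent.Q91.TE.toE_apply]

theorem bdry_bdry {m n p : ℕ} (A : Fin m → Fin n → (G →₀ ℂ)) (B : Fin n → Fin p → (G →₀ ℂ))
    (hAB : ∀ h : G × Fin p → ℂ, app A (app B h) = 0) (v : Fc G p) : bdry A (bdry B v) = 0 := by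
  ext x
  rw [bdry_app]
  have h1 : ((bdry B v : Fc G n) : G × Fin n → ℂ) = app B v := by
    funext y
    exact bdry_app B v y
  rw [h1, hAB]
  rfl

variable (K : Subgroup G) (r : G ⧸ K → G)

/-- domination of rank `q` bounds the `L²`-Betti number of the covering -/
theorem cover_le (hr : ∀ x, (r x : G ⧸ K) = x) {m n p q : ℕ} (A : Fin m → Fin n → (G →₀ ℂ))
    (B : Fin n → Fin p → (G →₀ ℂ))
    (f : FC G (Fin n) →ₗ[ℂ] FC K (Fin q)) (hf : ∀ (k : K) v, f (rt (k : G) v) = rt k (f v))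
    (g : FC K (Fin q) →ₗ[ℂ] FC G (Fin n)) (hg : ∀ (k : K) v, g (rt k v) = rt (k : G) (g v))
    (h : FC G (Fin n) →ₗ[ℂ] FC G (Fin p)) (hh : ∀ (k : K) v, h (rt (k : G) v) = rt (k : G) (h v))
    (h' : FC G (Fin m) →ₗ[ℂ] FC G (Fin n))
    (hh' : ∀ (k : K) v, h' (rt (k : G) v) = rt (k : G) (h' v))
    (hom : ∀ v, g (f v) = v + fop B (h v) + h' (fop A v)) :
    bettiCover K r A B ≤ ENNReal.ofReal q := by
  classical
  unfold bettiCover
  refine iSup_le fun F => ?_
  obtain ⟨F0, hF0⟩ := dom K r hr A B f hf g hg h hh h' hh' hom F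
  refine (iInf_le _ F0).trans ?_
  apply ENNReal.ofReal_le_ofReal
  unfold imageDim
  rw [dimK_cycles K r hr, dimK_null K r hr]
  apply hF0
  intro w hw hA hc
  refine ⟨⟨?_, fun x hx => hw x hx⟩, ?_⟩
  · rw [cycles_eq]
    exact hA
  · apply subset_closure
    change w ∈ boundaries B (cosetsIn K F0)
    rw [boundaries_eq]
    exact hc

/-- a contraction over `K` kills the `L²`-Betti number of the covering -/
theorem cover_zero (hr : ∀ x, (r x : G ⧸ K) = x) {m n p : ℕ} (A : Fin m → Fin n → (G →₀ ℂ))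
    (B : Fin n → Fin p → (G →₀ ℂ)) (h : Mp G n p) (hh : Equi K h)
    (h' : Mp G m n) (hh' : Equi K h')
    (hom : ∀ v, bdry B (h v) + h' (bdry A v) = v) : bettiCover K r A B = 0 := by
  have h1 := cover_le K r hr (q := 0) A B 0 (fun k v => by simp) 0 (fun k v => by simp)
    (-h) (fun k v => by
      have := hh k v
      change -(h (rt (k : G) v)) = rt (k : G) (-(h v))
      rw [map_neg]
      exact congrArg Neg.neg this)
    (-h') (fun k v => by
      have := hh' k v
      change -(h' (rt (k : G) v)) = rt (k : G) (-(h' v))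
      rw [map_neg]
      exact congrArg Neg.neg this)
    (fun v => by
      have e := hom v
      change (0 : FC G (Fin n)) = v + fop B (-(h v)) + -(h' (fop A v))
      rw [map_neg]
      change fop B (h v) + h' (fop A v) = v at e
      nth_rw 1 [← e]
      abel)
  simpa using h1

theorem betti_zero_of_cover (hK : CoAmenable K) (hr : ∀ x, (r x : G ⧸ K) = x) {m n p : ℕ}
    (A : Fin m → Fin n → (G →₀ ℂ)) (B : Fin n → Fin p → (G →₀ ℂ))
    (h : bettiCover K r A B = 0) : betti A B = 0 := by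
  apply vanish K r hr A B (by rw [h]; exact ENNReal.zero_ne_top)
  intro S δ ε hδ hε
  obtain ⟨F, hF⟩ := hK S δ hδ
  refine ⟨F, hF, ?_⟩
  rw [h, ENNReal.toReal_zero]
  positivity

/-- the contraction -/
theorem contraction (hr : ∀ x, (r x : G ⧸ K) = x) (M : Cx G) (n : ℕ)
    (hex : ∀ k, n ≤ k → ExactAt M k) (hs : CyclesSplit K M n) (k : ℕ) (hk : n ≤ k) :
    ∃ h : Mp G (M.c (k + 1)) (M.c (k + 2)), Equi K h ∧
      ∀ v, bdry (M.d k) v = 0 → bdry (M.d (k + 1)) (h v) = v := by
  induction k, hk using Nat.le_induction with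
  | base =>
    obtain ⟨π, hπ, hπ1, hπ2⟩ := hs
    obtain ⟨h, hh, hD⟩ := lift K r hr (fop (M.d (n + 1))) (fun k v => fop_rt _ _ _) π hπ
      (fun v => hex n le_rfl (π v) (hπ1 v))
    exact ⟨h, hh, fun v hv => (hD v).trans (hπ2 v hv)⟩
  | succ k hk ih =>
    obtain ⟨h, hh, h1⟩ := ih
    set π : Fc G (M.c (k + 2)) →ₗ[ℂ] Fc G (M.c (k + 2)) :=
      LinearMap.id - h.comp (fop (M.d (k + 1))) with hπ
    have hπe : Equi K π := by
      intro κ v
      change rt (κ : G) v - h (fop (M.d (k + 1)) (rt (κ : G) v))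
        = rt (κ : G) (v - h (fop (M.d (k + 1)) v))
      rw [map_sub, fop_rt]
      congr 1
      exact hh κ _
    have hπ1 : ∀ v, bdry (M.d (k + 1)) (π v) = 0 := by
      intro v
      change fop (M.d (k + 1)) (v - h (bdry (M.d (k + 1)) v)) = 0
      have h3 := h1 _ (bdry_bdry _ _ (M.dd k) v)
      change fop (M.d (k + 1)) (h (bdry (M.d (k + 1)) v)) = fop (M.d (k + 1)) v at h3
      rw [map_sub, h3, sub_self]
    obtain ⟨h2, hh2, hD⟩ := lift K r hr (fop (M.d (k + 2))) (fun k v => fop_rt _ _ _) π hπe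
      (fun v => hex (k + 1) (by omega) (π v) (hπ1 v))
    refine ⟨h2, hh2, fun v hv => (hD v).trans ?_⟩
    change v - h (bdry (M.d (k + 1)) v) = v
    rw [hv, map_zero, sub_zero]

/-- a split of the cycles of degree `n + 1` kills the `L²`-Betti numbers of the covering in all
degrees `k + 2 > n + 1` -/
theorem cover_zero_of_split (hr : ∀ x, (r x : G ⧸ K) = x) (M : Cx G) (n : ℕ)
    (hex : ∀ k, n ≤ k → ExactAt M k) (hs : CyclesSplit K M n) (k : ℕ) (hk : n ≤ k) :
    bettiCover K r (M.d (k + 1)) (M.d (k + 2)) = 0 := by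
  obtain ⟨h, hh, h1⟩ := contraction K r hr M n hex hs k hk
  set π : Fc G (M.c (k + 2)) →ₗ[ℂ] Fc G (M.c (k + 2)) :=
    LinearMap.id - h.comp (fop (M.d (k + 1))) with hπ
  have hπe : Equi K π := by
    intro κ v
    change rt (κ : G) v - h (fop (M.d (k + 1)) (rt (κ : G) v))
      = rt (κ : G) (v - h (fop (M.d (k + 1)) v))
    rw [map_sub, fop_rt]
    congr 1
    exact hh κ _
  have hπ1 : ∀ v, bdry (M.d (k + 1)) (π v) = 0 := by
    intro v
    change fop (M.d (k + 1)) (v - h (bdry (M.d (k + 1)) v)) = 0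
    have h3 := h1 _ (bdry_bdry _ _ (M.dd k) v)
    change fop (M.d (k + 1)) (h (bdry (M.d (k + 1)) v)) = fop (M.d (k + 1)) v at h3
    rw [map_sub, h3, sub_self]
  obtain ⟨h2, hh2, hD⟩ := lift K r hr (fop (M.d (k + 2))) (fun k v => fop_rt _ _ _) π hπe
    (fun v => hex (k + 1) (by omega) (π v) (hπ1 v))
  apply cover_zero K r hr (M.d (k + 1)) (M.d (k + 2)) h2 hh2 h hh
  intro v
  have h3 : bdry (M.d (k + 2)) (h2 v) = v - h (bdry (M.d (k + 1)) v) := hD v
  rw [h3, sub_add_cancel]

end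

end Pool.Agent.Q91.LB.Cpx
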