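import Pool.Agent.Q91.LB.Defs

set_option autoImplicit false

/-! Definitions: complexes of finitely generated free modules over a group algebra, finite chains,
Poincaré duality, type `FP_s`. -/

open scoped ENNReal

universe u v w

namespace Pool.Agent.Q91.LB

/-- Finite chains. -/
abbrev FC (G : Type u) (J : Type v) := (G × J) →₀ ℂ

/-- The right translation by `k` as a linear map. -/
noncomputable def rt {G : Type u} [Group G] {J : Type v} (k : G) : FC G J →ₗ[ℂ] FC G J :=
  Finsupp.lmapDomain ℂ ℂ fun x => (x.1 * k⁻¹, x.2)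

/-- The matrix as a linear map of finite chains. -/
noncomputable def fop {G : Type u} [Group G] {I : Type v} {J : Type w} [Fintype I]
    (A : I → J → (G →₀ ℂ)) : FC G J →ₗ[ℂ] FC G I :=
  Finsupp.linearCombination ℂ fun x : G × J =>
    ∑ i, ∑ s ∈ (A i x.2).support, Finsupp.single (s * x.1, i) (A i x.2 s)

/-- The dual matrix, twisted by the orientation character `χ`: its entries are
`∑ g, χ g * conj (A i j g) * g⁻¹`. -/
noncomputable def dual {G : Type u} [Group G] {I : Type v} {J : Type w} (χ : G →* ℤˣ)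
    (A : I → J → (G →₀ ℂ)) : J → I → (G →₀ ℂ) :=
  fun j i => (A i j).sum fun g c => Finsupp.single g⁻¹ (((χ g : ℤ) : ℂ) * (starRingEnd ℂ) c)

namespace Cpx

open Pool.Agent.Q91.LB Pool.Agent.Q91.LB.Bet

/-- A complex of finitely generated free modules over the group algebra of `G`: `c k` is the rank in
degree `k`, the matrix `d k` gives the boundary map from degree `k + 1` to degree `k`. -/
structure Cx (G : Type u) [Group G] where
  c : ℕ → ℕ
  d : ∀ k, Fin (c k) → Fin (c (k + 1)) → (G →₀ ℂ)
  dd : ∀ (k : ℕ) (h : G × Fin (c (k + 2)) → ℂ), app (d k) (app (d (k + 1)) h) = 0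

/-- The empty matrix: the boundary map from degree `0`. -/
noncomputable def empty (G : Type u) [Group G] (n : ℕ) : Fin 0 → Fin n → (G →₀ ℂ) :=
  fun i => i.elim0

/-- The `L²`-Betti numbers of the complex. -/
noncomputable def b {G : Type u} [Group G] (M : Cx G) : ℕ → ℝ
  | 0 => betti (empty G (M.c 0)) (M.d 0)
  | k + 1 => betti (M.d k) (M.d (k + 1))

/-- The finite chains: the free module of rank `n` over the group algebra. -/
abbrev Fc (G : Type u) (n : ℕ) := (G × Fin n) →₀ ℂ

/-- The linear maps of finite chains. -/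
abbrev Mp (G : Type u) (n m : ℕ) := Fc G n →ₗ[ℂ] Fc G m

/-- The value of a linear map at a finite chain. -/
noncomputable def ap {G : Type u} {n m : ℕ} (φ : Mp G n m) (v : Fc G n) : Fc G m := φ v

/-- The value of a matrix over the group algebra at a finite chain `v`: the finite chain with the
values `app A v`. -/
noncomputable def bdry {G : Type u} [Group G] {m n : ℕ} (A : Fin m → Fin n → (G →₀ ℂ))
    (v : Fc G n) : Fc G m := fop A v

/-- The right translate of a finite chain by `k`: its value at `(g, i)` is `v (g k, i)`. -/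
noncomputable def transl {G : Type u} [Group G] {n : ℕ} (k : G) (v : Fc G n) : Fc G n := rt k v

/-- The linear map commutes with the right translations by the elements of the subgroup `K`. -/
def Equi {G : Type u} [Group G] (K : Subgroup G) {n m : ℕ} (φ : Mp G n m) : Prop :=
  ∀ (k : K) (v : Fc G n), ap φ (transl (k : G) v) = transl (k : G) (ap φ v)

/-- The complex of finite chains is exact in degree `k + 1`. -/
def ExactAt {G : Type u} [Group G] (M : Cx G) (k : ℕ) : Prop :=
  ∀ v : Fc G (M.c (k + 1)), bdry (M.d k) v = 0 → ∃ u, bdry (M.d (k + 1)) u = v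

/-- The finite cycles of degree `k + 1` are a direct summand of the finite chains, over `K`: there
is a `K`-equivariant projection of the chains onto the cycles. -/
def CyclesSplit {G : Type u} [Group G] (K : Subgroup G) (M : Cx G) (k : ℕ) : Prop :=
  ∃ π : Mp G (M.c (k + 1)) (M.c (k + 1)), Equi K π ∧
    (∀ v, bdry (M.d k) (ap π v) = 0) ∧ ∀ v, bdry (M.d k) v = 0 → ap π v = v

/-- The `L²`-Betti numbers over `K`, in `[0, ∞]`, of the covering with group `K`. -/
noncomputable def bK {G : Type u} [Group G] (K : Subgroup G) (r : G ⧸ K → G) (M : Cx G) :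
    ℕ → ℝ≥0∞
  | 0 => bettiCover K r (empty G (M.c 0)) (M.d 0)
  | k + 1 => bettiCover K r (M.d k) (M.d (k + 1))

/-- The Euler characteristic: the alternating sum of the ranks in the degrees at most `N`. -/
def chi {G : Type u} [Group G] (M : Cx G) (N : ℕ) : ℤ :=
  ∑ k ∈ Finset.range (N + 1), (-1) ^ k * (M.c k : ℤ)

/-- The complex of finite chains is augmented and exact in degree `0`: there is a nonzero
`G`-invariant linear form on the chains of degree `0` whose kernel consists of the boundaries. -/
def Augmented {G : Type u} [Group G] (M : Cx G) : Prop :=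
  ∃ ε : Fc G (M.c 0) → ℂ, IsLinearMap ℂ ε ∧ (∃ v, ε v ≠ 0) ∧ (∀ g v, ε (transl g v) = ε v) ∧
    ∀ v, ε v = 0 ↔ ∃ u, bdry (M.d 0) u = v

/-- `A B = C D` for matrices over the group algebra. -/
def Square {G : Type u} [Group G] {a b c d : ℕ} (A : Fin a → Fin b → (G →₀ ℂ))
    (B : Fin b → Fin d → (G →₀ ℂ)) (C : Fin a → Fin c → (G →₀ ℂ))
    (D : Fin c → Fin d → (G →₀ ℂ)) : Prop :=
  ∀ x, app A (app B x) = app C (app D x)

/-- `P Q = 1 + A B` for matrices over the group algebra. -/
def Homotopic {G : Type u} [Group G] {a b c : ℕ} (P : Fin a → Fin b → (G →₀ ℂ))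
    (Q : Fin b → Fin a → (G →₀ ℂ)) (A : Fin a → Fin c → (G →₀ ℂ))
    (B : Fin c → Fin a → (G →₀ ℂ)) : Prop :=
  ∀ x, app P (app Q x) = x + app A (app B x)

/-- `P Q = 1 + A B + C D` for matrices over the group algebra. -/
def Homotopic' {G : Type u} [Group G] {a b c d : ℕ} (P : Fin a → Fin b → (G →₀ ℂ))
    (Q : Fin b → Fin a → (G →₀ ℂ)) (A : Fin a → Fin c → (G →₀ ℂ))
    (B : Fin c → Fin a → (G →₀ ℂ)) (C : Fin a → Fin d → (G →₀ ℂ))
    (D : Fin d → Fin a → (G →₀ ℂ)) : Prop :=
  ∀ x, app P (app Q x) = x + app A (app B x) + app C (app D x)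

/-- Poincaré duality of formal dimension `n` with the orientation character `χ`: matrices
`φ k l : C_k → C_l` and `ψ k l : C_l → C_k` for `k + l = n` which commute with the boundary maps of
the complex and of the dual complex, and a homotopy `h` from `ψ φ` to the identity. (The signs are
absorbed in `φ` and `ψ`.) -/
structure Duality {G : Type u} [Group G] (M : Cx G) (n : ℕ) (χ : G →* ℤˣ) where
  φ : ∀ k l, Fin (M.c l) → Fin (M.c k) → (G →₀ ℂ)
  ψ : ∀ k l, Fin (M.c k) → Fin (M.c l) → (G →₀ ℂ)
  h : ∀ k, Fin (M.c (k + 1)) → Fin (M.c k) → (G →₀ ℂ)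
  hφ : ∀ k l, k + l + 1 = n → Square (φ k (l + 1)) (M.d k) (dual χ (M.d l)) (φ (k + 1) l)
  hψ : ∀ k l, k + l + 1 = n → Square (ψ k (l + 1)) (dual χ (M.d l)) (M.d k) (ψ (k + 1) l)
  h0 : Homotopic (ψ 0 n) (φ 0 n) (M.d 0) (h 0)
  hs : ∀ k l, k + 1 + l = n →
    Homotopic' (ψ (k + 1) l) (φ (k + 1) l) (M.d (k + 1)) (h (k + 1)) (h k) (M.d k)

/-- The group is of type `FP_s` over `ℂ`, `s ≥ 1`: there is a complex of finitely generated free
modules which is a resolution of `ℂ` up to degree `s`. -/
def TypeFP (H : Type u) [Group H] (s : ℕ) : Prop :=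
  ∃ P : Cx H, Augmented P ∧ ∀ j, j + 1 < s → ExactAt P j

end Cpx

end Pool.Agent.Q91.LB
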