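import Pool.Agent.Q91.LB.Defs

set_option autoImplicit false

/-! Definitions: eigenspaces of matrices over a group algebra, their dimensions, compressions to
finite sets of cosets of a subgroup. -/

open scoped ENNReal

universe u v

namespace Pool.Agent.Q91.LB.Eig

open Pool.Agent.Q91.LB.Bet (move Folner)

/-- Square-summable functions on `G × I`. -/
noncomputable abbrev Sq (G : Type u) (I : Type v) := lp (fun _ : G × I => ℂ) 2

open Classical in
/-- The basis vector at `x`. -/
noncomputable def delta {G : Type u} {I : Type v} (x : G × I) : Sq G I := lp.single 2 x 1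

/-- The value of the square matrix `A` over the group algebra at a function. -/
def app {G : Type u} [Group G] {I : Type v} [Fintype I] (A : I → I → (G →₀ ℂ)) (f : G × I → ℂ) :
    G × I → ℂ :=
  fun x => ∑ j, ∑ s ∈ (A x.2 j).support, A x.2 j s * f (s⁻¹ * x.1, j)

/-- The values of a square-summable function. -/
def vals {G : Type u} {I : Type v} (f : Sq G I) : G × I → ℂ := fun x => f x

/-- The function `z f`. -/
def times {G : Type u} {I : Type v} (z : ℂ) (f : G × I → ℂ) : G × I → ℂ := fun x => z * f x

/-- The square-summable solutions of `A f = z f`. -/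
def eigenspace {G : Type u} [Group G] {I : Type v} [Fintype I] (A : I → I → (G →₀ ℂ)) (z : ℂ) :
    Set (Sq G I) :=
  {f | app A (vals f) = times z (vals f)}

/-- The multiplicity of `z`: the von Neumann dimension over `G` of the eigenspace, that is the sum
of the squared lengths of the projections of the basis vectors at the identity of `G`. -/
noncomputable def mult {G : Type u} [Group G] {I : Type v} [Fintype I] (A : I → I → (G →₀ ℂ))
    (z : ℂ) : ℝ :=
  ∑ i, (1 - Metric.infDist (delta ((1 : G), i)) (eigenspace A z) ^ 2)

/-- The compression of the matrix `A` to the cosets in `F`: the matrix over the group algebra of `K`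
whose entry in the row `(x, i)` and the column `(y, j)` has the coefficient
`A i j (r x * k * (r y)⁻¹)` at `k`. -/
noncomputable def compress {G : Type u} [Group G] (K : Subgroup G) (F : Finset (G ⧸ K))
    (r : G ⧸ K → G) {I : Type v} (A : I → I → (G →₀ ℂ)) : F × I → F × I → (K →₀ ℂ) :=
  fun p q => (A p.2 q.2).comapDomain (fun k : K => r p.1 * k * (r q.1)⁻¹)
    (fun _ _ _ _ h => Subtype.ext (mul_left_cancel (mul_right_cancel h)))

/-- The identity and the elements of the supports of the entries of the matrix `A`. -/
def supp1 {G : Type u} [Group G] {I : Type v} (A : I → I → (G →₀ ℂ)) : Set G :=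
  {s | s = 1 ∨ ∃ i j, A i j s ≠ 0}

/-- The boundary of `F` with respect to the matrix `A`: the cosets `y` such that `s⁻¹ y` is in `F`
for some but not for all `s` in `supp1 A`. -/
def boundary {G : Type u} [Group G] (K : Subgroup G) {I : Type v} (A : I → I → (G →₀ ℂ))
    (F : Finset (G ⧸ K)) : Set (G ⧸ K) :=
  {y | (∃ s ∈ supp1 A, move s⁻¹ y ∈ F) ∧ ∃ s ∈ supp1 A, move s⁻¹ y ∉ F}

/-- The multiplicity of `z` for the compression of `A` to `F` differs from `|F|` times the
multiplicity for `A` by at most the size of `A` times the number of the boundary cosets. -/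
def Near {G : Type u} [Group G] (K : Subgroup G) (F : Finset (G ⧸ K)) (r : G ⧸ K → G) {I : Type v}
    [Fintype I] (A : I → I → (G →₀ ℂ)) (z : ℂ) : Prop :=
  |mult (compress K F r A) z - F.card * mult A z| ≤ Fintype.card I * (boundary K A F).ncard

/-- The normalised multiplicities for the compressions converge to the multiplicities for `A` along
the Følner sets, uniformly in `z`. -/
def Converge {G : Type u} [Group G] (K : Subgroup G) (r : G ⧸ K → G) {I : Type v} [Fintype I]
    (A : I → I → (G →₀ ℂ)) : Prop :=
  ∀ ε : ℝ, 0 < ε → ∃ (S : Finset G) (δ : ℝ), 0 < δ ∧ ∀ F, Folner K S δ F → ∀ z : ℂ,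
    |mult (compress K F r A) z / F.card - mult A z| ≤ ε

/-- The eigenvalues over `G` with coefficients in `R`: the `z` such that `A f = z f` has a nonzero
square-summable solution `f` for some finite square matrix `A` over the group algebra of `G` all of
whose coefficients are in `R`. -/
def eigenvalues (G : Type u) [Group G] (R : Set ℂ) : Set ℂ :=
  {z | ∃ (I : Type u) (_ : Fintype I) (A : I → I → (G →₀ ℂ)),
    (∀ i j g, A i j g ∈ R) ∧ ∃ f ∈ eigenspace A z, f ≠ 0}

end Pool.Agent.Q91.LB.Eig
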