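import Mathlib

set_option autoImplicit false

/-! Definitions: `L²`-Betti numbers of finite complexes and of their coverings, co-amenable
subgroups. -/

open scoped InnerProductSpace ENNReal

universe u

namespace Pool.Agent.Q91.LB.Bet

/-- Square-summable chains: square-summable functions on `G × {0, ..., n-1}`. -/
noncomputable abbrev Chain (G : Type u) (n : ℕ) := lp (fun _ : G × Fin n => ℂ) 2

open Classical in
/-- The basis vector at `x`. -/
noncomputable def delta {G : Type u} {n : ℕ} (x : G × Fin n) : Chain G n := lp.single 2 x 1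

/-- The value of the matrix `A` over the group algebra at a function. -/
def app {G : Type u} [Group G] {m n : ℕ} (A : Fin m → Fin n → (G →₀ ℂ)) (f : G × Fin n → ℂ) :
    G × Fin m → ℂ :=
  fun x => ∑ j, ∑ s ∈ (A x.2 j).support, A x.2 j s * f (s⁻¹ * x.1, j)

/-- The values of a chain. -/
def vals {G : Type u} {n : ℕ} (f : Chain G n) : G × Fin n → ℂ := fun x => f x

/-- The function `f` is zero outside `D`. -/
def SuppIn {G : Type u} {n : ℕ} (D : Set G) (f : G × Fin n → ℂ) : Prop :=
  ∀ x, x.1 ∉ D → f x = 0

/-- The inner product of two functions. -/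
noncomputable def dot {G : Type u} {n : ℕ} (f g : G × Fin n → ℂ) : ℂ :=
  ∑' x, g x * (starRingEnd ℂ) (f x)

/-- The square-summable cycles: `A f = 0`. -/
def cycles {G : Type u} [Group G] {m n : ℕ} (A : Fin m → Fin n → (G →₀ ℂ)) : Set (Chain G n) :=
  {f | app A (vals f) = 0}

/-- The boundaries `B h` of the square-summable chains `h` which are zero outside `D`. -/
def boundaries {G : Type u} [Group G] {n p : ℕ} (B : Fin n → Fin p → (G →₀ ℂ)) (D : Set G) :
    Set (Chain G n) :=
  {b | ∃ h : Chain G p, SuppIn D (vals h) ∧ vals b = app B (vals h)}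

/-- The square-summable harmonic chains: the cycles orthogonal to all boundaries. -/
def harmonic {G : Type u} [Group G] {m n p : ℕ} (A : Fin m → Fin n → (G →₀ ℂ))
    (B : Fin n → Fin p → (G →₀ ℂ)) : Set (Chain G n) :=
  {f | f ∈ cycles A ∧ ∀ b ∈ boundaries B Set.univ, dot (vals b) (vals f) = 0}

/-- The `L²`-Betti number `b_k(M)`: the von Neumann dimension over `G` of the space of the harmonic
chains, that is the sum of the squared lengths of the projections of the `n` basis vectors at the
identity of `G`. -/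
noncomputable def betti {G : Type u} [Group G] {m n p : ℕ} (A : Fin m → Fin n → (G →₀ ℂ))
    (B : Fin n → Fin p → (G →₀ ℂ)) : ℝ :=
  ∑ i, (1 - Metric.infDist (delta ((1 : G), i)) (harmonic A B) ^ 2)

/-- The union of the cosets in `F`. -/
def cosetsIn {G : Type u} [Group G] (K : Subgroup G) (F : Finset (G ⧸ K)) : Set G :=
  {g | (g : G ⧸ K) ∈ F}

/-- The cycles supported on the cosets in `F`. -/
def cyclesOn {G : Type u} [Group G] (K : Subgroup G) {m n : ℕ} (A : Fin m → Fin n → (G →₀ ℂ))
    (F : Finset (G ⧸ K)) : Set (Chain G n) :=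
  {f | f ∈ cycles A ∧ SuppIn (cosetsIn K F) (vals f)}

/-- The cycles supported on `F` which are limits of boundaries of chains supported on `F'`. -/
def nullOn {G : Type u} [Group G] (K : Subgroup G) {m n p : ℕ} (A : Fin m → Fin n → (G →₀ ℂ))
    (B : Fin n → Fin p → (G →₀ ℂ)) (F F' : Finset (G ⧸ K)) : Set (Chain G n) :=
  {f | f ∈ cyclesOn K A F ∧ f ∈ closure (boundaries B (cosetsIn K F'))}

/-- The von Neumann dimension over `K` of a space `V` of chains supported on the cosets in `F`
(`K` acts from the right; the vectors `delta (r x, i)` are a basis over `K` of the space of all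
chains supported on `F`). -/
noncomputable def dimK {G : Type u} [Group G] (K : Subgroup G) (r : G ⧸ K → G) {n : ℕ}
    (F : Finset (G ⧸ K)) (V : Set (Chain G n)) : ℝ :=
  ∑ x ∈ F, ∑ i, (1 - Metric.infDist (delta (r x, i)) V ^ 2)

/-- The von Neumann dimension over `K` of the image of the reduced `ℓ²`-homology of the piece `F` of
the covering `M_K` in that of the piece `F'`. -/
noncomputable def imageDim {G : Type u} [Group G] (K : Subgroup G) (r : G ⧸ K → G) {m n p : ℕ}
    (A : Fin m → Fin n → (G →₀ ℂ)) (B : Fin n → Fin p → (G →₀ ℂ)) (F F' : Finset (G ⧸ K)) : ℝ :=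
  dimK K r F (cyclesOn K A F) - dimK K r F (nullOn K A B F F')

/-- The `L²`-Betti number `b_k(M_K)` (over `K`) of the covering `M_K`, which may be infinite: the
supremum over the pieces `F` of the infimum over the pieces `F'` of `imageDim` (Lück's dimension of
the direct limit of the homology of the pieces). -/
noncomputable def bettiCover {G : Type u} [Group G] (K : Subgroup G) (r : G ⧸ K → G) {m n p : ℕ}
    (A : Fin m → Fin n → (G →₀ ℂ)) (B : Fin n → Fin p → (G →₀ ℂ)) : ℝ≥0∞ :=
  ⨆ F : Finset (G ⧸ K), ⨅ F' : Finset (G ⧸ K), ENNReal.ofReal (imageDim K r A B F F')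

/-- The union of the supports of the entries of the matrix `A`. -/
def supp {G : Type u} [Group G] {m n : ℕ} (A : Fin m → Fin n → (G →₀ ℂ)) : Set G :=
  {s | ∃ i j, A i j s ≠ 0}

/-- The action of `G` on the set of the cosets `gK`. -/
def move {G : Type u} [Group G] {K : Subgroup G} (s : G) (x : G ⧸ K) : G ⧸ K := s • x

/-- The outer boundary of `F` with respect to the matrix `A`: the cosets `y` such that `s⁻¹ y` is in
`F` for some but not for all `s` in the union of the supports of the entries. -/
def outer {G : Type u} [Group G] (K : Subgroup G) {m n : ℕ} (A : Fin m → Fin n → (G →₀ ℂ))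
    (F : Finset (G ⧸ K)) : Set (G ⧸ K) :=
  {y | (∃ s ∈ supp A, move s⁻¹ y ∈ F) ∧ ∃ s ∈ supp A, move s⁻¹ y ∉ F}

/-- The inner boundary of `F` with respect to the matrix `B`: the cosets `x` in `F` such that `s x`
is not in `F` for some `s` in the union of the supports of the entries. -/
def inner' {G : Type u} [Group G] (K : Subgroup G) {n p : ℕ} (B : Fin n → Fin p → (G →₀ ℂ))
    (F : Finset (G ⧸ K)) : Set (G ⧸ K) :=
  {x | x ∈ F ∧ ∃ s ∈ supp B, move s x ∉ F}

/-- `F` is a nonempty finite set of cosets and at most `δ |F|` elements of `F` are moved out of `F`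
by an element of `S`. -/
def Folner {G : Type u} [Group G] (K : Subgroup G) (S : Finset G) (δ : ℝ) (F : Finset (G ⧸ K)) :
    Prop :=
  F.Nonempty ∧ (({x | x ∈ F ∧ ∃ s ∈ S, move s x ∉ F} : Set (G ⧸ K)).ncard : ℝ) ≤ δ * F.card

/-- The subgroup `K` is co-amenable (Følner's condition for the action of `G` on `G / K`). -/
def CoAmenable {G : Type u} [Group G] (K : Subgroup G) : Prop :=
  ∀ (S : Finset G) (δ : ℝ), 0 < δ → ∃ F : Finset (G ⧸ K), Folner K S δ F

/-- The two bounds for `imageDim` for all finite sets of cosets. -/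
def Bounds {G : Type u} [Group G] (K : Subgroup G) (r : G ⧸ K → G) {m n p : ℕ}
    (A : Fin m → Fin n → (G →₀ ℂ)) (B : Fin n → Fin p → (G →₀ ℂ)) : Prop :=
  ∀ F F' : Finset (G ⧸ K),
    F.card * betti A B - m * (outer K A F).ncard ≤ imageDim K r A B F F' ∧
      (F ⊆ F' → imageDim K r A B F F' ≤ F.card * betti A B + n * (inner' K B F).ncard)

/-- `imageDim F F' / |F|` converges to `betti` along the Følner sets `F`, uniformly in `F'`. -/
def Converges {G : Type u} [Group G] (K : Subgroup G) (r : G ⧸ K → G) {m n p : ℕ}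
    (A : Fin m → Fin n → (G →₀ ℂ)) (B : Fin n → Fin p → (G →₀ ℂ)) : Prop :=
  ∀ ε : ℝ, 0 < ε → ∃ (S : Finset G) (δ : ℝ), 0 < δ ∧ ∀ F, Folner K S δ F → ∀ F', F ⊆ F' →
    |imageDim K r A B F F' / F.card - betti A B| ≤ ε

end Pool.Agent.Q91.LB.Bet
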