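import Pool.Agent.Q91.LB.Cpx

set_option autoImplicit false
set_option linter.unusedSectionVars false

/-! Duality for complexes over the group algebra. -/

open scoped InnerProductSpace InnerProduct ENNReal

universe u v w

namespace Pool.Agent.Q91.LB

open Pool.Agent.W649.ZL Filter Topology

section
variable {G : Type u} [Group G] {J : Type v} {J' : Type w} [Fintype J] [Fintype J']

theorem zero_of_mem_orth {S : Submodule ℂ (EE G J)} {x : EE G J} (h1 : x ∈ S) (h2 : x ∈ Sᗮ) :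
    x = 0 := by
  have h3 : x ∈ S ⊓ Sᗮ := ⟨h1, h2⟩
  rw [Submodule.inf_orthogonal_eq_bot] at h3
  exact (Submodule.mem_bot ℂ).1 h3

/-- a map which is split injective in homology does not lower the dimension of the harmonic
chains -/
theorem harm_le (Z R : Submodule ℂ (EE G J)) (Z' R' : Submodule ℂ (EE G J'))
    (hHc : IsClosed ((Z ⊓ Rᗮ : Submodule ℂ (EE G J)) : Set (EE G J)))
    (hHi : W649.ZL.Inv (Z ⊓ Rᗮ))
    (hZ' : IsClosed (Z' : Set (EE G J'))) (hR' : R' ≤ Z') (hHi' : W649.ZL.Inv (Z' ⊓ R'ᗮ))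
    (φ : EE G J →L[ℂ] EE G J') (hφ : Eqv φ) (h1 : ∀ x ∈ Z, φ x ∈ Z')
    (ψ : EE G J' →L[ℂ] EE G J) (h2 : ∀ y ∈ R', ψ y ∈ R) (h3 : ∀ x ∈ Z, ψ (φ x) - x ∈ R) :
    vd (Z ⊓ Rᗮ) ≤ vd (Z' ⊓ R'ᗮ) := by
  set H' : Submodule ℂ (EE G J') := Z' ⊓ R'ᗮ with hH'
  have hH'c : IsClosed (H' : Set (EE G J')) := by
    rw [hH', Submodule.coe_inf]
    exact hZ'.inter (Submodule.isClosed_orthogonal _)
  have : CompleteSpace H' := hH'c.completeSpace_coe
  set T : EE G J →L[ℂ] EE G J' := H'.starProjection.comp φ with hT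
  have hTe : Eqv T := by
    intro k f
    change H'.starProjection (φ (tr k f)) = tr k (H'.starProjection (φ f))
    rw [hφ, proj_tr hHi']
  have h4 := rank_nullity T hTe hHi hHc
  have h5 : vd ((Z ⊓ Rᗮ).map (T : EE G J →ₗ[ℂ] EE G J')) ≤ vd H' := by
    apply vd_mono
    rintro _ ⟨x, _, rfl⟩
    exact Submodule.starProjection_apply_mem _ _
  have h6 : (Z ⊓ Rᗮ) ⊓ LinearMap.ker (T : EE G J →ₗ[ℂ] EE G J') = ⊥ := by
    rw [eq_bot_iff]
    rintro x ⟨⟨hxZ, hxR⟩, hxT⟩
    have e1 : H'.starProjection (φ x) = 0 := hxT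
    have e2 : φ x ∈ H'ᗮ := (Submodule.starProjection_apply_eq_zero_iff H').1 e1
    have e3 : φ x ∈ R'.topologicalClosure := by
      set Rc := R'.topologicalClosure with hRc
      have hRcc : IsClosed (Rc : Set (EE G J')) := Submodule.isClosed_topologicalClosure _
      have : CompleteSpace Rc := hRcc.completeSpace_coe
      have hRcZ : Rc ≤ Z' := Submodule.topologicalClosure_minimal _ hR' hZ'
      set y := Rc.starProjection (φ x) with hy
      have hy1 : y ∈ Rc := Submodule.starProjection_apply_mem _ _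
      have hv : φ x - y ∈ Rcᗮ := Submodule.sub_starProjection_mem_orthogonal _
      have hv' : φ x - y ∈ R'ᗮ := by
        rw [← Submodule.orthogonal_closure]
        exact hv
      have hv2 : φ x - y ∈ H' := ⟨Z'.sub_mem (h1 x hxZ) (hRcZ hy1), hv'⟩
      have hy2 : y ∈ H'ᗮ := by
        rw [Submodule.mem_orthogonal]
        rintro z ⟨_, hz⟩
        have hz' : z ∈ Rcᗮ := by
          rw [hRc, Submodule.orthogonal_closure]
          exact hz
        rw [Submodule.mem_orthogonal] at hz'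
        rw [← inner_conj_symm, hz' y hy1, map_zero]
      have hv3 := zero_of_mem_orth hv2 (Submodule.sub_mem _ e2 hy2)
      rw [sub_eq_zero] at hv3
      rw [hv3]
      exact hy1
    have e4 : ψ (φ x) ∈ R.topologicalClosure :=
      map_mem_closure ψ.continuous e3 h2
    have e5 : x ∈ R.topologicalClosure := by
      have e : x = ψ (φ x) - (ψ (φ x) - x) := by abel
      rw [e]
      exact Submodule.sub_mem _ e4 (R.le_topologicalClosure (h3 x hxZ))
    have e6 : x ∈ (R.topologicalClosure)ᗮ := by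
      rw [Submodule.orthogonal_closure]
      exact hxR
    exact (Submodule.mem_bot ℂ).2 (zero_of_mem_orth e5 e6)
  rw [h6, vd_bot, zero_add] at h4
  rw [h4]
  exact h5

/-- the sign of `g` as a complex number -/
noncomputable def sg (χ : G →* ℤˣ) (g : G) : ℂ := ((χ g : ℤ) : ℂ)

theorem sg_mul (χ : G →* ℤˣ) (g h : G) : sg χ (g * h) = sg χ g * sg χ h := by
  unfold sg
  rw [map_mul]
  push_cast
  rfl

theorem sg_sq (χ : G →* ℤˣ) (g : G) : sg χ g * sg χ g = 1 := by
  unfold sg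
  have h : ((χ g : ℤ)) * (χ g : ℤ) = 1 := by
    rw [← Units.val_mul, Int.units_mul_self]
    rfl
  exact_mod_cast h

theorem sg_one (χ : G →* ℤˣ) : sg χ 1 = 1 := by
  unfold sg
  rw [map_one]
  simp

theorem sg_inv (χ : G →* ℤˣ) (g : G) : sg χ g⁻¹ = sg χ g := by
  have h1 := sg_mul χ g⁻¹ g
  rw [inv_mul_cancel, sg_one] at h1
  have h2 := sg_sq χ g
  calc sg χ g⁻¹ = sg χ g⁻¹ * (sg χ g * sg χ g) := by rw [h2, mul_one]
    _ = (sg χ g⁻¹ * sg χ g) * sg χ g := by ring
    _ = sg χ g := by rw [← h1, one_mul]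

theorem sg_conj (χ : G →* ℤˣ) (g : G) : (starRingEnd ℂ) (sg χ g) = sg χ g := by
  unfold sg
  exact map_intCast (starRingEnd ℂ) _

theorem sg_norm (χ : G →* ℤˣ) (g : G) : ‖sg χ g‖ = 1 := by
  have h := congrArg norm (sg_sq χ g)
  rw [norm_mul, norm_one] at h
  nlinarith [norm_nonneg (sg χ g)]

theorem memlp_tw (χ : G →* ℤˣ) (f : EE G J) :
    Memℓp (fun x : G × J => sg χ x.1 * f x) 2 := by
  rw [memlp_two_iff]
  refine ((memlp_two_iff _).1 (lp.memℓp f)).congr fun x => ?_
  rw [norm_mul, sg_norm, one_mul]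

/-- multiplication by the sign -/
noncomputable def tw (χ : G →* ℤˣ) : EE G J →L[ℂ] EE G J :=
  LinearMap.mkContinuous
    { toFun := fun f => ⟨fun x => sg χ x.1 * f x, memlp_tw χ f⟩
      map_add' := fun f g => by
        ext x
        change sg χ x.1 * (f x + g x) = sg χ x.1 * f x + sg χ x.1 * g x
        rw [mul_add]
      map_smul' := fun c f => by
        ext x
        change sg χ x.1 * (c * f x) = c * (sg χ x.1 * f x)
        ring } 1
    (fun f => by
      rw [one_mul]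
      refine (sq_le_sq₀ (norm_nonneg _) (norm_nonneg _)).1 ?_
      rw [norm_sq_tsum, norm_sq_tsum]
      apply le_of_eq
      refine tsum_congr fun x => ?_
      change ‖sg χ x.1 * f x‖ ^ 2 = _
      rw [norm_mul, sg_norm, one_mul])

theorem tw_apply (χ : G →* ℤˣ) (f : EE G J) (x : G × J) : tw χ f x = sg χ x.1 * f x := rfl

theorem tw_tw (χ : G →* ℤˣ) (f : EE G J) : tw χ (tw χ f) = f := by
  ext x
  rw [tw_apply, tw_apply, ← mul_assoc, sg_sq, one_mul]

theorem inner_tw (χ : G →* ℤˣ) (f g : EE G J) : ⟪tw χ f, g⟫_ℂ = ⟪f, tw χ g⟫_ℂ := by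
  rw [lp.inner_eq_tsum, lp.inner_eq_tsum]
  refine tsum_congr fun x => ?_
  rw [tw_apply, tw_apply]
  simp only [RCLike.inner_apply, map_mul, sg_conj]
  ring

theorem isometry_tw (χ : G →* ℤˣ) : Isometry (tw χ : EE G J →L[ℂ] EE G J) := by
  apply AddMonoidHomClass.isometry_of_norm
  intro f
  have h1 : ‖tw χ f‖ ^ 2 = ‖f‖ ^ 2 := by
    rw [norm_sq_tsum, norm_sq_tsum]
    refine tsum_congr fun x => ?_
    rw [tw_apply, norm_mul, sg_norm, one_mul]
  exact (sq_eq_sq₀ (norm_nonneg _) (norm_nonneg _)).1 h1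

theorem tw_dl (χ : G →* ℤˣ) (y : G × J) : tw χ (dl y) = sg χ y.1 • (dl y : EE G J) := by
  ext x
  rw [tw_apply]
  change _ = sg χ y.1 * (dl y : EE G J) x
  by_cases hx : x = y
  · rw [hx]
  · rw [dl_apply_ne _ _ hx, mul_zero, mul_zero]

/-- the dimension is invariant under the multiplication by the sign -/
theorem vd_tw (χ : G →* ℤˣ) (V W : Submodule ℂ (EE G J)) (hV : IsClosed (V : Set (EE G J)))
    (hVW : ∀ x, x ∈ W ↔ tw χ x ∈ V) : vd W = vd V := by
  have hW : IsClosed (W : Set (EE G J)) := by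
    have e : (W : Set (EE G J)) = (fun x => tw χ x) ⁻¹' (V : Set (EE G J)) := by
      ext x
      exact hVW x
    rw [e]
    exact hV.preimage (tw χ).continuous
  rw [vd_eq_infDist _ hV, vd_eq_infDist _ hW]
  refine Finset.sum_congr rfl fun j _ => ?_
  have e : (V : Set (EE G J)) = (fun x => tw χ x) '' (W : Set (EE G J)) := by
    ext x
    constructor
    · intro hx
      refine ⟨tw χ x, (hVW _).2 ?_, tw_tw χ x⟩
      rw [tw_tw]
      exact hx
    · rintro ⟨z, hz, rfl⟩
      exact (hVW z).1 hz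
  have e2 : (dl ((1 : G), j) : EE G J) = tw χ (dl ((1 : G), j)) := by
    rw [tw_dl, sg_one, one_smul]
  rw [e]
  nth_rw 2 [e2]
  rw [Metric.infDist_image (isometry_tw χ)]

end

section
variable {G : Type u} [Group G] {I : Type v} {J : Type w} [Fintype I] [Fintype J]
  [DecidableEq I] [DecidableEq J]

theorem opM_dl (A : I → J → (G →₀ ℂ)) (y : G × J) (x : G × I) :
    opM A (dl y) x = A x.2 y.2 (x.1 * y.1⁻¹) := by
  rw [opM_apply, Finset.sum_eq_single y.2]
  · by_cases hs : x.1 * y.1⁻¹ ∈ (A x.2 y.2).support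
    · rw [Finset.sum_eq_single (x.1 * y.1⁻¹)]
      · have h2 : (((x.1 * y.1⁻¹)⁻¹ * x.1, y.2) : G × J) = y := by
          refine Prod.ext ?_ rfl
          change (x.1 * y.1⁻¹)⁻¹ * x.1 = y.1
          group
        rw [h2, dl_apply_self, mul_one]
      · intro s _ hs
        rw [dl_apply_ne, mul_zero]
        intro h
        apply hs
        have h3 := congrArg Prod.fst h
        change s⁻¹ * x.1 = y.1 at h3
        rw [← h3]
        group
      · intro h; exact absurd hs h
    · rw [Finsupp.notMem_support_iff.1 hs]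
      refine Finset.sum_eq_zero fun s hs' => ?_
      rw [dl_apply_ne, mul_zero]
      intro h
      apply hs
      have h3 := congrArg Prod.fst h
      change s⁻¹ * x.1 = y.1 at h3
      have h4 : x.1 * y.1⁻¹ = s := by
        rw [← h3]
        group
      rw [h4]
      exact hs'
  · intro j _ hj
    refine Finset.sum_eq_zero fun s _ => ?_
    rw [dl_apply_ne, mul_zero]
    intro h
    exact hj (congrArg Prod.snd h)
  · intro h; exact absurd (Finset.mem_univ _) h

theorem dual_apply (χ : G →* ℤˣ) (A : I → J → (G →₀ ℂ)) (i : I) (j : J) (g : G) :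
    dual χ A j i g = sg χ g * (starRingEnd ℂ) (A i j g⁻¹) := by
  unfold dual
  rw [Finsupp.sum_apply, Finsupp.sum, Finset.sum_eq_single g⁻¹]
  · rw [inv_inv, Finsupp.single_eq_same]
    change sg χ g⁻¹ * _ = _
    rw [sg_inv]
  · intro s _ hs
    apply Finsupp.single_eq_of_ne
    intro h
    apply hs
    rw [h, inv_inv]
  · intro h
    rw [Finsupp.notMem_support_iff.1 h, map_zero, mul_zero, Finsupp.single_zero]
    rfl

theorem opM_dual (χ : G →* ℤˣ) (A : I → J → (G →₀ ℂ)) (f : EE G I) (g : EE G J) :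
    ⟪opM (dual χ A) f, g⟫_ℂ = ⟪f, tw χ (opM A (tw χ g))⟫_ℂ := by
  set S : EE G J →L[ℂ] EE G I := (tw χ).comp ((opM A).comp (tw χ)) with hS
  have h1 : opM (dual χ A) f = ContinuousLinearMap.adjoint S f := by
    refine ext_dl _ _ (fun x => ?_) f
    ext y
    have h2 : (ContinuousLinearMap.adjoint S (dl x) : EE G J) y
        = (starRingEnd ℂ) (S (dl y) x) := by
      rw [← inner_dl_left y, ContinuousLinearMap.adjoint_inner_right, ← inner_conj_symm,
        inner_dl_left]
    have h3 : S (dl y) x = sg χ x.1 * (sg χ y.1 * A x.2 y.2 (x.1 * y.1⁻¹)) := by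
      change tw χ (opM A (tw χ (dl y))) x = _
      rw [tw_apply, tw_dl, map_smul]
      change sg χ x.1 * (sg χ y.1 * opM A (dl y) x) = _
      rw [opM_dl]
    rw [h2, h3, opM_dl, dual_apply, map_mul, map_mul, sg_conj, sg_conj, sg_mul, sg_inv, mul_inv_rev,
      inv_inv]
    ring
  rw [h1, ContinuousLinearMap.adjoint_inner_left]
  rfl

theorem ker_dual (χ : G →* ℤˣ) (A : I → J → (G →₀ ℂ)) (x : EE G I) :
    opM (dual χ A) x = 0 ↔ tw χ x ∈ (LinearMap.range (opM A : EE G J →ₗ[ℂ] EE G I))ᗮ := by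
  rw [Submodule.mem_orthogonal']
  constructor
  · rintro h _ ⟨z, rfl⟩
    change ⟪tw χ x, opM A z⟫_ℂ = 0
    have h1 := opM_dual χ A x (tw χ z)
    rw [h, inner_zero_left, tw_tw, ← inner_tw] at h1
    exact h1.symm
  · intro h
    have h1 : ⟪opM (dual χ A) x, opM (dual χ A) x⟫_ℂ = 0 := by
      rw [opM_dual, ← inner_tw]
      exact h _ ⟨_, rfl⟩
    exact inner_self_eq_zero.1 h1

theorem range_dual (χ : G →* ℤˣ) (B : I → J → (G →₀ ℂ)) (x : EE G J) :
    x ∈ (LinearMap.range (opM (dual χ B) : EE G I →ₗ[ℂ] EE G J))ᗮ ↔ opM B (tw χ x) = 0 := by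
  rw [Submodule.mem_orthogonal]
  constructor
  · intro h
    have h1 := h _ ⟨tw χ (opM B (tw χ x)), rfl⟩
    change ⟪opM (dual χ B) (tw χ (opM B (tw χ x))), x⟫_ℂ = 0 at h1
    rw [opM_dual, inner_tw, tw_tw] at h1
    exact inner_self_eq_zero.1 h1
  · rintro h _ ⟨y, rfl⟩
    change ⟪opM (dual χ B) y, x⟫_ℂ = 0
    rw [opM_dual, h, map_zero, inner_zero_right]

end

end Pool.Agent.Q91.LB
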