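import Pool.Agent.Q91.LB.Defe
import Pool.Agent.Q91.LB.Dual
import Pool.Agent.W649.ZL.Fam

set_option autoImplicit false
set_option linter.unusedSectionVars false

/-! Eigenvalues of matrices over a group algebra and of their compressions. -/

open scoped InnerProductSpace ENNReal

universe u v

namespace Pool.Agent.Q91.LB.Eig

open Pool.Agent.Q91.LB
open Pool.Agent.Q91.LB.Bet (move CoAmenable Folner)
open Pool.Agent.W649.ZL (EE dl dl_apply_self dl_apply_ne vd vd_nonneg vd_mono vd_eq_infDist cosub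
  vd_cosub rank_nullity inv_ker memlp_two_iff eq_bot_of_vd_eq_zero vd_bot)

section
variable {G : Type u} [Group G] {I : Type v} [Fintype I]

theorem delta_eq (x : G × I) : delta x = dl x := by
  classical
  ext y
  unfold delta
  by_cases hy : y = x
  · subst hy
    rw [dl_apply_self]
    exact lp.single_apply_self (E := fun _ : G × I => ℂ) 2 y 1
  · rw [dl_apply_ne _ _ hy]
    exact lp.single_apply_ne (E := fun _ : G × I => ℂ) 2 x 1 hy

variable [DecidableEq I]

/-- the operator minus `z` -/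
noncomputable def opz (A : I → I → (G →₀ ℂ)) (z : ℂ) : EE G I →L[ℂ] EE G I :=
  opM A - z • ContinuousLinearMap.id ℂ _

theorem opz_apply (A : I → I → (G →₀ ℂ)) (z : ℂ) (f : EE G I) : opz A z f = opM A f - z • f := rfl

theorem app_eq (A : I → I → (G →₀ ℂ)) (f : Sq G I) (x : G × I) :
    app A (vals f) x = opM A f x := (opM_apply A f x).symm

theorem eigenspace_eq (A : I → I → (G →₀ ℂ)) (z : ℂ) :
    eigenspace A z = (LinearMap.ker (opz A z : EE G I →ₗ[ℂ] EE G I) : Set (EE G I)) := by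
  ext f
  constructor
  · intro h
    change opM A f - z • f = 0
    rw [sub_eq_zero]
    ext x
    rw [← app_eq]
    exact congrFun h x
  · intro h
    have h' : opM A f - z • f = 0 := h
    rw [sub_eq_zero] at h'
    change app A (vals f) = times z (vals f)
    funext x
    rw [app_eq, h']
    rfl

theorem mult_eq (A : I → I → (G →₀ ℂ)) (z : ℂ) :
    mult A z = vd (LinearMap.ker (opz A z : EE G I →ₗ[ℂ] EE G I)) := by
  rw [vd_eq_infDist _ (opz A z).isClosed_ker]
  unfold mult
  rw [eigenspace_eq]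
  simp only [delta_eq]

/-- the matrix `A - z` -/
noncomputable def shift (A : I → I → (G →₀ ℂ)) (z : ℂ) : I → I → (G →₀ ℂ) := fun i j =>
  A i j - if i = j then Finsupp.single 1 z else 0

theorem opM_shift (A : I → I → (G →₀ ℂ)) (z : ℂ) (f : EE G I) :
    opM (shift A z) f = opz A z f := by
  refine ext_dl (opM (shift A z)) (opz A z) (fun y => ?_) f
  ext x
  rw [opz_apply]
  change opM (shift A z) (dl y) x = opM A (dl y) x - z * (dl y : EE G I) x
  rw [opM_dl, opM_dl]
  unfold shift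
  rw [Finsupp.sub_apply]
  congr 1
  by_cases hx : x = y
  · subst hx
    rw [if_pos rfl, mul_inv_cancel, Finsupp.single_eq_same, dl_apply_self, mul_one]
  · rw [dl_apply_ne _ _ hx, mul_zero]
    split_ifs with h
    · apply Finsupp.single_eq_of_ne
      intro h2
      apply hx
      refine Prod.ext ?_ h
      exact mul_inv_eq_one.1 h2
    · rfl

theorem opz_eqv (A : I → I → (G →₀ ℂ)) (z : ℂ) : W649.ZL.Eqv (opz A z) := by
  intro k f
  rw [← opM_shift, ← opM_shift, opM_eqv]

open Classical in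
/-- the supports and the identity -/
noncomputable def suppM (A : I → I → (G →₀ ℂ)) : Finset G :=
  {1} ∪ Finset.univ.biUnion fun i => Finset.univ.biUnion fun j => (A i j).support

theorem mem_suppM (A : I → I → (G →₀ ℂ)) (s : G) : s ∈ suppM A ↔ s ∈ supp1 A := by
  unfold suppM supp1
  simp

theorem one_mem_suppM (A : I → I → (G →₀ ℂ)) : 1 ∈ suppM A := (mem_suppM A 1).2 (Or.inl rfl)

theorem sub_suppM (A : I → I → (G →₀ ℂ)) (z : ℂ) (i j : I) :
    (shift A z i j).support ⊆ suppM A := by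
  intro s hs
  rw [mem_suppM]
  by_cases h1 : s = 1
  · exact Or.inl h1
  · refine Or.inr ⟨i, j, ?_⟩
    have h2 := Finsupp.mem_support_iff.1 hs
    unfold shift at h2
    rw [Finsupp.sub_apply] at h2
    have h3 : (if i = j then Finsupp.single (1 : G) z else 0) s = 0 := by
      split_ifs
      · exact Finsupp.single_eq_of_ne h1
      · rfl
    rw [h3, sub_zero] at h2
    exact h2

variable (K : Subgroup G) (F : Finset (G ⧸ K)) (r : G ⧸ K → G) [DecidableEq (G ⧸ K)]

theorem boundary_eq (A : I → I → (G →₀ ℂ)) :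
    (boundary K A F).ncard = (bd K F (suppM A)).card := by
  have h1 : boundary K A F = Subtype.val '' (bd K F (suppM A) : Set (imF K F (suppM A))) := by
    ext y
    constructor
    · rintro ⟨⟨s, hs, hsF⟩, s', hs', hsF'⟩
      have h3 := mem_imF K F ((mem_suppM A s).2 hs) hsF
      unfold move at h3
      rw [smul_inv_smul] at h3
      exact ⟨⟨y, h3⟩, Finset.mem_coe.2 (Finset.mem_filter.2 ⟨Finset.mem_univ _, s',
        (mem_suppM A s').2 hs', hsF'⟩), rfl⟩
    · rintro ⟨⟨y, hy⟩, h2, rfl⟩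
      obtain ⟨s', hs', hsF'⟩ := (Finset.mem_filter.1 (Finset.mem_coe.1 h2)).2
      obtain ⟨⟨s, x⟩, h3, h4⟩ := Finset.mem_image.1 hy
      obtain ⟨hs, hx⟩ := Finset.mem_product.1 h3
      refine ⟨⟨s, (mem_suppM A s).1 hs, ?_⟩, s', (mem_suppM A s').1 hs', hsF'⟩
      change s⁻¹ • y ∈ F
      rw [← h4, inv_smul_smul]
      exact hx
  rw [h1, Set.ncard_image_of_injective _ Subtype.val_injective, Set.ncard_coe_finset]

theorem opM_compress (hr : ∀ x, (r x : G ⧸ K) = x) (A : I → I → (G →₀ ℂ))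
    (w : EE K (F × I)) : opM (compress K F r A) w = Rf K F r hr (opM A (exF K F r hr w)) := by
  refine ext_dl (opM (compress K F r A)) ((Rf K F r hr).comp ((opM A).comp (exF K F r hr)))
    (fun y => ?_) w
  ext x
  change opM (compress K F r A) (dl y) x = Rf K F r hr (opM A (exF K F r hr (dl y))) x
  rw [opM_dl, exF_dl', Rf_apply, opM_dl]
  unfold compress
  rw [Finsupp.comapDomain_apply]
  congr 1
  change r x.2.1 * ((x.1 * y.1⁻¹ : K) : G) * (r y.2.1)⁻¹
    = r x.2.1 * (x.1 : G) * (r y.2.1 * (y.1 : G))⁻¹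
  rw [Subgroup.coe_mul, Subgroup.coe_inv]
  group

theorem opz_compress (hr : ∀ x, (r x : G ⧸ K) = x) (A : I → I → (G →₀ ℂ)) (z : ℂ)
    (w : EE K (F × I)) :
    opz (compress K F r A) z w = TT K F r hr (shift A z) F w := by
  rw [opz_apply, TT_apply, opM_shift, opz_apply, opM_compress K F r hr, map_sub, map_smul, Rf_exF]

theorem ker_compress (hr : ∀ x, (r x : G ⧸ K) = x) (A : I → I → (G →₀ ℂ)) (z : ℂ) :
    LinearMap.ker (opz (compress K F r A) z : EE K (F × I) →ₗ[ℂ] EE K (F × I))
      = LinearMap.ker (TT K F r hr (shift A z) F : EE K (F × I) →ₗ[ℂ] EE K (F × I)) := by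
  ext w
  change opz (compress K F r A) z w = 0 ↔ TT K F r hr (shift A z) F w = 0
  rw [opz_compress K F r hr]

theorem ker_shift (A : I → I → (G →₀ ℂ)) (z : ℂ) :
    LinearMap.ker (opz A z : EE G I →ₗ[ℂ] EE G I)
      = LinearMap.ker (opM (shift A z) : EE G I →ₗ[ℂ] EE G I) := by
  ext w
  change opz A z w = 0 ↔ opM (shift A z) w = 0
  rw [opM_shift]

/-- the lower bound -/
theorem ge (hr : ∀ x, (r x : G ⧸ K) = x) (A : I → I → (G →₀ ℂ)) (z : ℂ) :
    F.card * mult A z - (Fintype.card I : ℝ) * (boundary K A F).ncard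
      ≤ mult (compress K F r A) z := by
  rw [mult_eq, mult_eq, boundary_eq, ker_compress K F r hr, ker_shift]
  have h1 := lower K F r hr (shift A z) (suppM A) (sub_suppM A z)
    (LinearMap.ker (opM (shift A z) : EE G I →ₗ[ℂ] EE G I)) ⊥ (opM (shift A z)).isClosed_ker
    (inv_ker _ (opM_eqv _)) (fun f hf => hf) (by rw [Submodule.bot_coe]; exact isClosed_singleton)
    (fun f hf => by rw [(Submodule.mem_bot ℂ).1 hf, map_zero])
    (fun f hf h _ => by rw [(Submodule.mem_bot ℂ).1 hf, inner_zero_left])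
  have h2 : vd (pb K F r hr (LinearMap.ker (opM (shift A z) : EE G I →ₗ[ℂ] EE G I)))
      ≤ vd (LinearMap.ker (TT K F r hr (shift A z) F : EE K (F × I) →ₗ[ℂ] EE K (F × I))) := by
    apply vd_mono
    intro w hw
    change TT K F r hr (shift A z) F w = 0
    have hw' : opM (shift A z) (exF K F r hr w) = 0 := hw
    rw [TT_apply, hw', map_zero]
  have h3 := vd_nonneg (pb K F r hr (⊥ : Submodule ℂ (EE G I)))
  linarith

/-- the upper bound -/
theorem le (hr : ∀ x, (r x : G ⧸ K) = x) (A : I → I → (G →₀ ℂ)) (z : ℂ) :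
    mult (compress K F r A) z
      ≤ F.card * mult A z + (Fintype.card I : ℝ) * (boundary K A F).ncard := by
  rw [mult_eq, mult_eq, boundary_eq, ker_compress K F r hr, ker_shift]
  set B := shift A z with hB
  set S := suppM A with hSdef
  have hS : ∀ i j, (B i j).support ⊆ S := sub_suppM A z
  set C := TT K F r hr B F with hC
  set U := LinearMap.ker (C : EE K (F × I) →ₗ[ℂ] EE K (F × I)) with hU
  have hUc : IsClosed (U : Set (EE K (F × I))) := C.isClosed_ker
  have hUi : W649.ZL.Inv U := inv_ker C (TT_eqv K F r hr B F)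
  set T := TT K F r hr B (imF K F S) with hT
  have h1 := rank_nullity T (TT_eqv K F r hr B _) hUi hUc
  have h2 : vd (U ⊓ LinearMap.ker (T : EE K (F × I) →ₗ[ℂ] EE K (imF K F S × I)))
      ≤ F.card * vd (LinearMap.ker (opM B : EE G I →ₗ[ℂ] EE G I)) := by
    refine le_trans ?_ (vd_pb_le K F r hr _ (opM B).isClosed_ker (inv_ker (opM B) (opM_eqv B)))
    apply vd_mono
    rintro w ⟨_, hw⟩
    change opM B (exF K F r hr w) = 0
    have hw0 : Rf K (imF K F S) r hr (opM B (exF K F r hr w)) = 0 := hw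
    have hsupp := opM_zero K F B S hS (exF K F r hr w) (fun x hx => exF_zero K F r hr w x hx)
    rw [← exF_Rf K (imF K F S) r hr _ hsupp, hw0, map_zero]
  have h3 : vd (U.map (T : EE K (F × I) →ₗ[ℂ] EE K (imF K F S × I)))
      ≤ (Fintype.card I : ℝ) * (bd K F S).card := by
    have e : vd (cosub K (bd K F S ×ˢ (Finset.univ : Finset I)))
        = (Fintype.card I : ℝ) * (bd K F S).card := by
      rw [vd_cosub, Finset.card_product, Finset.card_univ]
      push_cast
      ring
    rw [← e]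
    apply vd_mono
    rintro _ ⟨w, hw, rfl⟩
    rintro k ⟨y, i⟩ hy
    have hw0 : Rf K F r hr (opM B (exF K F r hr w)) = 0 := hw
    change Rf K (imF K F S) r hr (opM B (exF K F r hr w)) (k, (y, i)) = 0
    have h6 : ∀ s ∈ S, s⁻¹ • (y : G ⧸ K) ∈ F := by
      intro s hs
      by_contra hcon
      exact hy (Finset.mem_product.2 ⟨Finset.mem_filter.2 ⟨Finset.mem_univ _, s, hs, hcon⟩,
        Finset.mem_univ _⟩)
    have h7 : (y : G ⧸ K) ∈ F := by
      have h8 := h6 1 (one_mem_suppM A)
      rwa [inv_one, one_smul] at h8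
    have h9 := congrArg (fun g : EE K (F × I) => g (k, (⟨(y : G ⧸ K), h7⟩, i))) hw0
    exact h9
  linarith

end

section
variable {G : Type u} [Group G] (K : Subgroup G)

theorem boundary_small {I : Type v} [Fintype I] (A : I → I → (G →₀ ℂ)) (ε : ℝ) (hε : 0 < ε) :
    ∃ (S : Finset G) (δ : ℝ), 0 < δ ∧ ∀ F : Finset (G ⧸ K), Folner K S δ F →
      (Fintype.card I : ℝ) * (boundary K A F).ncard ≤ ε * F.card := by
  classical
  set c : ℝ := (Fintype.card I : ℝ) * (suppM A).card + 1 with hc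
  have hc0 : 0 < c := by positivity
  set S1 : Finset G := (suppM A ×ˢ suppM A).image fun p => p.1⁻¹ * p.2 with hS1
  refine ⟨S1, ε / c, by positivity, fun F hF => ?_⟩
  set Q : Finset (G ⧸ K) := F.filter fun x => ∃ s ∈ S1, s • x ∉ F with hQ
  have hQn : ({x | x ∈ F ∧ ∃ s ∈ S1, s • x ∉ F} : Set (G ⧸ K)).ncard = Q.card := by
    rw [← Set.ncard_coe_finset]
    congr 1
    ext x
    rw [Finset.mem_coe, hQ, Finset.mem_filter]
    rfl
  have hb : (({x | x ∈ F ∧ ∃ s ∈ S1, s • x ∉ F} : Set (G ⧸ K)).ncard : ℝ) ≤ ε / c * F.card := hF.2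
  rw [hQn] at hb
  have h1 : boundary K A F ⊆ ((suppM A ×ˢ Q).image fun p => p.1 • p.2 : Finset (G ⧸ K)) := by
    rintro y ⟨⟨s, hs, hsF⟩, s', hs', hsF'⟩
    rw [Finset.mem_coe, Finset.mem_image]
    refine ⟨(s, s⁻¹ • y), Finset.mem_product.2 ⟨(mem_suppM A s).2 hs, Finset.mem_filter.2 ⟨hsF,
      s'⁻¹ * s, Finset.mem_image.2 ⟨(s', s), Finset.mem_product.2 ⟨(mem_suppM A s').2 hs',
        (mem_suppM A s).2 hs⟩, rfl⟩, ?_⟩⟩, smul_inv_smul s y⟩
    rw [mul_smul, smul_inv_smul]
    exact hsF'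
  have h2 : (boundary K A F).ncard ≤ (suppM A).card * Q.card := by
    refine (Set.ncard_le_ncard h1 (Finset.finite_toSet _)).trans ?_
    rw [Set.ncard_coe_finset]
    refine Finset.card_image_le.trans ?_
    rw [Finset.card_product]
  have h3 : ((boundary K A F).ncard : ℝ) ≤ (suppM A).card * Q.card := by exact_mod_cast h2
  calc (Fintype.card I : ℝ) * (boundary K A F).ncard
      ≤ (Fintype.card I : ℝ) * ((suppM A).card * (ε / c * F.card)) := by
        gcongr
        exact h3.trans (by gcongr)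
    _ = ((Fintype.card I : ℝ) * (suppM A).card) / c * (ε * F.card) := by ring
    _ ≤ 1 * (ε * F.card) := by
        gcongr
        rw [div_le_one hc0, hc]
        linarith
    _ = _ := one_mul _

theorem mult_pos {I : Type v} [Fintype I] (A : I → I → (G →₀ ℂ)) (z : ℂ) (f : Sq G I)
    (hf : f ∈ eigenspace A z) (hf0 : f ≠ 0) : 0 < mult A z := by
  classical
  by_contra hcon
  push Not at hcon
  rw [mult_eq] at hcon
  have h1 := eq_bot_of_vd_eq_zero _ (inv_ker (opz A z) (opz_eqv A z)) hcon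
  rw [eigenspace_eq, h1] at hf
  exact hf0 ((Submodule.mem_bot ℂ).1 hf)

theorem exists_of_mult_pos {I : Type v} [Fintype I] (A : I → I → (G →₀ ℂ)) (z : ℂ)
    (h : 0 < mult A z) : ∃ f ∈ eigenspace A z, f ≠ 0 := by
  classical
  by_contra hcon
  push Not at hcon
  rw [mult_eq] at h
  have h1 : LinearMap.ker (opz A z : EE G I →ₗ[ℂ] EE G I) = ⊥ := by
    rw [eq_bot_iff]
    intro f hf
    rw [Submodule.mem_bot]
    apply hcon
    rw [eigenspace_eq]
    exact hf
  rw [h1, vd_bot] at h
  exact lt_irrefl _ h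

theorem le_eig (hK : CoAmenable K) (r : G ⧸ K → G) (hr : ∀ x, (r x : G ⧸ K) = x) (R : Set ℂ) :
    eigenvalues G R ⊆ eigenvalues K R := by
  classical
  rintro z ⟨I, hI, A, hA, f, hf, hf0⟩
  have h0 := mult_pos A z f hf hf0
  obtain ⟨S, δ, hδ, hS⟩ := boundary_small K A (mult A z / 2) (by positivity)
  obtain ⟨F, hF⟩ := hK S δ hδ
  have h1 := hS F hF
  have h2 := ge K F r hr A z
  have hFc : (0 : ℝ) < F.card := by exact_mod_cast hF.1.card_pos
  have h3 : 0 < mult (compress K F r A) z := by nlinarith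
  refine ⟨F × I, inferInstance, compress K F r A, ?_, exists_of_mult_pos _ _ h3⟩
  intro p q k
  unfold compress
  rw [Finsupp.comapDomain_apply]
  exact hA _ _ _

theorem eig_le (R : Set ℂ) (hR : (0 : ℂ) ∈ R) : eigenvalues K R ⊆ eigenvalues G R := by
  classical
  rintro z ⟨I, hI, B, hB, f, hf, hf0⟩
  set e : K ↪ G := ⟨fun k => (k : G), Subtype.val_injective⟩ with he
  set A : I → I → (G →₀ ℂ) := fun i j => (B i j).embDomain e with hA
  set ι : K × I → G × I := fun x => ((x.1 : G), x.2) with hι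
  have hinj : Function.Injective ι := by
    intro x y h
    have h1 := (Prod.mk.inj h).1
    have h2 := (Prod.mk.inj h).2
    exact Prod.ext (Subtype.ext h1) h2
  set g0 : G × I → ℂ := Function.extend ι (fun x => f x) 0 with hg0
  have hg1 : ∀ x : K × I, g0 (ι x) = f x := fun x => hinj.extend_apply _ _ x
  have hg2 : ∀ x : G × I, x.1 ∉ K → g0 x = 0 := by
    intro x hx
    apply Function.extend_apply'
    rintro ⟨y, hy⟩
    apply hx
    rw [← hy]
    exact y.1.2
  have hg3 : ∀ x : G × I, ∀ hx : x.1 ∈ K, g0 x = f (⟨x.1, hx⟩, x.2) := by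
    intro x hx
    exact hg1 (⟨x.1, hx⟩, x.2)
  have hmem : Memℓp g0 2 := by
    rw [memlp_two_iff]
    have h1 := (memlp_two_iff _).1 (lp.memℓp f)
    refine (hinj.summable_iff ?_).1 ?_
    · intro x hx
      rw [hg2 x, norm_zero]
      · norm_num
      · intro hxK
        exact hx ⟨(⟨x.1, hxK⟩, x.2), rfl⟩
    · refine h1.congr fun p => ?_
      change _ = ‖g0 (ι p)‖ ^ 2
      rw [hg1]
  refine ⟨I, hI, A, ?_, ⟨g0, hmem⟩, ?_, ?_⟩
  · intro i j g
    by_cases hg : g ∈ K
    · have h1 : A i j g = B i j ⟨g, hg⟩ := Finsupp.embDomain_apply_self e (B i j) ⟨g, hg⟩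
      rw [h1]
      exact hB _ _ _
    · have h1 : A i j g = 0 := by
        apply Finsupp.embDomain_of_notMem_range
        rintro ⟨y, hy⟩
        apply hg
        rw [← hy]
        exact y.2
      rw [h1]
      exact hR
  · change app A (vals ⟨g0, hmem⟩) = times z (vals ⟨g0, hmem⟩)
    funext x
    change ∑ j, ∑ s ∈ (A x.2 j).support, A x.2 j s * g0 (s⁻¹ * x.1, j) = z * g0 x
    have h1 : ∀ j, ∑ s ∈ (A x.2 j).support, A x.2 j s * g0 (s⁻¹ * x.1, j)
        = ∑ s ∈ (B x.2 j).support, B x.2 j s * g0 ((s : G)⁻¹ * x.1, j) := by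
      intro j
      change ∑ s ∈ ((B x.2 j).embDomain e).support,
        (B x.2 j).embDomain e s * g0 (s⁻¹ * x.1, j) = _
      rw [Finsupp.support_embDomain, Finset.sum_map]
      refine Finset.sum_congr rfl fun s _ => ?_
      rw [Finsupp.embDomain_apply_self]
      rfl
    simp only [h1]
    by_cases hx : x.1 ∈ K
    · have hf1 := congrFun hf ((⟨x.1, hx⟩ : K), x.2)
      change app B (vals f) (⟨x.1, hx⟩, x.2) = z * f (⟨x.1, hx⟩, x.2) at hf1
      rw [hg3 x hx, ← hf1]
      unfold app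
      refine Finset.sum_congr rfl fun j _ => Finset.sum_congr rfl fun s _ => ?_
      congr 1
      exact hg3 ((s : G)⁻¹ * x.1, j) (K.mul_mem (K.inv_mem s.2) hx)
    · rw [hg2 x hx, mul_zero]
      refine Finset.sum_eq_zero fun j _ => Finset.sum_eq_zero fun s _ => ?_
      rw [hg2, mul_zero]
      intro h
      apply hx
      have h3 := K.mul_mem s.2 h
      change (s : G) * ((s : G)⁻¹ * x.1) ∈ K at h3
      rwa [mul_inv_cancel_left] at h3
  · intro h
    apply hf0
    ext p
    rw [← hg1 p]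
    have h1 := congrArg (fun g : Sq G I => g (ι p)) h
    exact h1

end

end Pool.Agent.Q91.LB.Eig
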