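import Pool.Agent.Q91.LB.Sing

set_option autoImplicit false
set_option linter.unusedSectionVars false

/-! Subgroups of type `FP_s` over `ℂ`: finiteness of the `L²`-Betti numbers of the covering. -/

open scoped InnerProductSpace InnerProduct ENNReal

universe u v w z

namespace Pool.Agent.Q91.LB

section
variable {G : Type u} [Group G] (K : Subgroup G) (r : G ⧸ K → G) {I : Type v}
variable {V : Type w} {W : Type z} [AddCommGroup V] [Module ℂ V] [AddCommGroup W] [Module ℂ W]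

/-- lifting of equivariant maps from chains over `G` -/
theorem liftG (hr : ∀ x, (r x : G ⧸ K) = x) (ρV : K → V →ₗ[ℂ] V)
    (hρ : ∀ a b v, ρV (a * b) v = ρV a (ρV b v)) (ρW : K → W →ₗ[ℂ] W) (D : V →ₗ[ℂ] W)
    (hD : ∀ (k : K) v, D (ρV k v) = ρW k (D v)) (φ : FC G I →ₗ[ℂ] W)
    (hφ : ∀ (k : K) v, φ (rt (k : G) v) = ρW k (φ v)) (hR : ∀ v, ∃ u, D u = φ v) :
    ∃ h : FC G I →ₗ[ℂ] V, (∀ (k : K) v, h (rt (k : G) v) = ρV k (h v)) ∧
      ∀ v, D (h v) = φ v := by
  choose pre hpre using fun x : G × I => hR (Finsupp.single x 1)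
  set κ : G → K := fun g => ⟨(r (g : G ⧸ K))⁻¹ * g, mem_K K r hr g⟩ with hκ
  have hκr : ∀ (g : G) (k : K), κ (g * ((k : G))⁻¹) = κ g * k⁻¹ := by
    intro g k
    have e1 : ((g * ((k : G))⁻¹ : G) : G ⧸ K) = (g : G ⧸ K) :=
      QuotientGroup.mk_mul_of_mem _ (K.inv_mem k.2)
    apply Subtype.ext
    change (r ((g * ((k : G))⁻¹ : G) : G ⧸ K))⁻¹ * (g * ((k : G))⁻¹)
      = ((κ g * k⁻¹ : K) : G)
    rw [e1, Subgroup.coe_mul, Subgroup.coe_inv, ← mul_assoc]
  have hrr : ∀ (g : G) (k : K), r ((g * ((k : G))⁻¹ : G) : G ⧸ K) = r (g : G ⧸ K) := by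
    intro g k
    rw [QuotientGroup.mk_mul_of_mem _ (K.inv_mem k.2)]
  set h : FC G I →ₗ[ℂ] V := Finsupp.linearCombination ℂ fun x : G × I =>
    ρV (κ x.1)⁻¹ (pre (r (x.1 : G ⧸ K), x.2)) with hh
  have h1 : ∀ (x : G × I) (c : ℂ), h (Finsupp.single x c)
      = c • ρV (κ x.1)⁻¹ (pre (r (x.1 : G ⧸ K), x.2)) := by
    intro x c
    rw [hh, Finsupp.linearCombination_single]
  refine ⟨h, ?_, ?_⟩
  · intro k v
    induction v using Finsupp.induction_linear with
    | zero => simp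
    | add f g hf hg => rw [map_add, map_add, map_add, map_add, hf, hg]
    | single x c =>
      rw [rt_single, h1, h1, map_smul, ← hρ]
      change c • ρV (κ (x.1 * ((k : G))⁻¹))⁻¹
        (pre (r ((x.1 * ((k : G))⁻¹ : G) : G ⧸ K), x.2)) = _
      rw [hκr, hrr, mul_inv_rev, inv_inv]
  · intro v
    induction v using Finsupp.induction_linear with
    | zero => simp
    | add f g hf hg => rw [map_add, map_add, map_add, hf, hg]
    | single x c =>
      have e4 := hφ (κ x.1)⁻¹ (Finsupp.single (r (x.1 : G ⧸ K), x.2) 1)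
      rw [rt_single] at e4
      have e5 : r (x.1 : G ⧸ K) * (((κ x.1)⁻¹ : K) : G)⁻¹ = x.1 := by
        rw [Subgroup.coe_inv, inv_inv]
        change r (x.1 : G ⧸ K) * ((r (x.1 : G ⧸ K))⁻¹ * x.1) = x.1
        rw [mul_inv_cancel_left]
      change φ (Finsupp.single (r (x.1 : G ⧸ K) * (((κ x.1)⁻¹ : K) : G)⁻¹, x.2) 1) = _ at e4
      rw [e5] at e4
      rw [h1, map_smul, hD, hpre, ← e4, ← map_smul]
      congr 1
      rw [Finsupp.smul_single, smul_eq_mul, mul_one]

omit r in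
/-- lifting of equivariant maps from chains over `K` -/
theorem liftK (ρV : K → V →ₗ[ℂ] V)
    (hρ : ∀ a b v, ρV (a * b) v = ρV a (ρV b v)) (ρW : K → W →ₗ[ℂ] W) (D : V →ₗ[ℂ] W)
    (hD : ∀ (k : K) v, D (ρV k v) = ρW k (D v)) (φ : FC K I →ₗ[ℂ] W)
    (hφ : ∀ (k : K) v, φ (rt k v) = ρW k (φ v)) (hR : ∀ v, ∃ u, D u = φ v) :
    ∃ h : FC K I →ₗ[ℂ] V, (∀ (k : K) v, h (rt k v) = ρV k (h v)) ∧
      ∀ v, D (h v) = φ v := by
  choose pre hpre using fun i : I => hR (Finsupp.single (1, i) 1)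
  set h : FC K I →ₗ[ℂ] V := Finsupp.linearCombination ℂ fun x : K × I =>
    ρV x.1⁻¹ (pre x.2) with hh
  have h1 : ∀ (x : K × I) (c : ℂ), h (Finsupp.single x c) = c • ρV x.1⁻¹ (pre x.2) := by
    intro x c
    rw [hh, Finsupp.linearCombination_single]
  refine ⟨h, ?_, ?_⟩
  · intro k v
    induction v using Finsupp.induction_linear with
    | zero => simp
    | add f g hf hg => rw [map_add, map_add, map_add, map_add, hf, hg]
    | single x c =>
      rw [rt_single, h1, h1, map_smul, ← hρ]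
      change c • ρV (x.1 * k⁻¹)⁻¹ (pre x.2) = _
      rw [mul_inv_rev, inv_inv]
  · intro v
    induction v using Finsupp.induction_linear with
    | zero => simp
    | add f g hf hg => rw [map_add, map_add, map_add, hf, hg]
    | single x c =>
      have e4 := hφ x.1⁻¹ (Finsupp.single (1, x.2) 1)
      rw [rt_single, inv_inv, one_mul] at e4
      change φ (Finsupp.single x 1) = _ at e4
      rw [h1, map_smul, hD, hpre, ← e4, ← map_smul]
      congr 1
      rw [Finsupp.smul_single, smul_eq_mul, mul_one]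

end

end Pool.Agent.Q91.LB

namespace Pool.Agent.Q91.LB.Cpx

open Pool.Agent.Q91.LB Pool.Agent.Q91.LB.Bet

section
variable {G : Type u} [Group G] (K : Subgroup G) (r : G ⧸ K → G)

/-- the induction hypothesis for the comparison of the two complexes in degree `k` -/
def SS (M : Cx G) (P : Cx K) (k : ℕ) : Prop :=
  ∃ (f : Fc G (M.c k) →ₗ[ℂ] Fc K (P.c k)) (g : Fc K (P.c k) →ₗ[ℂ] Fc G (M.c k))
    (h : Fc G (M.c k) →ₗ[ℂ] Fc G (M.c (k + 1))),
    (∀ (κ : K) v, f (rt (κ : G) v) = rt κ (f v)) ∧ (∀ (κ : K) v, g (rt κ v) = rt (κ : G) (g v)) ∧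
    (∀ (κ : K) v, h (rt (κ : G) v) = rt (κ : G) (h v)) ∧
    (∀ v, ∃ u, fop (P.d k) u = f (fop (M.d k) v)) ∧
    (∀ w, ∃ u, fop (M.d k) u = g (fop (P.d k) w)) ∧
    ∀ v, g (f (fop (M.d k) v)) = fop (M.d k) v + fop (M.d k) (h (fop (M.d k) v))

theorem fop_fop {m n p : ℕ} (A : Fin m → Fin n → (G →₀ ℂ)) (B : Fin n → Fin p → (G →₀ ℂ))
    (hAB : ∀ h : G × Fin p → ℂ, app A (app B h) = 0) (v : Fc G p) : fop A (fop B v) = 0 :=
  bdry_bdry A B hAB v

theorem SS_zero (hr : ∀ x, (r x : G ⧸ K) = x) (M : Cx G) (P : Cx K) (hM : Augmented M)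
    (hP : Augmented P) : SS K M P 0 := by
  obtain ⟨ε, hlin, ⟨v1, hv1⟩, hinv, hker⟩ := hM
  obtain ⟨η, hlin', ⟨w1, hw1⟩, hinv', hker'⟩ := hP
  set E : FC G (Fin (M.c 0)) →ₗ[ℂ] ℂ := IsLinearMap.mk' ε hlin with hE
  set H : FC K (Fin (P.c 0)) →ₗ[ℂ] ℂ := IsLinearMap.mk' η hlin' with hH
  obtain ⟨f, hf, hf1⟩ := liftG K r hr (V := FC K (Fin (P.c 0))) (W := ℂ) (fun k => rt k)
    (fun a b v => rt_mul a b v) (fun _ => LinearMap.id) H (fun k v => hinv' k v) E
    (fun k v => hinv k v) (fun v => ⟨(E v * (H w1)⁻¹) • w1, by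
      rw [map_smul, smul_eq_mul, mul_assoc]
      have : H w1 ≠ 0 := hw1
      rw [inv_mul_cancel₀ this, mul_one]⟩)
  obtain ⟨g, hg, hg1⟩ := liftK K (V := FC G (Fin (M.c 0))) (W := ℂ) (fun k => rt (k : G))
    (fun a b v => by
      change rt ((a * b : K) : G) v = _
      rw [Subgroup.coe_mul, rt_mul]) (fun _ => LinearMap.id) E (fun k v => hinv k v) H
    (fun k v => hinv' k v) (fun v => ⟨(H v * (E v1)⁻¹) • v1, by
      rw [map_smul, smul_eq_mul, mul_assoc]
      have : E v1 ≠ 0 := hv1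
      rw [inv_mul_cancel₀ this, mul_one]⟩)
  obtain ⟨h, hh, hh1⟩ := lift K r hr (fop (M.d 0)) (fun k v => fop_rt _ _ _)
    (g.comp f - LinearMap.id) (by
      intro k v
      change g (f (rt (k : G) v)) - rt (k : G) v = rt (k : G) (g (f v) - v)
      rw [hf, hg, map_sub]) (by
      intro v
      apply (hker _).1
      change E (g (f v) - v) = 0
      rw [map_sub, hg1, hf1, sub_self])
  have hEd : ∀ v, E (fop (M.d 0) v) = 0 := fun v => (hker _).2 ⟨v, rfl⟩
  have hHd : ∀ w, H (fop (P.d 0) w) = 0 := fun w => (hker' _).2 ⟨w, rfl⟩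
  refine ⟨f, g, h, hf, hg, hh, ?_, ?_, ?_⟩
  · intro v
    apply (hker' _).1
    change H (f (fop (M.d 0) v)) = 0
    rw [hf1, hEd]
  · intro w
    apply (hker _).1
    change E (g (fop (P.d 0) w)) = 0
    rw [hg1, hHd]
  · intro v
    rw [hh1]
    change _ = fop (M.d 0) v + (g (f (fop (M.d 0) v)) - fop (M.d 0) v)
    abel

/-- the comparison in the next degree -/
theorem SS_step (hr : ∀ x, (r x : G ⧸ K) = x) (M : Cx G) (P : Cx K) (k : ℕ) (hM : ExactAt M k)
    (hS : SS K M P k) :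
    bettiCover K r (M.d k) (M.d (k + 1)) ≠ ⊤ ∧ (ExactAt P k → SS K M P (k + 1)) := by
  obtain ⟨f, g, h, hf, hg, hh, h1, h2, h3⟩ := hS
  obtain ⟨f', hf', hf1⟩ := liftG K r hr (V := FC K (Fin (P.c (k + 1))))
    (W := FC K (Fin (P.c k))) (fun k => rt k) (fun a b v => rt_mul a b v) (fun k => rt k)
    (fop (P.d k)) (fun k v => fop_rt _ _ _) (f.comp (fop (M.d k))) (by
      intro κ v
      change f (fop (M.d k) (rt (κ : G) v)) = rt κ (f (fop (M.d k) v))
      rw [fop_rt, hf]) h1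
  obtain ⟨g', hg', hg1⟩ := liftK K (V := FC G (Fin (M.c (k + 1)))) (W := FC G (Fin (M.c k)))
    (fun k => rt (k : G)) (fun a b v => by
      change rt ((a * b : K) : G) v = _
      rw [Subgroup.coe_mul, rt_mul]) (fun k => rt (k : G)) (fop (M.d k))
    (fun k v => fop_rt _ _ _) (g.comp (fop (P.d k))) (by
      intro κ v
      change g (fop (P.d k) (rt κ v)) = rt (κ : G) (g (fop (P.d k) v))
      rw [fop_rt, hg]) h2
  obtain ⟨h', hh', hh1⟩ := lift K r hr (fop (M.d (k + 1))) (fun k v => fop_rt _ _ _)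
    (g'.comp f' - LinearMap.id - h.comp (fop (M.d k))) (by
      intro κ v
      change g' (f' (rt (κ : G) v)) - rt (κ : G) v - h (fop (M.d k) (rt (κ : G) v))
        = rt (κ : G) (g' (f' v) - v - h (fop (M.d k) v))
      rw [hf', hg', fop_rt, hh, map_sub, map_sub]) (by
      intro v
      apply hM
      change fop (M.d k) (g' (f' v) - v - h (fop (M.d k) v)) = 0
      have e1 : fop (M.d k) (g' (f' v)) = g (fop (P.d k) (f' v)) := hg1 (f' v)
      have e2 : fop (P.d k) (f' v) = f (fop (M.d k) v) := hf1 v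
      rw [map_sub, map_sub, e1, e2, h3]
      abel)
  have hom : ∀ v, g' (f' v) = v + fop (M.d (k + 1)) (h' v) + h (fop (M.d k) v) := by
    intro v
    rw [hh1]
    change g' (f' v) = v + (g' (f' v) - v - h (fop (M.d k) v)) + h (fop (M.d k) v)
    abel
  refine ⟨?_, ?_⟩
  · have h5 := cover_le K r hr (M.d k) (M.d (k + 1)) f' hf' g' hg' h' hh' h hh hom
    exact ne_top_of_le_ne_top ENNReal.ofReal_ne_top h5
  · intro hP
    refine ⟨f', g', h', hf', hg', hh', ?_, ?_, ?_⟩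
    · intro v
      apply hP
      change fop (P.d k) (f' (fop (M.d (k + 1)) v)) = 0
      have e2 : fop (P.d k) (f' (fop (M.d (k + 1)) v))
          = f (fop (M.d k) (fop (M.d (k + 1)) v)) := hf1 _
      rw [e2, fop_fop _ _ (M.dd k), map_zero]
    · intro w
      apply hM
      change fop (M.d k) (g' (fop (P.d (k + 1)) w)) = 0
      have e1 : fop (M.d k) (g' (fop (P.d (k + 1)) w))
          = g (fop (P.d k) (fop (P.d (k + 1)) w)) := hg1 _
      rw [e1, fop_fop _ _ (P.dd k), map_zero]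
    · intro v
      rw [hom, fop_fop _ _ (M.dd k), map_zero, add_zero]

/-- the `L²`-Betti numbers of the covering are finite up to degree `s` if `K` has type `FP_s` -/
theorem finite_of_FP (hr : ∀ x, (r x : G ⧸ K) = x) (M : Cx G) (hA : Augmented M)
    (hM : ∀ k, ExactAt M k) (s : ℕ) (hK : TypeFP K s) (k : ℕ) (hk : k ≤ s) :
    bK K r M k ≠ ⊤ := by
  obtain ⟨P, hP, hPe⟩ := hK
  have key : ∀ j, j < s → SS K M P j := by
    intro j
    induction j with
    | zero => intro _; exact SS_zero K r hr M P hA hP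
    | succ j ih =>
      intro hj
      exact (SS_step K r hr M P j (hM j) (ih (by omega))).2 (hPe j hj)
  cases k with
  | zero => exact ne_top_of_le_ne_top ENNReal.one_ne_top (cover_aug K r hr M hA)
  | succ k => exact (SS_step K r hr M P k (hM k) (key k (by omega))).1

end

end Pool.Agent.Q91.LB.Cpx
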