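import Pool.Agent.W649.ZL.Acc
import Pool.Agent.W649.ZL.Conv

set_option autoImplicit false
set_option linter.unusedSectionVars false

/-! Square-summable functions on finitely many cosets of a subgroup. -/

namespace Pool.Agent.Q91.LB

open Pool.Agent.W649.ZL Filter Topology
open scoped InnerProductSpace InnerProduct ENNReal

universe u v w z

section
variable {G : Type u} [Group G] (K : Subgroup G) (F : Finset (G ⧸ K)) (r : G ⧸ K → G) {J : Type v}

/-- the points `(r x * k, j)` -/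
def pt (p : K × (F × J)) : G × J := (r p.2.1 * p.1, p.2.2)

theorem coe_pt (hr : ∀ x, (r x : G ⧸ K) = x) (p : K × (F × J)) :
    (((pt K F r p).1 : G) : G ⧸ K) = p.2.1 := by
  unfold pt
  rw [QuotientGroup.mk_mul_of_mem _ p.1.2, hr]

theorem pt_injective (hr : ∀ x, (r x : G ⧸ K) = x) :
    Function.Injective (pt K F r : K × (F × J) → G × J) := by
  intro p q h
  have h1 : (p.2.1 : G ⧸ K) = q.2.1 := by
    rw [← coe_pt K F r hr p, ← coe_pt K F r hr q, h]
  have h2 : p.2.1 = q.2.1 := Subtype.ext h1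
  have h3 : (p.1 : G) = q.1 := by
    have h4 := congrArg Prod.fst h
    unfold pt at h4
    change r p.2.1 * (p.1 : G) = r q.2.1 * (q.1 : G) at h4
    rw [h2] at h4
    exact mul_left_cancel h4
  have h5 : p.2.2 = q.2.2 := by
    have h4 := congrArg (fun z : G × J => z.2) h
    exact h4
  exact Prod.ext (Subtype.ext h3) (Prod.ext h2 h5)

theorem mem_K (hr : ∀ x, (r x : G ⧸ K) = x) (g : G) : (r (g : G ⧸ K))⁻¹ * g ∈ K := by
  rw [← QuotientGroup.eq, hr]

theorem pt_surj (hr : ∀ x, (r x : G ⧸ K) = x) (x : G × J) (hx : (x.1 : G ⧸ K) ∈ F) :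
    pt K F r (⟨(r (x.1 : G ⧸ K))⁻¹ * x.1, mem_K K r hr x.1⟩, (⟨x.1, hx⟩, x.2)) = x := by
  unfold pt
  change (r (x.1 : G ⧸ K) * ((r (x.1 : G ⧸ K))⁻¹ * x.1), x.2) = x
  rw [mul_inv_cancel_left]

theorem not_range (hr : ∀ x, (r x : G ⧸ K) = x) (x : G × J)
    (hx : x ∉ Set.range (pt K F r : K × (F × J) → G × J)) : (x.1 : G ⧸ K) ∉ F :=
  fun h => hx ⟨_, pt_surj K F r hr x h⟩

theorem memlp_R (hr : ∀ x, (r x : G ⧸ K) = x) (f : EE G J) :
    Memℓp (fun p : K × (F × J) => f (pt K F r p)) 2 := by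
  rw [memlp_two_iff]
  exact ((memlp_two_iff _).1 f.2).comp_injective (pt_injective K F r hr)

/-- the restriction -/
noncomputable def Rf (hr : ∀ x, (r x : G ⧸ K) = x) : EE G J →L[ℂ] EE K (F × J) :=
  LinearMap.mkContinuous
    { toFun := fun f => ⟨fun p => f (pt K F r p), memlp_R K F r hr f⟩
      map_add' := fun f g => by ext x; rfl
      map_smul' := fun c f => by ext x; rfl } 1
    (fun f => by
      rw [one_mul]
      have h := (memlp_two_iff _).1 f.2
      refine (sq_le_sq₀ (norm_nonneg _) (norm_nonneg _)).1 ?_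
      rw [norm_sq_tsum, norm_sq_tsum]
      exact tsum_comp_le_tsum_of_inj h (fun _ => by positivity) (pt_injective K F r hr))

theorem Rf_apply (hr : ∀ x, (r x : G ⧸ K) = x) (f : EE G J) (p : K × (F × J)) :
    Rf K F r hr f p = f (pt K F r p) := rfl

theorem norm_Rf_le (hr : ∀ x, (r x : G ⧸ K) = x) (f : EE G J) : ‖Rf K F r hr f‖ ≤ ‖f‖ := by
  have h := ContinuousLinearMap.le_opNorm (Rf K F r hr) f
  refine h.trans ?_
  have h1 : ‖(Rf K F r hr : EE G J →L[ℂ] EE K (F × J))‖ ≤ 1 :=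
    LinearMap.mkContinuous_norm_le _ zero_le_one _
  calc ‖(Rf K F r hr : EE G J →L[ℂ] EE K (F × J))‖ * ‖f‖ ≤ 1 * ‖f‖ := by gcongr
    _ = ‖f‖ := one_mul _

theorem Rf_tr (hr : ∀ x, (r x : G ⧸ K) = x) (k : K) (f : EE G J) :
    Rf K F r hr (tr (k : G) f) = tr k (Rf K F r hr f) := by
  ext ⟨k', x⟩
  rw [Rf_apply, tr_apply, tr_apply, Rf_apply]
  unfold pt
  change f (r x.1 * (k' : G) * (k : G), x.2) = f (r x.1 * ((k' * k : K) : G), x.2)
  rw [Subgroup.coe_mul, mul_assoc]

variable [DecidableEq (G ⧸ K)]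

/-- extension by zero -/
def exFun (hr : ∀ x, (r x : G ⧸ K) = x) (h : EE K (F × J)) : G × J → ℂ := fun x =>
  if hx : (x.1 : G ⧸ K) ∈ F then
    h (⟨(r (x.1 : G ⧸ K))⁻¹ * x.1, mem_K K r hr x.1⟩, (⟨x.1, hx⟩, x.2)) else 0

theorem exFun_pt (hr : ∀ x, (r x : G ⧸ K) = x) (h : EE K (F × J)) (p : K × (F × J)) :
    exFun K F r hr h (pt K F r p) = h p := by
  unfold exFun
  have h1 : (((pt K F r p).1 : G) : G ⧸ K) = p.2.1 := coe_pt K F r hr p
  have hg : (((pt K F r p).1 : G) : G ⧸ K) ∈ F := by rw [h1]; exact p.2.1.2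
  rw [dif_pos hg]
  have h2 := pt_injective K F r hr (pt_surj K F r hr _ hg)
  rw [h2]

theorem exFun_zero (hr : ∀ x, (r x : G ⧸ K) = x) (h : EE K (F × J)) (x : G × J)
    (hx : (x.1 : G ⧸ K) ∉ F) : exFun K F r hr h x = 0 := by
  unfold exFun
  rw [dif_neg hx]

theorem memlp_ex (hr : ∀ x, (r x : G ⧸ K) = x) (h : EE K (F × J)) :
    Memℓp (exFun K F r hr h) 2 := by
  rw [memlp_two_iff]
  have h1 := (memlp_two_iff _).1 h.2
  refine ((pt_injective K F r hr).summable_iff ?_).1 ?_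
  · intro g hg
    rw [exFun_zero K F r hr h g (not_range K F r hr g hg), norm_zero]
    norm_num
  · refine h1.congr fun p => ?_
    change _ = ‖exFun K F r hr h (pt K F r p)‖ ^ 2
    rw [exFun_pt]

/-- extension by zero, a linear isometry -/
noncomputable def exI (hr : ∀ x, (r x : G ⧸ K) = x) : EE K (F × J) →ₗᵢ[ℂ] EE G J where
  toFun h := ⟨exFun K F r hr h, memlp_ex K F r hr h⟩
  map_add' f g := by
    ext x
    change exFun K F r hr (f + g) x = exFun K F r hr f x + exFun K F r hr g x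
    unfold exFun
    split_ifs
    · rfl
    · rw [add_zero]
  map_smul' c f := by
    ext x
    change exFun K F r hr (c • f) x = c * exFun K F r hr f x
    unfold exFun
    split_ifs
    · rfl
    · rw [mul_zero]
  norm_map' f := by
    have e2 : ‖(⟨exFun K F r hr f, memlp_ex K F r hr f⟩ : EE G J)‖ ^ 2 = ‖f‖ ^ 2 := by
      rw [norm_sq_tsum, norm_sq_tsum]
      have h1 : Function.support
          (fun x : G × J => ‖(⟨exFun K F r hr f, memlp_ex K F r hr f⟩ : EE G J) x‖ ^ 2)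
          ⊆ Set.range (pt K F r : K × (F × J) → G × J) := by
        intro x hx
        by_contra hcon
        apply hx
        change ‖exFun K F r hr f x‖ ^ 2 = 0
        rw [exFun_zero K F r hr _ x (not_range K F r hr x hcon), norm_zero]
        norm_num
      rw [← (pt_injective K F r hr).tsum_eq h1]
      refine tsum_congr fun p => ?_
      change ‖exFun K F r hr f (pt K F r p)‖ ^ 2 = _
      rw [exFun_pt]
    exact (sq_eq_sq₀ (norm_nonneg _) (norm_nonneg _)).1 e2

/-- extension by zero -/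
noncomputable def exF (hr : ∀ x, (r x : G ⧸ K) = x) : EE K (F × J) →L[ℂ] EE G J :=
  (exI K F r hr).toContinuousLinearMap

theorem exF_apply (hr : ∀ x, (r x : G ⧸ K) = x) (h : EE K (F × J)) (x : G × J) :
    exF K F r hr h x = exFun K F r hr h x := rfl

theorem exF_pt (hr : ∀ x, (r x : G ⧸ K) = x) (h : EE K (F × J)) (p : K × (F × J)) :
    exF K F r hr h (pt K F r p) = h p := exFun_pt K F r hr h p

theorem exF_zero (hr : ∀ x, (r x : G ⧸ K) = x) (h : EE K (F × J)) (x : G × J)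
    (hx : (x.1 : G ⧸ K) ∉ F) : exF K F r hr h x = 0 := exFun_zero K F r hr h x hx

theorem isometry_exF (hr : ∀ x, (r x : G ⧸ K) = x) :
    Isometry (exF K F r hr : EE K (F × J) →L[ℂ] EE G J) := (exI K F r hr).isometry

theorem Rf_exF (hr : ∀ x, (r x : G ⧸ K) = x) (h : EE K (F × J)) :
    Rf K F r hr (exF K F r hr h) = h := by
  ext p
  rw [Rf_apply, exF_pt]

theorem exF_Rf (hr : ∀ x, (r x : G ⧸ K) = x) (f : EE G J)
    (hf : ∀ x : G × J, (x.1 : G ⧸ K) ∉ F → f x = 0) : exF K F r hr (Rf K F r hr f) = f := by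
  ext x
  by_cases hx : (x.1 : G ⧸ K) ∈ F
  · rw [← pt_surj K F r hr x hx, exF_pt, Rf_apply]
  · rw [exF_zero K F r hr _ x hx, hf x hx]

theorem exF_Rf_apply (hr : ∀ x, (r x : G ⧸ K) = x) (f : EE G J) (x : G × J)
    (hx : (x.1 : G ⧸ K) ∈ F) : exF K F r hr (Rf K F r hr f) x = f x := by
  rw [← pt_surj K F r hr x hx, exF_pt, Rf_apply]

theorem exF_tr (hr : ∀ x, (r x : G ⧸ K) = x) (k : K) (h : EE K (F × J)) :
    exF K F r hr (tr k h) = tr (k : G) (exF K F r hr h) := by
  ext x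
  rw [tr_apply]
  have hc : (((x.1 * (k : G), x.2) : G × J).1 : G ⧸ K) = (x.1 : G ⧸ K) :=
    QuotientGroup.mk_mul_of_mem _ k.2
  by_cases hx : (x.1 : G ⧸ K) ∈ F
  · have h1 := pt_surj K F r hr x hx
    rw [← h1, exF_pt, tr_apply]
    set q : K × (F × J) := (⟨(r (x.1 : G ⧸ K))⁻¹ * x.1, mem_K K r hr x.1⟩, (⟨x.1, hx⟩, x.2)) with hq
    have h2 : ((pt K F r q).1 * (k : G), (pt K F r q).2) = pt K F r (q.1 * k, q.2) := by
      unfold pt
      change (r q.2.1 * (q.1 : G) * (k : G), q.2.2) = (r q.2.1 * ((q.1 * k : K) : G), q.2.2)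
      rw [Subgroup.coe_mul, mul_assoc]
    rw [h2, exF_pt]
  · rw [exF_zero K F r hr _ x hx, exF_zero K F r hr _ _ (by rw [hc]; exact hx)]

theorem exF_dl (hr : ∀ x, (r x : G ⧸ K) = x) (x : F) (j : J) :
    exF K F r hr (dl ((1 : K), (x, j))) = dl (r x, j) := by
  have hpt : pt K F r ((1 : K), (x, j)) = (r x, j) := by
    unfold pt
    change (r x * ((1 : K) : G), j) = _
    rw [Subgroup.coe_one, mul_one]
  ext y
  by_cases hy : y = (r x, j)
  · subst hy
    rw [dl_apply_self, ← hpt, exF_pt, dl_apply_self]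
  · rw [dl_apply_ne _ _ hy]
    by_cases hyF : (y.1 : G ⧸ K) ∈ F
    · have h1 := pt_surj K F r hr y hyF
      rw [← h1, exF_pt, dl_apply_ne]
      intro h2
      apply hy
      rw [← h1, h2, hpt]
    · exact exF_zero K F r hr _ y hyF

theorem inner_exF (hr : ∀ x, (r x : G ⧸ K) = x) (h : EE K (F × J)) (f : EE G J) :
    ⟪exF K F r hr h, f⟫_ℂ = ⟪h, Rf K F r hr f⟫_ℂ := by
  rw [lp.inner_eq_tsum, lp.inner_eq_tsum]
  have h1 : Function.support (fun x : G × J => ⟪exF K F r hr h x, f x⟫_ℂ)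
      ⊆ Set.range (pt K F r : K × (F × J) → G × J) := by
    intro x hx
    by_contra hcon
    apply hx
    change ⟪exF K F r hr h x, f x⟫_ℂ = 0
    rw [exF_zero K F r hr _ x (not_range K F r hr x hcon), inner_zero_left]
  rw [← (pt_injective K F r hr).tsum_eq h1]
  refine tsum_congr fun p => ?_
  rw [exF_pt, Rf_apply]

end

section
variable {G : Type u} [Group G] (K : Subgroup G) (F : Finset (G ⧸ K)) (r : G ⧸ K → G) {J : Type v}
  [Fintype J] [DecidableEq (G ⧸ K)]

/-- the pull-back of a subspace -/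
noncomputable def pb (hr : ∀ x, (r x : G ⧸ K) = x) (V : Submodule ℂ (EE G J)) :
    Submodule ℂ (EE K (F × J)) :=
  V.comap ((exF K F r hr : EE K (F × J) →L[ℂ] EE G J) : EE K (F × J) →ₗ[ℂ] EE G J)

theorem mem_pb (hr : ∀ x, (r x : G ⧸ K) = x) (V : Submodule ℂ (EE G J)) (h : EE K (F × J)) :
    h ∈ pb K F r hr V ↔ exF K F r hr h ∈ V := Iff.rfl

theorem pb_closed (hr : ∀ x, (r x : G ⧸ K) = x) (V : Submodule ℂ (EE G J))
    (hV : IsClosed (V : Set (EE G J))) : IsClosed (pb K F r hr V : Set (EE K (F × J))) :=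
  hV.preimage (exF K F r hr : EE K (F × J) →L[ℂ] EE G J).continuous

theorem pb_mono (hr : ∀ x, (r x : G ⧸ K) = x) {V W : Submodule ℂ (EE G J)} (h : V ≤ W) :
    pb K F r hr V ≤ pb K F r hr W := fun _ hx => h hx

theorem pb_inv (hr : ∀ x, (r x : G ⧸ K) = x) (V : Submodule ℂ (EE G J))
    (hV : ∀ (k : K) (f : EE G J), f ∈ V → tr (k : G) f ∈ V) :
    W649.ZL.Inv (pb K F r hr V) := by
  intro k f hf
  rw [mem_pb] at hf ⊢
  rw [exF_tr]
  exact hV k _ hf

/-- the dimension of a space of functions on the cosets in `F` -/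
theorem vd_pb (hr : ∀ x, (r x : G ⧸ K) = x) (V : Submodule ℂ (EE G J))
    (hV : IsClosed (V : Set (EE G J)))
    (hs : ∀ f ∈ V, ∀ x : G × J, (x.1 : G ⧸ K) ∉ F → f x = 0) :
    vd (pb K F r hr V)
      = ∑ x ∈ F, ∑ j : J, (1 - Metric.infDist (dl (r x, j)) (V : Set (EE G J)) ^ 2) := by
  rw [vd_eq_infDist _ (pb_closed K F r hr V hV), Fintype.sum_prod_type, ← Finset.sum_coe_sort F]
  refine Finset.sum_congr rfl fun x _ => Finset.sum_congr rfl fun j _ => ?_
  have h1 : exF K F r hr '' (pb K F r hr V : Set (EE K (F × J))) = (V : Set (EE G J)) := by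
    ext f
    constructor
    · rintro ⟨h, hh, rfl⟩; exact hh
    · intro hf
      refine ⟨Rf K F r hr f, ?_, exF_Rf K F r hr f (hs f hf)⟩
      change exF K F r hr (Rf K F r hr f) ∈ V
      rw [exF_Rf K F r hr f (hs f hf)]
      exact hf
  rw [← exF_dl K F r hr x j, ← h1, Metric.infDist_image (isometry_exF K F r hr)]

/-- **Upper bound.** -/
theorem vd_pb_le (hr : ∀ x, (r x : G ⧸ K) = x) (V : Submodule ℂ (EE G J))
    (hV : IsClosed (V : Set (EE G J))) (hi : W649.ZL.Inv V) :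
    vd (pb K F r hr V) ≤ F.card * vd V := by
  rw [vd_eq_infDist _ (pb_closed K F r hr V hV), vd_eq_infDist _ hV, Fintype.sum_prod_type]
  have key : ∀ (x : F) (j : J), Metric.infDist (dl ((1 : G), j)) (V : Set (EE G J))
      ≤ Metric.infDist (dl ((1 : K), (x, j))) (pb K F r hr V : Set (EE K (F × J))) := by
    intro x j
    have hne : (exF K F r hr '' (pb K F r hr V : Set (EE K (F × J)))).Nonempty :=
      ⟨_, ⟨0, (pb K F r hr V).zero_mem, rfl⟩⟩
    have h1 : exF K F r hr '' (pb K F r hr V : Set (EE K (F × J))) ⊆ (V : Set (EE G J)) := by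
      rintro _ ⟨h, hh, rfl⟩; exact hh
    rw [← Metric.infDist_image (isometry_exF K F r hr), exF_dl]
    refine le_trans ?_ (Metric.infDist_le_infDist_of_subset h1 hne)
    -- translation
    have hVcs : CompleteSpace V := hV.completeSpace_coe
    have e : ∀ y : G × J, Metric.infDist (dl y) (V : Set (EE G J))
        = ‖(dl y : EE G J) - V.starProjection (dl y)‖ := by
      intro y
      rw [Submodule.starProjection_minimal, Metric.infDist_eq_iInf]
      simp only [dist_eq_norm]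
      rfl
    have h4 : (dl (r x, j) : EE G J) = tr (r x)⁻¹ (dl ((1 : G), j)) := by
      rw [tr_dl, one_mul, inv_inv]
    rw [e, e, h4, proj_tr hi]
    have e2 : tr (r x)⁻¹ (dl ((1 : G), j)) - tr (r x)⁻¹ (V.starProjection (dl ((1 : G), j)))
        = tr (r x)⁻¹ ((dl ((1 : G), j) : EE G J) - V.starProjection (dl ((1 : G), j))) := by
      ext y; rfl
    rw [e2, norm_tr]
  calc ∑ x : F, ∑ j : J, (1 - Metric.infDist (dl ((1 : K), (x, j)))
        (pb K F r hr V : Set (EE K (F × J))) ^ 2)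
      ≤ ∑ _x : F, ∑ j : J, (1 - Metric.infDist (dl ((1 : G), j)) (V : Set (EE G J)) ^ 2) := by
        refine Finset.sum_le_sum fun x _ => Finset.sum_le_sum fun j _ => ?_
        have h2 := Metric.infDist_nonneg (x := (dl ((1 : G), j) : EE G J)) (s := (V : Set (EE G J)))
        have h3 := pow_le_pow_left₀ h2 (key x j) 2
        linarith
    _ = _ := by rw [Finset.sum_const, Finset.card_univ, Fintype.card_coe, nsmul_eq_mul]

/-- **Lower bound** for the closure of the restrictions. -/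
theorem vd_Rf_ge (hr : ∀ x, (r x : G ⧸ K) = x) (V : Submodule ℂ (EE G J))
    (hVc : IsClosed (V : Set (EE G J))) (hVi : W649.ZL.Inv V) :
    F.card * vd V
      ≤ vd (V.map ((Rf K F r hr : EE G J →L[ℂ] EE K (F × J)) :
        EE G J →ₗ[ℂ] EE K (F × J))).topologicalClosure := by
  have hVcs : CompleteSpace V := hVc.completeSpace_coe
  set R : EE G J →L[ℂ] EE K (F × J) := Rf K F r hr with hR
  let W : Submodule ℂ (EE K (F × J)) := V.map (R : EE G J →ₗ[ℂ] EE K (F × J))
  let U := W.topologicalClosure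
  have hUc : IsClosed (U : Set (EE K (F × J))) := W.isClosed_topologicalClosure
  have hUcs : CompleteSpace U := hUc.completeSpace_coe
  change _ ≤ vd U
  rw [vd_eq V V (topcl_eq hVc), vd_eq U U (topcl_eq hUc), Fintype.sum_prod_type]
  have h2 : ∀ (x : F) (j : J), ‖V.starProjection (dl ((1 : G), j))‖ ^ 2
      ≤ ‖U.starProjection (dl ((1 : K), (x, j)))‖ ^ 2 := by
    intro x j
    have h3 : ‖V.starProjection (dl ((1 : G), j))‖ = ‖V.starProjection (dl (r x, j))‖ := by
      have h4 : (dl (r x, j) : EE G J) = tr (r x)⁻¹ (dl ((1 : G), j)) := by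
        rw [tr_dl, one_mul, inv_inv]
      rw [h4, proj_tr hVi, norm_tr]
    rw [h3]
    set p := V.starProjection (dl (r x, j)) with hp
    have hpV : p ∈ V := Submodule.starProjection_apply_mem _ _
    have hRU : R p ∈ U := W.le_topologicalClosure ⟨p, hpV, rfl⟩
    have h5 : ⟪(dl ((1 : K), (x, j)) : EE K (F × J)), R p⟫_ℂ = ((‖p‖ ^ 2 : ℝ) : ℂ) := by
      rw [inner_dl_left, hR, Rf_apply]
      have h6 : pt K F r ((1 : K), (x, j)) = (r x, j) := by
        unfold pt
        change (r x * ((1 : K) : G), j) = _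
        rw [Subgroup.coe_one, mul_one]
      rw [h6, ← inner_dl_left (r x, j) p]
      have h7 : ⟪(dl (r x, j) : EE G J) - p, p⟫_ℂ = 0 :=
        Submodule.starProjection_inner_eq_zero _ _ hpV
      rw [inner_sub_left, sub_eq_zero] at h7
      rw [h7, inner_self_eq_norm_sq_to_K]
      norm_cast
    have h8 : ⟪(dl ((1 : K), (x, j)) : EE K (F × J)), R p⟫_ℂ
        = ⟪U.starProjection (dl ((1 : K), (x, j))), R p⟫_ℂ := by
      have h9 : ⟪(dl ((1 : K), (x, j)) : EE K (F × J))
          - U.starProjection (dl ((1 : K), (x, j))), R p⟫_ℂ = 0 :=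
        Submodule.starProjection_inner_eq_zero _ _ hRU
      rwa [inner_sub_left, sub_eq_zero] at h9
    have h10 : ‖p‖ ^ 2 ≤ ‖U.starProjection (dl ((1 : K), (x, j)))‖ * ‖p‖ := by
      have h11 := norm_inner_le_norm (𝕜 := ℂ) (U.starProjection (dl ((1 : K), (x, j)))) (R p)
      rw [← h8, h5, Complex.norm_real, Real.norm_of_nonneg (by positivity)] at h11
      refine h11.trans ?_
      gcongr
      exact norm_Rf_le K F r hr p
    rcases (norm_nonneg p).eq_or_lt' with h0 | h0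
    · rw [h0]
      have := sq_nonneg ‖U.starProjection (dl ((1 : K), (x, j)))‖
      linarith
    · have h12 : ‖p‖ ≤ ‖U.starProjection (dl ((1 : K), (x, j)))‖ := by
        rw [sq] at h10
        exact le_of_mul_le_mul_right h10 h0
      gcongr
  calc (F.card : ℝ) * ∑ j : J, ‖V.starProjection (dl ((1 : G), j))‖ ^ 2
      = ∑ _x : F, ∑ j : J, ‖V.starProjection (dl ((1 : G), j))‖ ^ 2 := by
        rw [Finset.sum_const, Finset.card_univ, Fintype.card_coe, nsmul_eq_mul]
    _ ≤ _ := Finset.sum_le_sum fun x _ => Finset.sum_le_sum fun j _ => h2 x j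

end

end Pool.Agent.Q91.LB
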