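import Pool.Agent.Q91.LB.Dual

set_option autoImplicit false
set_option linter.unusedSectionVars false

/-! Complexes with Poincaré duality. -/

open scoped InnerProductSpace InnerProduct ENNReal

universe u

namespace Pool.Agent.Q91.LB.Cpx

open Pool.Agent.Q91.LB Pool.Agent.Q91.LB.Bet Pool.Agent.W649.ZL

section
variable {G : Type u} [Group G]

theorem vals_opM {m n : ℕ} (A : Fin m → Fin n → (G →₀ ℂ)) (f : EE G (Fin n)) :
    vals (opM A f) = app A (vals f) := by
  funext y
  exact (app_eq A f y).symm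

theorem vals_inj {n : ℕ} {f g : EE G (Fin n)} (h : vals f = vals g) : f = g := by
  ext x
  exact congrFun h x

theorem opM_dd {m n p : ℕ} (A : Fin m → Fin n → (G →₀ ℂ)) (B : Fin n → Fin p → (G →₀ ℂ))
    (hAB : ∀ h : G × Fin p → ℂ, app A (app B h) = 0) (f : EE G (Fin p)) :
    opM A (opM B f) = 0 := by
  apply vals_inj
  rw [vals_opM, vals_opM, hAB]
  rfl

/-- the cycles of degree `k` -/
noncomputable def Zk (M : Cx G) : ∀ k, Submodule ℂ (EE G (Fin (M.c k)))
  | 0 => ⊤
  | k + 1 => LinearMap.ker (opM (M.d k) : EE G (Fin (M.c (k + 1))) →ₗ[ℂ] EE G (Fin (M.c k)))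

/-- the boundaries of degree `k` -/
noncomputable def Rk (M : Cx G) (k : ℕ) : Submodule ℂ (EE G (Fin (M.c k))) :=
  LinearMap.range (opM (M.d k) : EE G (Fin (M.c (k + 1))) →ₗ[ℂ] EE G (Fin (M.c k)))

/-- the cocycles of degree `l` -/
noncomputable def Zd (χ : G →* ℤˣ) (M : Cx G) (l : ℕ) : Submodule ℂ (EE G (Fin (M.c l))) :=
  LinearMap.ker (opM (dual χ (M.d l)) : EE G (Fin (M.c l)) →ₗ[ℂ] EE G (Fin (M.c (l + 1))))

/-- the coboundaries of degree `l` -/
noncomputable def Rd (χ : G →* ℤˣ) (M : Cx G) : ∀ l, Submodule ℂ (EE G (Fin (M.c l)))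
  | 0 => ⊥
  | l + 1 => LinearMap.range (opM (dual χ (M.d l)) :
      EE G (Fin (M.c l)) →ₗ[ℂ] EE G (Fin (M.c (l + 1))))

theorem ker_empty (n : ℕ) : LinearMap.ker (opM (empty G n) :
    EE G (Fin n) →ₗ[ℂ] EE G (Fin 0)) = ⊤ := by
  rw [eq_top_iff]
  intro x _
  change opM (empty G n) x = 0
  ext y
  exact y.2.elim0

theorem b_eq (M : Cx G) (k : ℕ) : b M k = vd (Zk M k ⊓ (Rk M k)ᗮ) := by
  cases k with
  | zero =>
    change betti (empty G (M.c 0)) (M.d 0) = _
    rw [betti_eq]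
    unfold harm
    rw [ker_empty]
    rfl
  | succ k =>
    change betti (M.d k) (M.d (k + 1)) = _
    rw [betti_eq]
    rfl

theorem Zk_closed (M : Cx G) (k : ℕ) : IsClosed (Zk M k : Set (EE G (Fin (M.c k)))) := by
  cases k with
  | zero => exact isClosed_univ
  | succ k => exact (opM (M.d k)).isClosed_ker

theorem Hk_closed (M : Cx G) (k : ℕ) :
    IsClosed ((Zk M k ⊓ (Rk M k)ᗮ : Submodule ℂ (EE G (Fin (M.c k)))) :
      Set (EE G (Fin (M.c k)))) := by
  rw [Submodule.coe_inf]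
  exact (Zk_closed M k).inter (Submodule.isClosed_orthogonal _)

theorem orth_inv {m n : ℕ} (B : Fin n → Fin m → (G →₀ ℂ)) :
    W649.ZL.Inv ((LinearMap.range (opM B : EE G (Fin m) →ₗ[ℂ] EE G (Fin n)))ᗮ) := by
  intro k f hf
  rw [Submodule.mem_orthogonal] at hf ⊢
  rintro _ ⟨h, rfl⟩
  change ⟪opM B h, tr k f⟫_ℂ = 0
  have e : opM B h = tr k (opM B (tr k⁻¹ h)) := by
    rw [← opM_eqv, tr_tr, mul_inv_cancel, tr_one]
  rw [e, inner_tr]
  exact hf _ ⟨_, rfl⟩

theorem Hk_inv (M : Cx G) (k : ℕ) : W649.ZL.Inv (Zk M k ⊓ (Rk M k)ᗮ) := by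
  refine W649.ZL.inv_inf ?_ (orth_inv _)
  cases k with
  | zero => exact fun _ _ _ => trivial
  | succ k => exact inv_ker (opM (M.d k)) (opM_eqv _)

variable (χ : G →* ℤˣ)

theorem Hd_inv (M : Cx G) (l : ℕ) : W649.ZL.Inv (Zd χ M l ⊓ (Rd χ M l)ᗮ) := by
  refine W649.ZL.inv_inf (inv_ker (opM (dual χ (M.d l))) (opM_eqv _)) ?_
  cases l with
  | zero =>
    intro k f _
    change _ ∈ (⊥ : Submodule ℂ (EE G (Fin (M.c 0))))ᗮ
    rw [Submodule.bot_orthogonal_eq_top]
    trivial
  | succ l => exact orth_inv _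

theorem Zd_closed (M : Cx G) (l : ℕ) : IsClosed (Zd χ M l : Set (EE G (Fin (M.c l)))) :=
  (opM (dual χ (M.d l))).isClosed_ker

theorem b_eq_dual (M : Cx G) (l : ℕ) : b M l = vd (Zd χ M l ⊓ (Rd χ M l)ᗮ) := by
  rw [b_eq]
  symm
  apply vd_tw χ _ _ (Hk_closed M l)
  intro x
  have h1 : x ∈ Zd χ M l ↔ tw χ x ∈ (Rk M l)ᗮ := ker_dual χ (M.d l) x
  have h2 : x ∈ (Rd χ M l)ᗮ ↔ tw χ x ∈ Zk M l := by
    cases l with
    | zero =>
      constructor
      · intro _; trivial
      · intro _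
        change _ ∈ (⊥ : Submodule ℂ (EE G (Fin (M.c 0))))ᗮ
        rw [Submodule.bot_orthogonal_eq_top]
        trivial
    | succ l => exact range_dual χ (M.d l) x
  rw [Submodule.mem_inf, Submodule.mem_inf, h1, h2, and_comm]

theorem Rd_le (M : Cx G) (l : ℕ) : Rd χ M l ≤ Zd χ M l := by
  cases l with
  | zero => exact bot_le
  | succ l =>
    rintro _ ⟨y, rfl⟩
    change opM (dual χ (M.d (l + 1))) (opM (dual χ (M.d l)) y) = 0
    rw [ker_dual, Submodule.mem_orthogonal']
    rintro _ ⟨z, rfl⟩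
    change ⟪tw χ (opM (dual χ (M.d l)) y), opM (M.d (l + 1)) z⟫_ℂ = 0
    rw [inner_tw, opM_dual, tw_tw, opM_dd _ _ (M.dd l), map_zero, inner_zero_right]

theorem duality_le (M : Cx G) (n : ℕ) (hn : ∀ k, n < k → M.c k = 0) (D : Duality M n χ)
    (k l : ℕ) (hkl : k + l = n) : b M k ≤ b M l := by
  rw [b_eq M k, b_eq_dual χ M l]
  refine harm_le (Zk M k) (Rk M k) (Zd χ M l) (Rd χ M l) (Hk_closed M k) (Hk_inv M k)
    (Zd_closed χ M l) (Rd_le χ M l) (Hd_inv χ M l) (opM (D.φ k l)) (opM_eqv _) ?_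
    (opM (D.ψ k l)) ?_ ?_
  · intro x hx
    change opM (dual χ (M.d l)) (opM (D.φ k l) x) = 0
    cases k with
    | zero =>
      ext y
      have h0 : M.c (l + 1) = 0 := hn _ (by omega)
      have : IsEmpty (Fin (M.c (l + 1))) := by rw [h0]; infer_instance
      exact this.elim y.2
    | succ k =>
      have hx' : opM (M.d k) x = 0 := hx
      have e : opM (D.φ k (l + 1)) (opM (M.d k) x)
          = opM (dual χ (M.d l)) (opM (D.φ (k + 1) l) x) := by
        apply vals_inj
        rw [vals_opM, vals_opM, vals_opM, vals_opM]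
        exact D.hφ k l (by omega) _
      rw [← e, hx', map_zero]
  · intro y hy
    cases l with
    | zero =>
      have hy0 : y = 0 := (Submodule.mem_bot ℂ).1 hy
      rw [hy0, map_zero]
      exact Submodule.zero_mem _
    | succ l =>
      obtain ⟨y', rfl⟩ := hy
      refine ⟨opM (D.ψ (k + 1) l) y', ?_⟩
      change opM (M.d k) (opM (D.ψ (k + 1) l) y')
        = opM (D.ψ k (l + 1)) (opM (dual χ (M.d l)) y')
      apply vals_inj
      rw [vals_opM, vals_opM, vals_opM, vals_opM]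
      exact (D.hψ k l (by omega) _).symm
  · intro x hx
    cases k with
    | zero =>
      obtain rfl : l = n := by omega
      refine ⟨opM (D.h 0) x, ?_⟩
      change opM (M.d 0) (opM (D.h 0) x) = opM (D.ψ 0 l) (opM (D.φ 0 l) x) - x
      rw [eq_sub_iff_add_eq, add_comm]
      apply vals_inj
      have e := D.h0 (vals x)
      rw [vals_opM, vals_opM, e, ← vals_opM, ← vals_opM]
      rfl
    | succ k =>
      have hx' : opM (M.d k) x = 0 := hx
      refine ⟨opM (D.h (k + 1)) x, ?_⟩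
      change opM (M.d (k + 1)) (opM (D.h (k + 1)) x)
        = opM (D.ψ (k + 1) l) (opM (D.φ (k + 1) l) x) - x
      have e1 : opM (D.ψ (k + 1) l) (opM (D.φ (k + 1) l) x)
          = x + opM (M.d (k + 1)) (opM (D.h (k + 1)) x) + opM (D.h k) (opM (M.d k) x) := by
        apply vals_inj
        have e := D.hs k l hkl (vals x)
        rw [vals_opM, vals_opM, e, ← vals_opM, ← vals_opM, ← vals_opM, ← vals_opM]
        rfl
      rw [e1, hx', map_zero, add_zero, add_sub_cancel_left]

theorem duality_eq (M : Cx G) (n : ℕ) (hn : ∀ k, n < k → M.c k = 0) (D : Duality M n χ)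
    (k l : ℕ) (hkl : k + l = n) : b M k = b M l :=
  le_antisymm (duality_le χ M n hn D k l hkl) (duality_le χ M n hn D l k (by omega))

/-- the rank of the boundary map -/
noncomputable def rk (M : Cx G) (k : ℕ) : ℝ := vd (Rk M k)

theorem b_zero' (M : Cx G) : b M 0 = M.c 0 - rk M 0 := by
  change betti (empty G (M.c 0)) (M.d 0) = _
  rw [betti_eq, vd_harm _ _ (opM_dd _ _ (fun h => by funext x; exact x.2.elim0)), ker_empty,
    vd_top, Fintype.card_fin]
  rfl

theorem b_succ' (M : Cx G) (k : ℕ) : b M (k + 1) = M.c (k + 1) - rk M k - rk M (k + 1) := by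
  change betti (M.d k) (M.d (k + 1)) = _
  rw [betti_eq, vd_harm _ _ (opM_dd _ _ (M.dd k))]
  have h1 := W649.ZL.ker_add_range (opM (M.d k)) (opM_eqv _)
  rw [Fintype.card_fin] at h1
  unfold rk Rk
  linarith

/-- the Euler–Poincaré formula -/
theorem euler' (M : Cx G) (N : ℕ) (hN : ∀ k, N < k → M.c k = 0) :
    (chi M N : ℝ) = ∑ k ∈ Finset.range (N + 1), (-1) ^ k * b M k := by
  have key : ∀ n : ℕ, ∑ k ∈ Finset.range (n + 1), (-1 : ℝ) ^ k * b M k
      = ∑ k ∈ Finset.range (n + 1), (-1 : ℝ) ^ k * M.c k - (-1) ^ n * rk M n := by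
    intro n
    induction n with
    | zero => simp [b_zero']
    | succ n ih =>
      rw [Finset.sum_range_succ, ih, Finset.sum_range_succ _ (n + 1), b_succ']
      ring
  have h0 : rk M N = 0 := by
    apply le_antisymm _ (W649.ZL.vd_nonneg _)
    have h1 := W649.ZL.ker_add_range (opM (M.d N)) (opM_eqv _)
    have h2 := W649.ZL.vd_nonneg (LinearMap.ker (opM (M.d N) :
      W649.ZL.EE G (Fin (M.c (N + 1))) →ₗ[ℂ] W649.ZL.EE G (Fin (M.c N))))
    have h3 : ((Fintype.card (Fin (M.c (N + 1))) : ℕ) : ℝ) = 0 := by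
      rw [Fintype.card_fin, hN (N + 1) (Nat.lt_succ_self N)]
      exact Nat.cast_zero
    rw [h3] at h1
    change vd (LinearMap.range (opM (M.d N) :
      W649.ZL.EE G (Fin (M.c (N + 1))) →ₗ[ℂ] W649.ZL.EE G (Fin (M.c N)))) ≤ 0
    linarith
  rw [key N, h0, mul_zero, sub_zero]
  unfold chi
  push_cast
  rfl

theorem b_nonneg (M : Cx G) (k : ℕ) : 0 ≤ b M k := by
  cases k with
  | zero => exact betti_nonneg _ _
  | succ k => exact betti_nonneg _ _

theorem b_of_zero (M : Cx G) (k : ℕ) (h : M.c k = 0) : b M k = 0 := by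
  apply le_antisymm _ (b_nonneg M k)
  rw [b_eq]
  refine (W649.ZL.vd_le_card _).trans ?_
  rw [Fintype.card_fin, h, Nat.cast_zero]

theorem b_vanish' (M : Cx G) (K : Subgroup G) (hK : CoAmenable K) (hinf : Infinite (G ⧸ K))
    (r : G ⧸ K → G) (hr : ∀ x, (r x : G ⧸ K) = x) (k : ℕ) (h : bK K r M k ≠ ⊤) : b M k = 0 := by
  have key : ∀ {m n p : ℕ} (A : Fin m → Fin n → (G →₀ ℂ)) (B : Fin n → Fin p → (G →₀ ℂ)),
      bettiCover K r A B ≠ ⊤ → betti A B = 0 := by
    intro m n p A B hfin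
    apply vanish K r hr A B hfin
    intro S δ ε hδ hε
    obtain ⟨N, hN⟩ := exists_nat_ge ((bettiCover K r A B).toReal / ε)
    obtain ⟨F, hF, hc⟩ := large K hK hinf S δ hδ N
    refine ⟨F, hF, ?_⟩
    have h1 : (N : ℝ) ≤ F.card := by exact_mod_cast hc
    rw [div_le_iff₀ hε] at hN
    nlinarith
  cases k with
  | zero => exact key _ _ h
  | succ k => exact key _ _ h

end


section
variable {G : Type u} [Group G] (K : Subgroup G) (r : G ⧸ K → G)

/-- the chains of degree `0` are dominated over `K` by a free module of rank one -/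
theorem cover_aug (hr : ∀ x, (r x : G ⧸ K) = x) (M : Cx G) (hA : Augmented M) :
    bettiCover K r (empty G (M.c 0)) (M.d 0) ≤ 1 := by
  obtain ⟨ε, hlin, ⟨v1, hv1⟩, hinv, hker⟩ := hA
  set E : FC G (Fin (M.c 0)) →ₗ[ℂ] ℂ := IsLinearMap.mk' ε hlin with hE
  have hEinv : ∀ (g : G) (v : FC G (Fin (M.c 0))), E (rt g v) = E v := hinv
  obtain ⟨v0, hv0'⟩ : ∃ v0 : FC G (Fin (M.c 0)), E v0 = 1 := by
    refine ⟨(E v1)⁻¹ • v1, ?_⟩
    rw [map_smul, smul_eq_mul]
    exact inv_mul_cancel₀ hv1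
  set g : FC K (Fin 1) →ₗ[ℂ] FC G (Fin (M.c 0)) :=
    Finsupp.linearCombination ℂ fun x : K × Fin 1 => rt ((x.1 : G))⁻¹ v0 with hg
  set f : FC G (Fin (M.c 0)) →ₗ[ℂ] FC K (Fin 1) :=
    Finsupp.linearCombination ℂ fun x : G × Fin (M.c 0) => E (Finsupp.single x 1) •
      Finsupp.single ((⟨(r (x.1 : G ⧸ K))⁻¹ * x.1, mem_K K r hr x.1⟩, 0) : K × Fin 1) (1 : ℂ)
    with hf
  have hge : ∀ (k : K) v, g (rt k v) = rt (k : G) (g v) := by
    intro k v
    induction v using Finsupp.induction_linear with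
    | zero => simp
    | add f g hf hg => rw [map_add, map_add, map_add, map_add, hf, hg]
    | single x c =>
      rw [rt_single, hg, Finsupp.linearCombination_single, Finsupp.linearCombination_single,
        map_smul, ← rt_mul]
      have e1 : ((x.1 * k⁻¹ : K) : G)⁻¹ = (k : G) * ((x.1 : G))⁻¹ := by
        rw [Subgroup.coe_mul, Subgroup.coe_inv, mul_inv_rev, inv_inv]
      change c • rt ((x.1 * k⁻¹ : K) : G)⁻¹ v0 = _
      rw [e1]
  have hfe : ∀ (k : K) v, f (rt (k : G) v) = rt k (f v) := by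
    intro k v
    induction v using Finsupp.induction_linear with
    | zero => simp
    | add f g hf hg => rw [map_add, map_add, map_add, map_add, hf, hg]
    | single x c =>
      have e1 : ((x.1 * ((k : G))⁻¹ : G) : G ⧸ K) = (x.1 : G ⧸ K) :=
        QuotientGroup.mk_mul_of_mem _ (K.inv_mem k.2)
      have e2 : E (Finsupp.single (x.1 * ((k : G))⁻¹, x.2) 1) = E (Finsupp.single x 1) := by
        rw [← hEinv (k : G) (Finsupp.single x 1), rt_single]
      rw [rt_single, hf, Finsupp.linearCombination_single, Finsupp.linearCombination_single,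
        map_smul, map_smul, rt_single]
      congr 1
      refine congrArg₂ (· • ·) e2 ?_
      congr 1
      refine Prod.ext (Subtype.ext ?_) rfl
      change (r ((x.1 * ((k : G))⁻¹ : G) : G ⧸ K))⁻¹ * (x.1 * ((k : G))⁻¹)
        = ((⟨(r (x.1 : G ⧸ K))⁻¹ * x.1, mem_K K r hr x.1⟩ * k⁻¹ : K) : G)
      rw [e1, Subgroup.coe_mul, Subgroup.coe_inv, mul_assoc]
  have hEgf : ∀ v, E (g (f v)) = E v := by
    intro v
    induction v using Finsupp.induction_linear with
    | zero => simp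
    | add f g hf hg => rw [map_add, map_add, map_add, map_add, hf, hg]
    | single x c =>
      rw [hf, Finsupp.linearCombination_single, hg, map_smul, map_smul, map_smul, map_smul,
        Finsupp.linearCombination_single, one_smul, hEinv, hv0', smul_eq_mul, smul_eq_mul, mul_one]
      have e : (Finsupp.single x c : FC G (Fin (M.c 0))) = c • Finsupp.single x 1 := by
        rw [Finsupp.smul_single, smul_eq_mul, mul_one]
      rw [e, map_smul, smul_eq_mul]
  set φ : FC G (Fin (M.c 0)) →ₗ[ℂ] FC G (Fin (M.c 0)) := g.comp f - LinearMap.id with hφ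
  obtain ⟨h, hh, hD⟩ := lift K r hr (fop (M.d 0)) (fun k v => fop_rt _ _ _) φ (by
    intro k v
    change g (f (rt (k : G) v)) - rt (k : G) v = rt (k : G) (g (f v) - v)
    rw [hfe, hge, map_sub]) (by
    intro v
    apply (hker _).1
    change E (g (f v) - v) = 0
    rw [map_sub, hEgf, sub_self])
  have h1 := cover_le K r hr (q := 1) (empty G (M.c 0)) (M.d 0) f hfe g hge h hh 0
    (fun k v => by simp) (fun v => by
      rw [LinearMap.zero_apply, add_zero, hD]
      change g (f v) = v + (g (f v) - v)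
      abel)
  simpa using h1

end

end Pool.Agent.Q91.LB.Cpx
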